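import Mathlib

-- part Pool.Agent.Lib.MP_5ac201_gt.Chart
section

/-!
Orthogonal charts `F × ℝ ≃ E` of a Euclidean space.
-/

set_option linter.unusedSectionVars false

namespace Pool.Agent.Lib.MP_5ac201_gt

open MeasureTheory Set Module
open scoped ENNReal RealInnerProductSpace

/-- An orthogonal splitting of `E` as `F × ℝ`. -/
structure Chart (F E : Type*) [NormedAddCommGroup F] [InnerProductSpace ℝ F]
    [FiniteDimensional ℝ F] [MeasurableSpace F] [BorelSpace F]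
    [NormedAddCommGroup E] [InnerProductSpace ℝ E]
    [FiniteDimensional ℝ E] [MeasurableSpace E] [BorelSpace E] where
  Ψ : (F × ℝ) ≃L[ℝ] E
  inner_eq : ∀ a b : F × ℝ, ⟪Ψ a, Ψ b⟫ = ⟪a.1, b.1⟫ + a.2 * b.2
  mp : MeasurePreserving Ψ ((volume : Measure F).prod (volume : Measure ℝ)) volume

variable {E : Type*} [NormedAddCommGroup E] [InnerProductSpace ℝ E]
  [FiniteDimensional ℝ E] [MeasurableSpace E] [BorelSpace E]

lemma exists_chart (u : E) (hu : ‖u‖ = 1) :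
    ∃ C : Chart (ℝ ∙ u)ᗮ E, ∀ (y : (ℝ ∙ u)ᗮ) (s : ℝ), C.Ψ (y, s) = (y : E) + s • u := by
  have huu : ⟪u, u⟫ = 1 := by rw [real_inner_self_eq_norm_sq, hu]; norm_num
  have horth : ∀ y : (ℝ ∙ u)ᗮ, ⟪u, (y : E)⟫ = 0 := fun y =>
    Submodule.mem_orthogonal_singleton_iff_inner_right.1 y.2
  have horth' : ∀ y : (ℝ ∙ u)ᗮ, ⟪(y : E), u⟫ = 0 := fun y => by
    rw [real_inner_comm]; exact horth y
  let L : ((ℝ ∙ u)ᗮ × ℝ) →ₗ[ℝ] E :=
    (((ℝ ∙ u)ᗮ).subtype).coprod (LinearMap.toSpanSingleton ℝ E u)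
  have hL : ∀ a : (ℝ ∙ u)ᗮ × ℝ, L a = (a.1 : E) + a.2 • u := fun a => by simp [L]
  have hinner : ∀ a b : (ℝ ∙ u)ᗮ × ℝ, ⟪L a, L b⟫ = ⟪a.1, b.1⟫ + a.2 * b.2 := by
    intro a b
    rw [hL, hL, inner_add_left, inner_add_right, inner_add_right, inner_smul_left, inner_smul_left,
      inner_smul_right, inner_smul_right, horth, horth', huu]
    simp
  have hinj : Function.Injective L := by
    rw [← LinearMap.ker_eq_bot, LinearMap.ker_eq_bot']
    intro a ha
    have := hinner a a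
    rw [ha, inner_zero_left] at this
    have h1 : 0 ≤ ⟪a.1, a.1⟫ := real_inner_self_nonneg
    have h2 : 0 ≤ a.2 * a.2 := mul_self_nonneg _
    have h3 : ⟪a.1, a.1⟫ = 0 := by linarith
    have h4 : a.2 * a.2 = 0 := by linarith
    exact Prod.ext (inner_self_eq_zero.1 h3) (mul_self_eq_zero.1 h4)
  have hsurj : Function.Surjective L := by
    intro x
    refine ⟨(⟨x - ⟪u, x⟫ • u, ?_⟩, ⟪u, x⟫), ?_⟩
    · rw [Submodule.mem_orthogonal_singleton_iff_inner_right, inner_sub_right, inner_smul_right,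
        huu]
      ring
    · rw [hL]; simp
  let e : ((ℝ ∙ u)ᗮ × ℝ) ≃ₗ[ℝ] E := LinearEquiv.ofBijective L ⟨hinj, hsurj⟩
  let e' : WithLp 2 ((ℝ ∙ u)ᗮ × ℝ) ≃ₗᵢ[ℝ] E :=
    ((WithLp.linearEquiv 2 ℝ _).trans e).isometryOfInner (by
      intro a b
      change ⟪L a.ofLp, L b.ofLp⟫ = _
      rw [hinner, WithLp.prod_inner_apply]
      simp [mul_comm])
  refine ⟨⟨e.toContinuousLinearEquiv, hinner, ?_⟩, fun y s => hL (y, s)⟩
  have h1 := e'.measurePreserving.comp (WithLp.volume_preserving_toLp (ℝ ∙ u)ᗮ ℝ)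
  exact h1

lemma finrank_orth (u : E) (hu : ‖u‖ = 1) : finrank ℝ (ℝ ∙ u)ᗮ + 1 = finrank ℝ E := by
  have hu0 : u ≠ 0 := by rintro rfl; simp at hu
  have := (ℝ ∙ u).finrank_add_finrank_orthogonal
  rw [finrank_span_singleton hu0] at this
  omega

variable {F : Type*} [NormedAddCommGroup F] [InnerProductSpace ℝ F]
  [FiniteDimensional ℝ F] [MeasurableSpace F] [BorelSpace F]

lemma Chart.finrank_eq (C : Chart F E) : finrank ℝ E = finrank ℝ F + 1 := by
  rw [← C.Ψ.toLinearEquiv.finrank_eq, finrank_prod, finrank_self]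

lemma Chart.lintegral_eq (C : Chart F E) {f : E → ℝ≥0∞} (hf : Measurable f) :
    ∫⁻ x, f x = ∫⁻ y : F, ∫⁻ s : ℝ, f (C.Ψ (y, s)) := by
  rw [← C.mp.lintegral_comp hf, lintegral_prod]
  exact (hf.comp C.Ψ.continuous.measurable).aemeasurable

lemma Chart.lintegral_eq' (C : Chart F E) {f : E → ℝ≥0∞} (hf : Measurable f) :
    ∫⁻ x, f x = ∫⁻ s : ℝ, ∫⁻ y : F, f (C.Ψ (y, s)) := by
  rw [← C.mp.lintegral_comp hf, lintegral_prod_symm]
  exact (hf.comp C.Ψ.continuous.measurable).aemeasurable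

lemma lintegral_scale {f : F → ℝ≥0∞} (hf : Measurable f) {r : ℝ} (hr : r ≠ 0) :
    ∫⁻ y, f y = ENNReal.ofReal (|r| ^ finrank ℝ F) * ∫⁻ w, f (r • w) := by
  have h := Measure.map_addHaar_smul (volume : Measure F) hr
  rw [← lintegral_map hf (measurable_const_smul r), h, lintegral_smul_measure, smul_eq_mul,
    ← mul_assoc, ← ENNReal.ofReal_mul (by positivity), abs_inv, abs_pow, mul_inv_cancel₀ (by
      have : 0 < |r| := abs_pos.2 hr
      positivity)]
  simp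

/-- Projective polar coordinates. -/
lemma Chart.lintegral_polar (C : Chart F E) {f : E → ℝ≥0∞} (hf : Measurable f) :
    ∫⁻ x, f x = ∫⁻ w : F, ∫⁻ r : ℝ,
      ENNReal.ofReal (|r| ^ finrank ℝ F) * f (r • C.Ψ (w, 1)) := by
  rw [C.lintegral_eq' hf]
  have hm : Measurable fun z : F × ℝ =>
      ENNReal.ofReal (|z.2| ^ finrank ℝ F) * f (z.2 • C.Ψ (z.1, 1)) := by
    refine Measurable.mul (by fun_prop) (hf.comp ?_)
    exact (continuous_snd.smul (C.Ψ.continuous.comp (continuous_fst.prodMk continuous_const))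
      ).measurable
  rw [lintegral_lintegral_swap (f := fun (w : F) (r : ℝ) =>
      ENNReal.ofReal (|r| ^ finrank ℝ F) * f (r • C.Ψ (w, 1))) hm.aemeasurable]
  apply lintegral_congr_ae
  have h0 : ∀ᵐ r : ℝ, r ≠ 0 := by
    simp [ae_iff]
  filter_upwards [h0] with r hr
  have hfr : Measurable fun y : F => f (C.Ψ (y, r)) :=
    hf.comp (C.Ψ.continuous.comp (continuous_id.prodMk continuous_const)).measurable
  rw [lintegral_scale hfr hr, lintegral_const_mul]
  · congr 1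
    apply lintegral_congr
    intro w
    rw [← map_smul]
    simp
  · exact hf.comp ((C.Ψ.continuous.comp (continuous_id.prodMk continuous_const)).const_smul r
      ).measurable

end Pool.Agent.Lib.MP_5ac201_gt
end

-- part Pool.Agent.Lib.MP_5ac201_gt.Sec
section

/-!
The homogeneous section function `R A v = vol (A ∩ v^⊥) / ‖v‖`.
-/

set_option linter.unusedSectionVars false

namespace Pool.Agent.Lib.MP_5ac201_gt

open MeasureTheory Set Module
open scoped ENNReal RealInnerProductSpace Pointwise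

variable {E : Type} [NormedAddCommGroup E] [InnerProductSpace ℝ E]
  [FiniteDimensional ℝ E] [MeasurableSpace E] [BorelSpace E]
variable {F : Type} [NormedAddCommGroup F] [InnerProductSpace ℝ F]
  [FiniteDimensional ℝ F] [MeasurableSpace F] [BorelSpace F]

/-- The prism over the section of `A` by `v^⊥` in direction `p`. -/
def prism (A : Set E) (v p : E) : Set E :=
  {x | 0 ≤ ⟪x, v⟫ ∧ ⟪x, v⟫ ≤ 1 ∧ x - ⟪x, v⟫ • p ∈ A}

/-- The section function. -/
noncomputable def R (A : Set E) (v : E) : ℝ≥0∞ := volume (prism A v ((‖v‖ ^ 2)⁻¹ • v))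

lemma measurableSet_prism {A : Set E} (hA : MeasurableSet A) (v p : E) :
    MeasurableSet (prism A v p) := by
  have h1 : Measurable fun x : E => ⟪x, v⟫ := (continuous_id.inner continuous_const).measurable
  refine (measurableSet_le measurable_const h1).inter
    ((measurableSet_le h1 measurable_const).inter ?_)
  exact (continuous_id.sub ((continuous_id.inner continuous_const).smul continuous_const)
    ).measurable hA

lemma measurable_R {A : Set E} (hA : MeasurableSet A) : Measurable (R A) := by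
  have h1 : Measurable fun z : E × E => ⟪z.2, z.1⟫ :=
    (continuous_snd.inner continuous_fst).measurable
  have hm : MeasurableSet {z : E × E | z.2 ∈ prism A z.1 ((‖z.1‖ ^ 2)⁻¹ • z.1)} := by
    refine (measurableSet_le measurable_const h1).inter
      ((measurableSet_le h1 measurable_const).inter ?_)
    have : Measurable fun z : E × E => z.2 - ⟪z.2, z.1⟫ • ((‖z.1‖ ^ 2)⁻¹ • z.1) :=
      measurable_snd.sub (h1.smul (((measurable_fst.norm.pow_const 2).inv).smul measurable_fst))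
    exact this hA
  exact measurable_measure_prodMk_left hm

lemma volume_prism {A : Set E} (hA : MeasurableSet A) {v p : E} (hv : v ≠ 0)
    (hp : ⟪p, v⟫ = 1) : volume (prism A v p) =
      ENNReal.ofReal ‖v‖⁻¹ * μHE[finrank ℝ E - 1] (A ∩ {x | ⟪x, v⟫ = 0}) := by
  have hv' : 0 < ‖v‖ := norm_pos_iff.2 hv
  rw [← InnerProductSpace.euclideanHausdorffMeasure_eq_volume,
    EuclideanGeometry.euclideanHausdorffMeasure_eq_lintegral (0 : E) hv
      (measurableSet_prism hA v p)]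
  have e : ∀ s : ℝ, μHE[finrank ℝ E - 1]
      (prism A v p ∩ AffineSubspace.mk' (s • v +ᵥ (0 : E)) (ℝ ∙ v)ᗮ) =
      (Icc (0 : ℝ) (‖v‖ ^ 2)⁻¹).indicator
        (fun _ => μHE[finrank ℝ E - 1] (A ∩ {x | ⟪x, v⟫ = 0})) s := by
    intro s
    have hmem : ∀ x : E, x ∈ AffineSubspace.mk' (s • v +ᵥ (0 : E)) (ℝ ∙ v)ᗮ ↔
        ⟪x, v⟫ = s * ‖v‖ ^ 2 := by
      intro x
      rw [AffineSubspace.mem_mk', Submodule.mem_orthogonal_singleton_iff_inner_left]
      simp only [vadd_eq_add, add_zero, vsub_eq_sub, inner_sub_left, inner_smul_left,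
        real_inner_self_eq_norm_sq, conj_trivial]
      exact sub_eq_zero
    have hs : s ∈ Icc (0 : ℝ) (‖v‖ ^ 2)⁻¹ ↔ 0 ≤ s * ‖v‖ ^ 2 ∧ s * ‖v‖ ^ 2 ≤ 1 := by
      rw [mem_Icc, ← one_div, le_div_iff₀ (by positivity), mul_nonneg_iff_of_pos_right
        (by positivity)]
    by_cases h : s ∈ Icc (0 : ℝ) (‖v‖ ^ 2)⁻¹
    · rw [indicator_of_mem h, ← measure_preimage_add_right _ (-((s * ‖v‖ ^ 2) • p))
        (A ∩ {x | ⟪x, v⟫ = 0})]
      congr 1
      ext x
      simp only [mem_inter_iff, SetLike.mem_coe, hmem, prism, mem_ofPred_eq, mem_preimage,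
        ← sub_eq_add_neg, inner_sub_left, inner_smul_left, hp, conj_trivial, mul_one, sub_eq_zero]
      constructor
      · rintro ⟨⟨-, -, h3⟩, h4⟩
        exact ⟨h4 ▸ h3, h4⟩
      · rintro ⟨h3, h4⟩
        exact ⟨⟨h4 ▸ (hs.1 h).1, h4 ▸ (hs.1 h).2, h4 ▸ h3⟩, h4⟩
    · rw [indicator_of_notMem h]
      have : prism A v p ∩ AffineSubspace.mk' (s • v +ᵥ (0 : E)) (ℝ ∙ v)ᗮ = ∅ := by
        ext x
        simp only [mem_inter_iff, SetLike.mem_coe, hmem, prism, mem_ofPred_eq, mem_empty_iff_false,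
          iff_false]
        rintro ⟨⟨h1, h2, -⟩, h4⟩
        exact h (hs.2 ⟨h4 ▸ h1, h4 ▸ h2⟩)
      rw [this, measure_empty]
  simp_rw [e]
  rw [lintegral_indicator measurableSet_Icc, setLIntegral_const, Real.volume_Icc, sub_zero,
    ← ofReal_norm, mul_comm (μHE[finrank ℝ E - 1] _), ← mul_assoc,
    ← ENNReal.ofReal_mul hv'.le]
  congr 2
  field_simp

lemma R_eq_haus {A : Set E} (hA : MeasurableSet A) {v : E} (hv : v ≠ 0) :
    R A v = ENNReal.ofReal ‖v‖⁻¹ * μHE[finrank ℝ E - 1] (A ∩ {x | ⟪x, v⟫ = 0}) := by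
  apply volume_prism hA hv
  have hv' : 0 < ‖v‖ := norm_pos_iff.2 hv
  rw [inner_smul_left, real_inner_self_eq_norm_sq]
  simp only [conj_trivial]
  field_simp

lemma R_eq_prism {A : Set E} (hA : MeasurableSet A) {v p : E} (hp : ⟪p, v⟫ = 1) :
    R A v = volume (prism A v p) := by
  have hv : v ≠ 0 := by rintro rfl; simp at hp
  rw [R_eq_haus hA hv, volume_prism hA hv hp]

lemma R_mono {A B : Set E} (h : A ⊆ B) (v : E) : R A v ≤ R B v :=
  measure_mono fun _ hx => ⟨hx.1, hx.2.1, h hx.2.2⟩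

lemma R_smul_right {A : Set E} (hA : MeasurableSet A) {v : E} (hv : v ≠ 0) {r : ℝ} (hr : r ≠ 0) :
    R A (r • v) = ENNReal.ofReal |r|⁻¹ * R A v := by
  rw [R_eq_haus hA hv, R_eq_haus hA (smul_ne_zero hr hv), ← mul_assoc,
    ← ENNReal.ofReal_mul (by positivity), norm_smul, Real.norm_eq_abs, mul_inv]
  congr 3
  ext x
  simp [inner_smul_right, hr]

lemma R_image {A : Set E} (hA : MeasurableSet A) (T : E ≃L[ℝ] E) {v : E} (hv : v ≠ 0) :
    R (T '' A) v = ENNReal.ofReal |LinearMap.det (T : E →ₗ[ℝ] E)| *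
      R A (ContinuousLinearMap.adjoint (T : E →L[ℝ] E) v) := by
  have hadj : ∀ x, ⟪x, ContinuousLinearMap.adjoint (T : E →L[ℝ] E) v⟫ = ⟪T x, v⟫ := fun x =>
    ContinuousLinearMap.adjoint_inner_right _ _ _
  have hv' : 0 < ‖v‖ := norm_pos_iff.2 hv
  set p := (‖v‖ ^ 2)⁻¹ • v with hpdef
  have hp : ⟪p, v⟫ = 1 := by
    rw [hpdef, inner_smul_left, real_inner_self_eq_norm_sq]
    simp only [conj_trivial]
    field_simp
  have hTA : MeasurableSet (T '' A) := T.toHomeomorph.measurableEmbedding.measurableSet_image.2 hA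
  rw [R_eq_prism hTA hp, R_eq_prism hA (p := T.symm p) (by rw [hadj]; simpa using hp),
    ← Measure.addHaar_image_linearMap]
  congr 1
  ext x
  obtain ⟨y, rfl⟩ := T.surjective x
  have e : ∀ (S : Set E), T y ∈ (T : E →ₗ[ℝ] E) '' S ↔ y ∈ S := fun S =>
    T.injective.mem_set_image
  rw [e]
  simp only [prism, mem_ofPred_eq, hadj]
  have : T y - ⟪T y, v⟫ • p = T (y - ⟪T y, v⟫ • T.symm p) := by simp
  rw [this, T.injective.mem_set_image]

lemma Chart.R_eq (C : Chart F E) {A : Set E} (hA : MeasurableSet A) (z : F) {r : ℝ}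
    (hr : r ≠ 0) : R A (C.Ψ (z, r)) =
      ENNReal.ofReal |r|⁻¹ * volume {y : F | C.Ψ (y, -⟪y, z⟫ / r) ∈ A} := by
  have hp : ⟪C.Ψ (0, r⁻¹), C.Ψ (z, r)⟫ = 1 := by
    rw [C.inner_eq]; simp [hr]
  have hB : MeasurableSet {y : F | C.Ψ (y, -⟪y, z⟫ / r) ∈ A} :=
    (C.Ψ.continuous.comp (continuous_id.prodMk
      (((continuous_id.inner continuous_const).neg).div_const r))).measurable hA
  rw [R_eq_prism hA hp, ← lintegral_indicator_one (measurableSet_prism hA _ _),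
    C.lintegral_eq (measurable_one.indicator (measurableSet_prism hA _ _)),
    ← lintegral_indicator_one hB, ← lintegral_const_mul _ (measurable_one.indicator hB)]
  apply lintegral_congr
  intro y
  have e : ∀ s : ℝ, C.Ψ (y, s) - ⟪C.Ψ (y, s), C.Ψ (z, r)⟫ • C.Ψ (0, r⁻¹) =
      C.Ψ (y, -⟪y, z⟫ / r) := by
    intro s
    rw [C.inner_eq, ← map_smul, ← map_sub]
    congr 1
    ext
    · simp
    · simp only [Prod.smul_mk, smul_eq_mul, Prod.mk_sub_mk]
      field_simp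
      ring
  by_cases hy : y ∈ {y : F | C.Ψ (y, -⟪y, z⟫ / r) ∈ A}
  · rw [indicator_of_mem hy]
    have : (fun s : ℝ => (prism A (C.Ψ (z, r)) (C.Ψ (0, r⁻¹))).indicator (1 : E → ℝ≥0∞)
        (C.Ψ (y, s))) = ((fun s => s * r) ⁻¹' Icc (-⟪y, z⟫) (1 - ⟪y, z⟫)).indicator 1 := by
      ext s
      apply indicator_eq_indicator
      · simp only [prism, mem_ofPred_eq, e, mem_preimage, mem_Icc]
        rw [C.inner_eq]
        simp only
        constructor
        · rintro ⟨h1, h2, -⟩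
          constructor <;> linarith
        · rintro ⟨h1, h2⟩
          exact ⟨by linarith, by linarith, hy⟩
      · rfl
    rw [this, lintegral_indicator_one (measurable_mul_const r measurableSet_Icc),
      Real.volume_preimage_mul_right hr, Real.volume_Icc]
    simp [abs_inv]
  · rw [indicator_of_notMem hy, mul_zero]
    have : (fun s : ℝ => (prism A (C.Ψ (z, r)) (C.Ψ (0, r⁻¹))).indicator (1 : E → ℝ≥0∞)
        (C.Ψ (y, s))) = fun _ => 0 := by
      ext s
      apply indicator_of_notMem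
      intro h
      apply hy
      have h3 := h.2.2
      rw [e] at h3
      exact h3
    rw [this, lintegral_zero]

lemma lintegral_inversion {a : ℝ} (ha : a ≠ 0) (G : ℝ → ℝ → ℝ≥0∞) :
    ∫⁻ r, ENNReal.ofReal |r|⁻¹ * G r (a / r) = ∫⁻ s, ENNReal.ofReal |s|⁻¹ * G (a / s) s := by
  have hS : MeasurableSet ({0}ᶜ : Set ℝ) := (measurableSet_singleton 0).compl
  have h := lintegral_image_eq_lintegral_abs_deriv_mul hS (f := fun r => a / r)
    (f' := fun r => -a / r ^ 2) (fun r hr => by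
      have hr' : r ≠ 0 := hr
      have := ((hasDerivAt_inv hr').const_mul a).hasDerivWithinAt (s := ({0}ᶜ : Set ℝ))
      have e1 : (fun r => a / r) = fun y => a * y⁻¹ := by ext; rw [div_eq_mul_inv]
      have e2 : -a / r ^ 2 = a * -(r ^ 2)⁻¹ := by field_simp
      rw [e1, e2]
      exact this) (fun r hr s hs h => by
      have hr' : r ≠ 0 := hr
      have hs' : s ≠ 0 := hs
      simp only at h
      field_simp at h
      exact h.symm) (fun s => ENNReal.ofReal |s|⁻¹ * G (a / s) s)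
  have himg : (fun r => a / r) '' ({0}ᶜ : Set ℝ) = {0}ᶜ := by
    ext s
    simp only [mem_image, mem_compl_iff, mem_singleton_iff]
    constructor
    · rintro ⟨r, hr, rfl⟩
      exact div_ne_zero ha hr
    · intro hs
      exact ⟨a / s, div_ne_zero ha hs, by field_simp⟩
  rw [himg, restrict_compl_singleton] at h
  rw [h]
  apply lintegral_congr_ae
  have h0 : ∀ᵐ r : ℝ, r ≠ 0 := by simp [ae_iff]
  filter_upwards [h0] with r hr
  rw [← mul_assoc, ← ENNReal.ofReal_mul (abs_nonneg _), div_div_cancel₀ ha]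
  congr 2
  rw [abs_div, abs_div, abs_neg, abs_pow]
  have : 0 < |r| := abs_pos.2 hr
  have : 0 < |a| := abs_pos.2 ha
  field_simp

lemma Chart.setLIntegral_R (C : Chart F E) {A B : Set E} (hA : MeasurableSet A)
    (hB : MeasurableSet B) : ∫⁻ v in B, R A v = ∫⁻ z : F, ∫⁻ y : F, ∫⁻ r : ℝ,
      ENNReal.ofReal |r|⁻¹ * (B.indicator 1 (C.Ψ (z, r)) *
        A.indicator 1 (C.Ψ (y, -⟪y, z⟫ / r))) := by
  rw [← lintegral_indicator hB, C.lintegral_eq ((measurable_R hA).indicator hB)]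
  apply lintegral_congr
  intro z
  have hm2 : Measurable fun w : F × ℝ => A.indicator (1 : E → ℝ≥0∞) (C.Ψ (w.1, -⟪w.1, z⟫ / w.2)) :=
    (measurable_one.indicator hA).comp (C.Ψ.continuous.measurable.comp (measurable_fst.prodMk
      (((continuous_fst.inner continuous_const).neg).measurable.div measurable_snd)))
  have hm1 : Measurable fun r : ℝ => B.indicator (1 : E → ℝ≥0∞) (C.Ψ (z, r)) :=
    (measurable_one.indicator hB).comp
      (C.Ψ.continuous.comp (continuous_const.prodMk continuous_id)).measurable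
  have hm0 : Measurable fun r : ℝ => ENNReal.ofReal |r|⁻¹ := by fun_prop
  rw [lintegral_lintegral_swap (f := fun (y : F) (r : ℝ) => ENNReal.ofReal |r|⁻¹ *
    (B.indicator 1 (C.Ψ (z, r)) * A.indicator 1 (C.Ψ (y, -⟪y, z⟫ / r))))
    ((hm0.comp measurable_snd).mul ((hm1.comp measurable_snd).mul hm2)).aemeasurable]
  apply lintegral_congr_ae
  have h0 : ∀ᵐ r : ℝ, r ≠ 0 := by simp [ae_iff]
  filter_upwards [h0] with r hr
  have hm3 : Measurable fun y : F => A.indicator (1 : E → ℝ≥0∞) (C.Ψ (y, -⟪y, z⟫ / r)) :=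
    hm2.comp (measurable_id.prodMk measurable_const)
  rw [lintegral_const_mul _ (hm3.const_mul _), lintegral_const_mul _ hm3]
  have hB' : MeasurableSet {y : F | C.Ψ (y, -⟪y, z⟫ / r) ∈ A} :=
    (C.Ψ.continuous.comp (continuous_id.prodMk
      (((continuous_id.inner continuous_const).neg).div_const r))).measurable hA
  have e : ∫⁻ y : F, A.indicator (1 : E → ℝ≥0∞) (C.Ψ (y, -⟪y, z⟫ / r)) =
      volume {y : F | C.Ψ (y, -⟪y, z⟫ / r) ∈ A} := by
    rw [← lintegral_indicator_one hB']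
    rfl
  rw [e]
  by_cases h : C.Ψ (z, r) ∈ B
  · rw [indicator_of_mem h, indicator_of_mem h, C.R_eq hA z hr]
    simp
  · rw [indicator_of_notMem h, indicator_of_notMem h]
    simp

lemma ae_inner_ne_zero [Nontrivial F] :
    ∀ᵐ z : F, ∀ᵐ y : F, ⟪y, z⟫ ≠ 0 := by
  have h0 : ∀ᵐ z : F, z ≠ 0 := by simp [ae_iff]
  filter_upwards [h0] with z hz
  have := Measure.addHaar_submodule (volume : Measure F) (ℝ ∙ z)ᗮ (by
    rw [Ne, Submodule.orthogonal_eq_top_iff, Submodule.span_singleton_eq_bot]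
    exact hz)
  rw [ae_iff]
  convert this using 2
  ext y
  simp [Submodule.mem_orthogonal_singleton_iff_inner_left]

/-- Self-adjointness of the section operator. -/
theorem Chart.selfAdjoint [Nontrivial F] (C : Chart F E) {A B : Set E} (hA : MeasurableSet A)
    (hB : MeasurableSet B) : ∫⁻ v in B, R A v = ∫⁻ x in A, R B x := by
  rw [C.setLIntegral_R hA hB, C.setLIntegral_R hB hA]
  have hm : Measurable fun w : (F × F) × ℝ => ENNReal.ofReal |w.2|⁻¹ *
      (A.indicator (1 : E → ℝ≥0∞) (C.Ψ (w.1.1, w.2)) *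
        B.indicator 1 (C.Ψ (w.1.2, -⟪w.1.2, w.1.1⟫ / w.2))) := by
    refine Measurable.mul (by fun_prop) (Measurable.mul ?_ ?_)
    · exact (measurable_one.indicator hA).comp (C.Ψ.continuous.comp
        ((continuous_fst.comp continuous_fst).prodMk continuous_snd)).measurable
    · exact (measurable_one.indicator hB).comp (C.Ψ.continuous.measurable.comp
        ((measurable_snd.comp measurable_fst).prodMk
        ((((continuous_snd.comp continuous_fst).inner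
          (continuous_fst.comp continuous_fst)).neg).measurable.div measurable_snd)))
  rw [lintegral_lintegral_swap (f := fun (y z : F) => ∫⁻ r : ℝ, ENNReal.ofReal |r|⁻¹ *
      (A.indicator (1 : E → ℝ≥0∞) (C.Ψ (y, r)) * B.indicator 1 (C.Ψ (z, -⟪z, y⟫ / r))))
      (hm.lintegral_prod_right').aemeasurable]
  apply lintegral_congr_ae
  filter_upwards [ae_inner_ne_zero (F := F)] with z hz
  apply lintegral_congr_ae
  filter_upwards [hz] with y hy
  have := lintegral_inversion (neg_ne_zero.2 hy) (fun r s =>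
    B.indicator (1 : E → ℝ≥0∞) (C.Ψ (z, r)) * A.indicator 1 (C.Ψ (y, s)))
  rw [this]
  apply lintegral_congr
  intro s
  rw [mul_comm (B.indicator 1 _), real_inner_comm]

end Pool.Agent.Lib.MP_5ac201_gt
end

-- part Pool.Agent.Lib.MP_5ac201_gt.Norms
section

/-!
Norms on a Euclidean space, their open balls and polar formulas.
-/

set_option linter.unusedSectionVars false

namespace Pool.Agent.Lib.MP_5ac201_gt

open MeasureTheory Set Module
open scoped ENNReal RealInnerProductSpace Pointwise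

variable {E : Type} [NormedAddCommGroup E] [InnerProductSpace ℝ E]
  [FiniteDimensional ℝ E] [MeasurableSpace E] [BorelSpace E]
variable {F : Type} [NormedAddCommGroup F] [InnerProductSpace ℝ F]
  [FiniteDimensional ℝ F] [MeasurableSpace F] [BorelSpace F]

/-- A norm on `E`. -/
structure IsNorm (p : E → ℝ) : Prop where
  add_le : ∀ x y, p (x + y) ≤ p x + p y
  smul : ∀ (c : ℝ) x, p (c • x) = |c| * p x
  pos : ∀ x, x ≠ 0 → 0 < p x

/-- The open ball of radius `s`. -/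
def ob (p : E → ℝ) (s : ℝ) : Set E := {x | p x < s}

namespace IsNorm

variable {p : E → ℝ} (hp : IsNorm p)
include hp

lemma zero : p 0 = 0 := by simpa using hp.smul 0 0

lemma nonneg (x : E) : 0 ≤ p x := by
  rcases eq_or_ne x 0 with rfl | h
  · exact hp.zero.ge
  · exact (hp.pos x h).le

lemma neg (x : E) : p (-x) = p x := by simpa using hp.smul (-1) x

lemma smul_of_nonneg {c : ℝ} (hc : 0 ≤ c) (x : E) : p (c • x) = c * p x := by
  rw [hp.smul, abs_of_nonneg hc]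

lemma convex_le (x y : E) {a b : ℝ} (ha : 0 ≤ a) (hb : 0 ≤ b) :
    p (a • x + b • y) ≤ a * p x + b * p y := by
  refine (hp.add_le _ _).trans ?_
  rw [hp.smul_of_nonneg ha, hp.smul_of_nonneg hb]

lemma continuous : Continuous p := by
  rw [← continuousOn_univ]
  exact ConvexOn.continuousOn isOpen_univ
    ⟨convex_univ, fun x _ y _ a b ha hb _ => hp.convex_le x y ha hb⟩

lemma eq_norm_mul {x : E} (hx : x ≠ 0) : p x = ‖x‖ * p (‖x‖⁻¹ • x) := by
  have : 0 < ‖x‖ := norm_pos_iff.2 hx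
  rw [hp.smul_of_nonneg (by positivity)]
  field_simp

lemma exists_upper : ∃ C : ℝ, 0 < C ∧ ∀ x, p x ≤ C * ‖x‖ := by
  obtain ⟨C, hC⟩ := (isCompact_sphere (0 : E) 1).exists_bound_of_continuousOn
    hp.continuous.continuousOn
  refine ⟨max C 1, by positivity, fun x => ?_⟩
  rcases eq_or_ne x 0 with rfl | hx
  · simp [hp.zero]
  · have h0 : 0 < ‖x‖ := norm_pos_iff.2 hx
    have := hC (‖x‖⁻¹ • x) (by simp [norm_smul, h0.ne'])
    rw [hp.eq_norm_mul hx, mul_comm]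
    gcongr
    exact ((le_abs_self _).trans this).trans (le_max_left _ _)

lemma exists_lower : ∃ c : ℝ, 0 < c ∧ ∀ x, c * ‖x‖ ≤ p x := by
  obtain ⟨c, hc, hC⟩ := (isCompact_sphere (0 : E) 1).exists_forall_le'
    hp.continuous.continuousOn (a := 0) (fun b hb => hp.pos b (by rintro rfl; simp at hb))
  refine ⟨c, hc, fun x => ?_⟩
  rcases eq_or_ne x 0 with rfl | hx
  · simp [hp.zero]
  · have h0 : 0 < ‖x‖ := norm_pos_iff.2 hx
    have := hC (‖x‖⁻¹ • x) (by simp [norm_smul, h0.ne'])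
    rw [hp.eq_norm_mul hx, mul_comm]
    gcongr

lemma isOpen_ob (s : ℝ) : IsOpen (ob p s) := isOpen_lt hp.continuous continuous_const

lemma measurableSet_ob (s : ℝ) : MeasurableSet (ob p s) := (hp.isOpen_ob s).measurableSet

lemma isBounded_ob (s : ℝ) : Bornology.IsBounded (ob p s) := by
  obtain ⟨c, hc, hC⟩ := hp.exists_lower
  refine (Metric.isBounded_closedBall (x := (0 : E)) (r := s / c)).subset fun x hx => ?_
  rw [mem_closedBall_zero_iff, le_div_iff₀ hc, mul_comm]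
  exact (hC x).trans (le_of_lt hx)

lemma volume_ob_ne_top (s : ℝ) : volume (ob p s) ≠ ⊤ := (hp.isBounded_ob s).measure_lt_top.ne

lemma volume_ob_ne_zero {s : ℝ} (hs : 0 < s) : volume (ob p s) ≠ 0 :=
  (hp.isOpen_ob s).measure_ne_zero _ ⟨0, by simpa [ob, hp.zero] using hs⟩

lemma ob_eq_smul {s : ℝ} (hs : 0 < s) : ob p s = s • ob p 1 := by
  ext x
  rw [mem_smul_set_iff_inv_smul_mem₀ hs.ne']
  simp only [ob, mem_ofPred_eq]
  rw [hp.smul_of_nonneg (by positivity), inv_mul_lt_iff₀ hs, mul_one]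

lemma volume_ob {s : ℝ} (hs : 0 < s) :
    volume (ob p s) = ENNReal.ofReal (s ^ finrank ℝ E) * volume (ob p 1) := by
  rw [hp.ob_eq_smul hs, Measure.addHaar_smul_of_nonneg _ hs.le]

lemma R_ob {s : ℝ} (hs : 0 < s) {v : E} (hv : v ≠ 0) :
    R (ob p s) v = ENNReal.ofReal (s ^ (finrank ℝ E - 1)) * R (ob p 1) v := by
  rw [R_eq_haus (hp.measurableSet_ob s) hv, R_eq_haus (hp.measurableSet_ob 1) hv]
  have : ob p s ∩ {x | ⟪x, v⟫ = 0} = s • (ob p 1 ∩ {x | ⟪x, v⟫ = 0}) := by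
    rw [smul_set_inter₀ hs.ne', ← hp.ob_eq_smul hs]
    congr 1
    ext x
    rw [mem_smul_set_iff_inv_smul_mem₀ hs.ne']
    simp [inner_smul_left, hs.ne']
  rw [this, Measure.euclideanHausdorffMeasure_smul₀ _ hs.ne', ENNReal.smul_def, smul_eq_mul,
    mul_left_comm]
  congr 1
  rw [ENNReal.coe_pow, ENNReal.ofReal_pow hs.le, ← enorm_eq_nnnorm, Real.enorm_eq_ofReal hs.le]

lemma R_ob_ne_top (s : ℝ) (v : E) : R (ob p s) v ≠ ⊤ := by
  obtain ⟨M, hM⟩ := (hp.isBounded_ob s).exists_norm_le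
  refine ne_of_lt (Bornology.IsBounded.measure_lt_top ?_)
  refine (Metric.isBounded_closedBall (x := (0 : E))
    (r := M + ‖(‖v‖ ^ 2)⁻¹ • v‖)).subset fun x hx => ?_
  rw [mem_closedBall_zero_iff]
  obtain ⟨h1, h2, h3⟩ := hx
  have h4 := hM _ h3
  calc ‖x‖ = ‖(x - ⟪x, v⟫ • (‖v‖ ^ 2)⁻¹ • v) + ⟪x, v⟫ • (‖v‖ ^ 2)⁻¹ • v‖ := by simp
    _ ≤ ‖x - ⟪x, v⟫ • (‖v‖ ^ 2)⁻¹ • v‖ + ‖⟪x, v⟫ • (‖v‖ ^ 2)⁻¹ • v‖ := norm_add_le _ _
    _ ≤ M + ‖(‖v‖ ^ 2)⁻¹ • v‖ := by
      gcongr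
      rw [norm_smul, Real.norm_eq_abs, abs_of_nonneg h1]
      exact mul_le_of_le_one_left (norm_nonneg _) h2

lemma R_ob_ne_zero {s : ℝ} (hs : 0 < s) {v : E} (hv : v ≠ 0) : R (ob p s) v ≠ 0 := by
  set q := (‖v‖ ^ 2)⁻¹ • v with hq
  have hqv : ⟪q, v⟫ = 1 := by
    have hv' : 0 < ‖v‖ := norm_pos_iff.2 hv
    rw [hq, inner_smul_left, real_inner_self_eq_norm_sq]
    simp only [conj_trivial]
    field_simp
  have h1 : Continuous fun x : E => ⟪x, v⟫ := continuous_id.inner continuous_const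
  have hO : IsOpen {x : E | 0 < ⟪x, v⟫ ∧ ⟪x, v⟫ < 1 ∧ x - ⟪x, v⟫ • q ∈ ob p s} :=
    (isOpen_lt continuous_const h1).inter ((isOpen_lt h1 continuous_const).inter
      ((hp.isOpen_ob s).preimage (continuous_id.sub (h1.smul continuous_const))))
  have hne : {x : E | 0 < ⟪x, v⟫ ∧ ⟪x, v⟫ < 1 ∧ x - ⟪x, v⟫ • q ∈ ob p s}.Nonempty := by
    refine ⟨(1 / 2 : ℝ) • q, ?_⟩
    simp only [mem_ofPred_eq, inner_smul_left, hqv, conj_trivial, mul_one, sub_self, ob, hp.zero]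
    exact ⟨by norm_num, by norm_num, hs⟩
  intro h0
  refine hO.measure_ne_zero volume hne (measure_mono_null (fun x hx => ?_) h0)
  exact ⟨hx.1.le, hx.2.1.le, hx.2.2⟩

end IsNorm

lemma lintegral_pow_Ioo (k : ℕ) {ρ : ℝ} (hρ : 0 < ρ) :
    ∫⁻ r in Ioo (-ρ) ρ, ENNReal.ofReal (|r| ^ k) = ENNReal.ofReal (2 * ρ ^ (k + 1) / (k + 1)) := by
  have hc : Continuous fun r : ℝ => |r| ^ k := by fun_prop
  rw [← ofReal_integral_eq_lintegral_ofReal
    (hc.continuousOn.integrableOn_Icc.mono_set Ioo_subset_Icc_self)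
    (Filter.Eventually.of_forall fun r => by positivity)]
  congr 1
  rw [← integral_Ioc_eq_integral_Ioo, ← intervalIntegral.integral_of_le (by linarith),
    ← intervalIntegral.integral_add_adjacent_intervals (b := 0) (hc.intervalIntegrable _ _)
    (hc.intervalIntegrable _ _)]
  have h1 : ∫ r in (0 : ℝ)..ρ, |r| ^ k = ρ ^ (k + 1) / (k + 1) := by
    rw [intervalIntegral.integral_congr (g := fun r => r ^ k)]
    · simp
    · intro r hr
      rw [uIcc_of_le hρ.le] at hr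
      simp [abs_of_nonneg hr.1]
  have h2 : ∫ r in (-ρ)..0, |r| ^ k = ∫ r in (0 : ℝ)..ρ, |r| ^ k := by
    have := intervalIntegral.integral_comp_neg (a := 0) (b := ρ) (fun r : ℝ => |r| ^ k)
    simp only [abs_neg, neg_zero] at this
    exact this.symm
  rw [h2, h1]
  ring

lemma Chart.ne_zero (C : Chart F E) (w : F) : C.Ψ (w, 1) ≠ 0 := by
  rw [Ne, C.Ψ.map_eq_zero_iff]
  simp

lemma Chart.mem_ob (C : Chart F E) {p : E → ℝ} (hp : IsNorm p) (s : ℝ) (w : F) (r : ℝ) :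
    r • C.Ψ (w, 1) ∈ ob p s ↔ r ∈ Ioo (-(s / p (C.Ψ (w, 1)))) (s / p (C.Ψ (w, 1))) := by
  have h := hp.pos _ (C.ne_zero w)
  rw [mem_Ioo, ← abs_lt, lt_div_iff₀ h]
  simp [ob, hp.smul]

/-- Polar formula for the volume. -/
lemma Chart.volume_ob (C : Chart F E) {p : E → ℝ} (hp : IsNorm p) :
    volume (ob p 1) = ENNReal.ofReal (2 / (finrank ℝ F + 1)) *
      ∫⁻ w, ENNReal.ofReal ((p (C.Ψ (w, 1)) ^ (finrank ℝ F + 1))⁻¹) := by
  rw [← lintegral_indicator_one (hp.measurableSet_ob 1),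
    C.lintegral_polar (measurable_one.indicator (hp.measurableSet_ob 1)),
    ← lintegral_const_mul' _ _ ENNReal.ofReal_ne_top]
  apply lintegral_congr
  intro w
  have h := hp.pos _ (C.ne_zero w)
  rw [← ENNReal.ofReal_mul (by positivity)]
  have := lintegral_pow_Ioo (finrank ℝ F) (ρ := 1 / p (C.Ψ (w, 1))) (by positivity)
  rw [← lintegral_indicator measurableSet_Ioo] at this
  convert this using 2
  · ext r
    by_cases hr : r • C.Ψ (w, 1) ∈ ob p 1
    · rw [indicator_of_mem hr, indicator_of_mem ((C.mem_ob hp 1 w r).1 hr)]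
      simp
    · rw [indicator_of_notMem hr, indicator_of_notMem (mt (C.mem_ob hp 1 w r).2 hr)]
      simp
  · rw [one_div, inv_pow]
    ring

/-- Polar formula for a function homogeneous of degree `-1`. -/
lemma Chart.lintegral_ob (C : Chart F E) (hF : finrank ℝ F ≠ 0) {p : E → ℝ} (hp : IsNorm p)
    {s : ℝ} (hs : 0 < s) {h : E → ℝ≥0∞} (hm : Measurable h)
    (hh : ∀ (v : E) (r : ℝ), v ≠ 0 → r ≠ 0 → h (r • v) = ENNReal.ofReal |r|⁻¹ * h v) :
    ∫⁻ x in ob p s, h x = ENNReal.ofReal (2 * s ^ finrank ℝ F / finrank ℝ F) *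
      ∫⁻ w, ENNReal.ofReal ((p (C.Ψ (w, 1)) ^ finrank ℝ F)⁻¹) * h (C.Ψ (w, 1)) := by
  obtain ⟨k, hk⟩ := Nat.exists_eq_add_one_of_ne_zero hF
  rw [← lintegral_indicator (hp.measurableSet_ob s),
    C.lintegral_polar (hm.indicator (hp.measurableSet_ob s)),
    ← lintegral_const_mul' _ _ ENNReal.ofReal_ne_top]
  apply lintegral_congr
  intro w
  have h0 := hp.pos _ (C.ne_zero w)
  rw [← mul_assoc, ← ENNReal.ofReal_mul (by positivity)]
  have := lintegral_pow_Ioo k (ρ := s / p (C.Ψ (w, 1))) (by positivity)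
  rw [← lintegral_indicator measurableSet_Ioo] at this
  have e : 2 * s ^ finrank ℝ F / finrank ℝ F * (p (C.Ψ (w, 1)) ^ finrank ℝ F)⁻¹ =
      2 * (s / p (C.Ψ (w, 1))) ^ (k + 1) / (k + 1) := by
    rw [hk, div_pow]
    push_cast
    ring
  rw [e, ← this, ← lintegral_mul_const _ (Measurable.indicator (by fun_prop) measurableSet_Ioo)]
  apply lintegral_congr_ae
  have h1 : ∀ᵐ r : ℝ, r ≠ 0 := by simp [ae_iff]
  filter_upwards [h1] with r hr0
  by_cases hr : r • C.Ψ (w, 1) ∈ ob p s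
  · rw [indicator_of_mem hr, indicator_of_mem ((C.mem_ob hp s w r).1 hr),
      hh _ _ (C.ne_zero w) hr0, ← mul_assoc, ← ENNReal.ofReal_mul (by positivity), hk]
    congr 2
    have : 0 < |r| := abs_pos.2 hr0
    rw [pow_succ]
    field_simp
  · rw [indicator_of_notMem hr, indicator_of_notMem (mt (C.mem_ob hp s w r).2 hr)]
    simp

end Pool.Agent.Lib.MP_5ac201_gt
end

-- part Pool.Agent.Lib.MP_5ac201_gt.BBL
section

/-!
A Borell-Brascamp-Lieb inequality for marginals of functions with convex negative root.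
-/

set_option linter.unusedSectionVars false

namespace Pool.Agent.Lib.MP_5ac201_gt

open MeasureTheory Set Module
open scoped ENNReal RealInnerProductSpace

/-- `g ^ (-1 / a)` is convex. -/
def Cv {X : Type*} [AddCommGroup X] [Module ℝ X] (a : ℕ) (g : X → ℝ≥0∞) : Prop :=
  ∀ (x0 x1 : X) (t : ℝ), 0 < t → t < 1 → ∀ α0 α1 : ℝ, 0 < α0 → 0 < α1 →
    ENNReal.ofReal ((α0 ^ a)⁻¹) < g x0 → ENNReal.ofReal ((α1 ^ a)⁻¹) < g x1 →
    ENNReal.ofReal ((((1 - t) * α0 + t * α1) ^ a)⁻¹) ≤ g ((1 - t) • x0 + t • x1)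

lemma bm_one {A0 A1 C : Set ℝ} (h0 : A0.Nonempty) (h1 : A1.Nonempty) (hC : C.OrdConnected)
    {t : ℝ} (ht0 : 0 < t) (ht1 : t < 1)
    (h : ∀ s0 ∈ A0, ∀ s1 ∈ A1, (1 - t) * s0 + t * s1 ∈ C) :
    ENNReal.ofReal (1 - t) * volume A0 + ENNReal.ofReal t * volume A1 ≤ volume C := by
  have key : ∀ (A : Set ℝ), A.Nonempty → volume A ≤
      ⨆ z ∈ {z : ℝ × ℝ | z.1 ∈ A ∧ z.2 ∈ A ∧ z.1 ≤ z.2}, ENNReal.ofReal (z.2 - z.1) := by
    intro A _
    refine (Real.volume_le_diam A).trans (Metric.ediam_le ?_)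
    intro x hx y hy
    rw [edist_dist, Real.dist_eq]
    rcases le_total x y with hxy | hxy
    · rw [abs_sub_comm, abs_of_nonneg (by linarith)]
      exact le_iSup₂_of_le (f := fun (z : ℝ × ℝ) (_ : z ∈ {z : ℝ × ℝ | z.1 ∈ A ∧ z.2 ∈ A ∧
        z.1 ≤ z.2}) => ENNReal.ofReal (z.2 - z.1)) (x, y) ⟨hx, hy, hxy⟩ le_rfl
    · rw [abs_of_nonneg (by linarith)]
      exact le_iSup₂_of_le (f := fun (z : ℝ × ℝ) (_ : z ∈ {z : ℝ × ℝ | z.1 ∈ A ∧ z.2 ∈ A ∧
        z.1 ≤ z.2}) => ENNReal.ofReal (z.2 - z.1)) (y, x) ⟨hy, hx, hxy⟩ le_rfl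
  calc _ ≤ ENNReal.ofReal (1 - t) * (⨆ z ∈ {z : ℝ × ℝ | z.1 ∈ A0 ∧ z.2 ∈ A0 ∧ z.1 ≤ z.2},
          ENNReal.ofReal (z.2 - z.1)) + ENNReal.ofReal t *
          (⨆ z ∈ {z : ℝ × ℝ | z.1 ∈ A1 ∧ z.2 ∈ A1 ∧ z.1 ≤ z.2}, ENNReal.ofReal (z.2 - z.1)) := by
        gcongr
        · exact key A0 h0
        · exact key A1 h1
    _ ≤ volume C := by
        simp_rw [ENNReal.mul_iSup]
        obtain ⟨a0, ha0⟩ := h0
        obtain ⟨a1, ha1⟩ := h1
        refine ENNReal.biSup_add_biSup_le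
          (s := {z : ℝ × ℝ | z.1 ∈ A0 ∧ z.2 ∈ A0 ∧ z.1 ≤ z.2})
          (t := {z : ℝ × ℝ | z.1 ∈ A1 ∧ z.2 ∈ A1 ∧ z.1 ≤ z.2}) ⟨(a0, a0), ha0, ha0, le_rfl⟩
          ⟨(a1, a1), ha1, ha1, le_rfl⟩ ?_
        rintro z ⟨hz1, hz2, hz⟩ w ⟨hw1, hw2, hw⟩
        have hsub : Icc ((1 - t) * z.1 + t * w.1) ((1 - t) * z.2 + t * w.2) ⊆ C :=
          hC.out (h _ hz1 _ hw1) (h _ hz2 _ hw2)
        refine le_trans ?_ (measure_mono hsub)
        rw [Real.volume_Icc, ← ENNReal.ofReal_mul (by linarith), ← ENNReal.ofReal_mul ht0.le,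
          ← ENNReal.ofReal_add (mul_nonneg (by linarith) (by linarith))
            (mul_nonneg ht0.le (by linarith))]
        apply le_of_eq
        congr 1
        ring

lemma layer_pt (y : ℝ≥0∞) {S : ℝ} (hS : 0 < S) :
    ENNReal.ofReal S * volume ({θ : ℝ | ENNReal.ofReal (θ * S) < y} ∩ Ioo 0 1) =
      min y (ENNReal.ofReal S) := by
  rcases le_or_gt (ENNReal.ofReal S) y with h | h
  · rw [min_eq_right h]
    have : {θ : ℝ | ENNReal.ofReal (θ * S) < y} ∩ Ioo 0 1 = Ioo 0 1 := by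
      apply inter_eq_right.2
      intro θ hθ
      refine lt_of_lt_of_le ?_ h
      rw [ENNReal.ofReal_lt_ofReal_iff hS]
      nlinarith [hθ.2]
    rw [this]; simp
  · rw [min_eq_left h.le]
    have hy : y ≠ ⊤ := ne_top_of_lt h
    lift y to NNReal using hy
    have hyS : (y : ℝ) < S := by
      rw [← ENNReal.ofReal_coe_nnreal, ENNReal.ofReal_lt_ofReal_iff hS] at h
      exact h
    have : {θ : ℝ | ENNReal.ofReal (θ * S) < y} ∩ Ioo 0 1 = Ioo 0 ((y : ℝ) / S) := by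
      ext θ
      simp only [mem_inter_iff, mem_ofPred_eq, mem_Ioo]
      constructor
      · rintro ⟨h1, h2, h3⟩
        refine ⟨h2, ?_⟩
        rw [ENNReal.ofReal_lt_coe_iff (by positivity)] at h1
        rwa [lt_div_iff₀ hS]
      · rintro ⟨h1, h2⟩
        rw [lt_div_iff₀ hS] at h2
        refine ⟨?_, h1, ?_⟩
        · rwa [ENNReal.ofReal_lt_coe_iff (by positivity)]
        · nlinarith
    rw [this, Real.volume_Ioo, ← ENNReal.ofReal_mul hS.le, sub_zero, mul_div_cancel₀ _ hS.ne']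
    simp

lemma layer {H : ℝ → ℝ≥0∞} (hH : Measurable H) {S : ℝ} (hS : 0 < S) :
    ∫⁻ s, min (H s) (ENNReal.ofReal S) =
      ENNReal.ofReal S * ∫⁻ θ in Ioo (0 : ℝ) 1, volume {s | ENNReal.ofReal (θ * S) < H s} := by
  have hm : MeasurableSet {z : ℝ × ℝ | ENNReal.ofReal (z.1 * S) < H z.2} :=
    measurableSet_lt (by fun_prop) (hH.comp measurable_snd)
  have h1 := Measure.prod_apply (μ := (volume : Measure ℝ).restrict (Ioo 0 1))
    (ν := (volume : Measure ℝ)) hm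
  have h2 := Measure.prod_apply_symm (μ := (volume : Measure ℝ).restrict (Ioo 0 1))
    (ν := (volume : Measure ℝ)) hm
  have e1 : ∫⁻ θ in Ioo (0 : ℝ) 1, volume {s | ENNReal.ofReal (θ * S) < H s} =
      ∫⁻ s, volume ({θ : ℝ | ENNReal.ofReal (θ * S) < H s} ∩ Ioo 0 1) := by
    refine h1.symm.trans (h2.trans ?_)
    apply lintegral_congr
    intro s
    rw [Measure.restrict_apply' measurableSet_Ioo]
    rfl
  rw [e1, ← lintegral_const_mul' _ _ ENNReal.ofReal_ne_top]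
  apply lintegral_congr
  intro s
  rw [layer_pt _ hS]

lemma exists_root {y : ℝ} (hy : 0 < y) {a : ℕ} (ha : a ≠ 0) :
    ∃ α : ℝ, 0 < α ∧ (α ^ a)⁻¹ = y := by
  refine ⟨(y⁻¹) ^ ((a : ℝ)⁻¹), by positivity, ?_⟩
  rw [Real.rpow_inv_natCast_pow (by positivity) ha, inv_inv]

lemma Cv.quasi {X : Type*} [AddCommGroup X] [Module ℝ X] {a : ℕ} (ha : a ≠ 0) {g : X → ℝ≥0∞}
    (hg : Cv a g) (x0 x1 : X) {t : ℝ} (ht0 : 0 < t) (ht1 : t < 1) {y : ℝ≥0∞}
    (h0 : y < g x0) (h1 : y < g x1) : y < g ((1 - t) • x0 + t • x1) := by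
  obtain ⟨z, hyz, hz⟩ := exists_between (lt_min h0 h1)
  have hz' : z ≠ ⊤ := ne_top_of_lt hz
  have hz0 : 0 < z.toReal := ENNReal.toReal_pos (ne_zero_of_lt hyz) hz'
  obtain ⟨α, hα, e⟩ := exists_root hz0 ha
  have := hg x0 x1 t ht0 ht1 α α hα hα
    (by rw [e, ENNReal.ofReal_toReal hz']; exact hz.trans_le (min_le_left _ _))
    (by rw [e, ENNReal.ofReal_toReal hz']; exact hz.trans_le (min_le_right _ _))
  rw [show (1 - t) * α + t * α = α by ring, e, ENNReal.ofReal_toReal hz'] at this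
  exact hyz.trans_le this

lemma Cv.ordConnected {X : Type*} [AddCommGroup X] [Module ℝ X] {a : ℕ} (ha : a ≠ 0)
    {g : X × ℝ → ℝ≥0∞} (hg : Cv a g) (x : X) (y : ℝ≥0∞) :
    OrdConnected {s : ℝ | y < g (x, s)} := by
  apply Convex.ordConnected
  rw [convex_iff_forall_pos]
  intro s0 h0 s1 h1 p q hp hq hpq
  have := hg.quasi ha (x, s0) (x, s1) hq (by linarith) h0 h1
  have e : (1 - q) • (x, s0) + q • (x, s1) = (x, p • s0 + q • s1) := by
    have : 1 - q = p := by linarith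
    rw [this]
    ext
    · simp [← add_smul, hpq]
    · simp
  rwa [e] at this

lemma persp {a : ℕ} {t m0 m1 b0 b1 : ℝ} (ht0 : 0 < t) (ht1 : t < 1) (hm0 : 0 < m0) (hm1 : 0 < m1)
    (hb0 : 0 < b0) (hb1 : 0 < b1) :
    (((1 - t) * b0 + t * b1) ^ a)⁻¹ ≤ (((1 - t) * m0 + t * m1) ^ (a + 1))⁻¹ *
      ((1 - t) * ((b0 ^ a)⁻¹ / (m0 ^ (a + 1))⁻¹) + t * ((b1 ^ a)⁻¹ / (m1 ^ (a + 1))⁻¹)) := by
  have ht' : 0 < 1 - t := by linarith
  set b := (1 - t) * b0 + t * b1 with hb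
  set m := (1 - t) * m0 + t * m1 with hm
  have hbpos : 0 < b := by positivity
  have hmpos : 0 < m := by positivity
  have h := (convexOn_pow (𝕜 := ℝ) (a + 1)).2
    (mem_Ici.2 (by positivity : (0 : ℝ) ≤ m0 / b0)) (mem_Ici.2 (by positivity : (0 : ℝ) ≤ m1 / b1))
    (by positivity : (0 : ℝ) ≤ (1 - t) * b0 / b) (by positivity : (0 : ℝ) ≤ t * b1 / b)
    (by rw [← add_div, div_self hbpos.ne'])
  simp only [smul_eq_mul] at h
  have e1 : (1 - t) * b0 / b * (m0 / b0) + t * b1 / b * (m1 / b1) = m / b := by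
    rw [hm]; field_simp
  rw [e1] at h
  have e2 : (1 - t) * b0 / b * (m0 / b0) ^ (a + 1) + t * b1 / b * (m1 / b1) ^ (a + 1) =
      ((1 - t) * ((b0 ^ a)⁻¹ / (m0 ^ (a + 1))⁻¹) + t * ((b1 ^ a)⁻¹ / (m1 ^ (a + 1))⁻¹)) / b := by
    rw [div_pow, div_pow]; field_simp; ring
  rw [e2, le_div_iff₀ hbpos] at h
  rw [← div_eq_inv_mul, le_div_iff₀ (by positivity)]
  refine le_trans (le_of_eq ?_) h
  rw [div_pow]; field_simp; ring

lemma exists_trunc {H : ℝ → ℝ≥0∞} (hH : Measurable H) {y : ℝ≥0∞} (hy : y < ∫⁻ s, H s) :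
    ∃ S : ℝ, 0 < S ∧ y < ∫⁻ s, min (H s) (ENNReal.ofReal S) ∧
      ∀ θ : ℝ, θ < 1 → ∃ s, ENNReal.ofReal (θ * S) < H s := by
  have h1 : ∫⁻ s, H s = ⨆ k : ℕ, ∫⁻ s, min (H s) (k : ℝ≥0∞) := by
    rw [← lintegral_iSup]
    · apply lintegral_congr
      intro s
      rw [← inf_iSup_eq (H s) (fun k : ℕ => (k : ℝ≥0∞)), ENNReal.iSup_natCast]
      simp
    · intro k
      exact hH.min measurable_const
    · intro i j hij s
      exact min_le_min le_rfl (by exact_mod_cast hij)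
  rw [h1, lt_iSup_iff] at hy
  obtain ⟨k, hk⟩ := hy
  set S' := ⨆ s, min (H s) (k : ℝ≥0∞) with hS'
  have hS'top : S' ≠ ⊤ := ne_top_of_le_ne_top (ENNReal.natCast_ne_top k)
    (iSup_le fun s => min_le_right _ _)
  have hle : ∀ s, min (H s) (k : ℝ≥0∞) ≤ S' := fun s =>
    le_iSup (fun s => min (H s) (k : ℝ≥0∞)) s
  have hS'0 : S' ≠ 0 := by
    intro h0
    have : ∀ s, min (H s) (k : ℝ≥0∞) = 0 := fun s => le_zero_iff.1 (h0 ▸ hle s)
    simp [this] at hk
  have hpos := ENNReal.toReal_pos hS'0 hS'top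
  refine ⟨S'.toReal, hpos, hk.trans_le (lintegral_mono fun s => ?_), fun θ hθ => ?_⟩
  · rw [ENNReal.ofReal_toReal hS'top]
    exact le_min (min_le_left _ _) (hle s)
  · have : ENNReal.ofReal (θ * S'.toReal) < S' := by
      conv_rhs => rw [← ENNReal.ofReal_toReal hS'top]
      rw [ENNReal.ofReal_lt_ofReal_iff hpos]
      nlinarith
    rw [hS', lt_iSup_iff] at this
    obtain ⟨s, hs⟩ := this
    exact ⟨s, hs.trans_le (min_le_left _ _)⟩

lemma Cv.step {X : Type*} [AddCommGroup X] [Module ℝ X] {a : ℕ}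
    {g : X × ℝ → ℝ≥0∞} (hg : Cv (a + 1) g) : Cv a (fun x => ∫⁻ s, g (x, s)) := by
  intro x0 x1 t ht0 ht1 β0 β1 hβ0 hβ1 h0 h1
  have ht' : 0 < 1 - t := by linarith
  have hmeas : ∀ x, Measurable fun s => g (x, s) := fun x =>
    measurable_of_Ioi fun y => (hg.ordConnected (Nat.succ_ne_zero a) x y).measurableSet
  obtain ⟨S0, hS0, hI0, hne0⟩ := exists_trunc (hmeas x0) h0
  obtain ⟨S1, hS1, hI1, hne1⟩ := exists_trunc (hmeas x1) h1
  obtain ⟨m0, hm0, e0⟩ := exists_root hS0 (Nat.succ_ne_zero a)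
  obtain ⟨m1, hm1, e1⟩ := exists_root hS1 (Nat.succ_ne_zero a)
  set xt := (1 - t) • x0 + t • x1 with hxt
  set St := (((1 - t) * m0 + t * m1) ^ (a + 1))⁻¹ with hSt
  have hStpos : 0 < St := by positivity
  rw [layer (hmeas x0) hS0] at hI0
  rw [layer (hmeas x1) hS1] at hI1
  set I0 := ∫⁻ θ in Ioo (0 : ℝ) 1, volume {s | ENNReal.ofReal (θ * S0) < g (x0, s)} with hI0'
  set I1 := ∫⁻ θ in Ioo (0 : ℝ) 1, volume {s | ENNReal.ofReal (θ * S1) < g (x1, s)} with hI1'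
  have hanti : ∀ (x : X) (S : ℝ), 0 < S →
      Measurable fun θ : ℝ => volume {s | ENNReal.ofReal (θ * S) < g (x, s)} := by
    intro x S hS
    apply Antitone.measurable
    intro θ θ' hθ
    apply measure_mono
    intro s hs
    exact lt_of_le_of_lt (ENNReal.ofReal_le_ofReal (by nlinarith)) hs
  have hmain : ENNReal.ofReal (1 - t) * I0 + ENNReal.ofReal t * I1 ≤
      ∫⁻ θ in Ioo (0 : ℝ) 1, volume {s | ENNReal.ofReal (θ * St) < g (xt, s)} := by
    rw [hI0', hI1', ← lintegral_const_mul _ (hanti x0 S0 hS0),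
      ← lintegral_const_mul _ (hanti x1 S1 hS1),
      ← lintegral_add_left ((hanti x0 S0 hS0).const_mul _)]
    apply setLIntegral_mono' measurableSet_Ioo
    intro θ hθ
    apply bm_one (hne0 θ hθ.2) (hne1 θ hθ.2) (hg.ordConnected (Nat.succ_ne_zero a) xt _) ht0 ht1
    intro s0 hs0 s1 hs1
    simp only [mem_ofPred_eq] at hs0 hs1 ⊢
    have hopen : ∀ᶠ θ' in nhds θ, ENNReal.ofReal (θ' * S0) < g (x0, s0) ∧
        ENNReal.ofReal (θ' * S1) < g (x1, s1) := by
      apply Filter.Eventually.and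
      · exact (ENNReal.continuous_ofReal.comp (continuous_id.mul continuous_const)
          ).continuousAt.eventually_lt continuousAt_const hs0
      · exact (ENNReal.continuous_ofReal.comp (continuous_id.mul continuous_const)
          ).continuousAt.eventually_lt continuousAt_const hs1
    obtain ⟨θ', hθ', hθθ'⟩ := hopen.exists_gt
    have hθ'0 : 0 < θ' := hθ.1.trans hθ'
    obtain ⟨κ, hκ, eκ⟩ := exists_root hθ'0 (Nat.succ_ne_zero a)
    have := hg (x0, s0) (x1, s1) t ht0 ht1 (κ * m0) (κ * m1) (by positivity) (by positivity)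
      (by rw [mul_pow, mul_inv, eκ, e0]; exact hθθ'.1)
      (by rw [mul_pow, mul_inv, eκ, e1]; exact hθθ'.2)
    rw [show (1 - t) * (κ * m0) + t * (κ * m1) = κ * ((1 - t) * m0 + t * m1) by ring, mul_pow,
      mul_inv, eκ, ← hSt] at this
    refine lt_of_lt_of_le ?_ this
    rw [ENNReal.ofReal_lt_ofReal_iff (by positivity)]
    nlinarith
  have hJ0 : ENNReal.ofReal ((β0 ^ a)⁻¹ / S0) ≤ I0 := by
    rw [ENNReal.ofReal_div_of_pos hS0]
    exact ENNReal.div_le_of_le_mul' hI0.le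
  have hJ1 : ENNReal.ofReal ((β1 ^ a)⁻¹ / S1) ≤ I1 := by
    rw [ENNReal.ofReal_div_of_pos hS1]
    exact ENNReal.div_le_of_le_mul' hI1.le
  calc ENNReal.ofReal ((((1 - t) * β0 + t * β1) ^ a)⁻¹)
      ≤ ENNReal.ofReal (St * ((1 - t) * ((β0 ^ a)⁻¹ / S0) + t * ((β1 ^ a)⁻¹ / S1))) := by
        apply ENNReal.ofReal_le_ofReal
        rw [← e0, ← e1]
        exact persp ht0 ht1 hm0 hm1 hβ0 hβ1
    _ = ENNReal.ofReal St * (ENNReal.ofReal (1 - t) * ENNReal.ofReal ((β0 ^ a)⁻¹ / S0) +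
          ENNReal.ofReal t * ENNReal.ofReal ((β1 ^ a)⁻¹ / S1)) := by
        rw [ENNReal.ofReal_mul hStpos.le, ENNReal.ofReal_add (by positivity) (by positivity),
          ENNReal.ofReal_mul ht'.le, ENNReal.ofReal_mul ht0.le]
    _ ≤ ENNReal.ofReal St * (ENNReal.ofReal (1 - t) * I0 + ENNReal.ofReal t * I1) := by
        gcongr
    _ ≤ ENNReal.ofReal St *
          ∫⁻ θ in Ioo (0 : ℝ) 1, volume {s | ENNReal.ofReal (θ * St) < g (xt, s)} := by
        gcongr
    _ = ∫⁻ s, min (g (xt, s)) (ENNReal.ofReal St) := (layer (hmeas xt) hStpos).symm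
    _ ≤ ∫⁻ s, g (xt, s) := lintegral_mono fun s => min_le_left _ _

universe u v

theorem Cv.marginal (k : ℕ) : ∀ {F : Type u} [NormedAddCommGroup F] [InnerProductSpace ℝ F]
    [FiniteDimensional ℝ F] [MeasurableSpace F] [BorelSpace F], finrank ℝ F = k →
    ∀ {X : Type (max u v)} [AddCommGroup X] [Module ℝ X] {b : ℕ} {g : X × F → ℝ≥0∞},
    Cv (b + k) g → (∀ x, Measurable fun w => g (x, w)) → Cv b (fun x => ∫⁻ w, g (x, w)) := by
  induction k with
  | zero =>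
    intro F _ _ _ _ _ hF X _ _ b g hg _
    have : Subsingleton F := finrank_zero_iff.1 hF
    have huniv : (volume : Measure F) univ = 1 := by
      rw [← (stdOrthonormalBasis ℝ F).volume_parallelepiped]
      congr 1
      symm
      apply Subsingleton.eq_univ_of_nonempty
      exact ⟨0, (mem_parallelepiped_iff _ _).2 ⟨0, by simp, by simp⟩⟩
    have e : ∀ x, ∫⁻ w, g (x, w) = g (x, 0) := by
      intro x
      have : (fun w => g (x, w)) = fun _ => g (x, 0) := by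
        ext w; rw [Subsingleton.elim w 0]
      rw [this, lintegral_const, huniv, mul_one]
    intro x0 x1 t ht0 ht1 α0 α1 hα0 hα1 h0 h1
    simp only [e] at h0 h1 ⊢
    have := hg (x0, 0) (x1, 0) t ht0 ht1 α0 α1 hα0 hα1 h0 h1
    simpa using this
  | succ k ih =>
    intro F _ _ _ _ _ hF X _ _ b g hg hmeas
    have : Nontrivial F := by
      rw [← finrank_pos_iff (R := ℝ)]; omega
    obtain ⟨u, hu⟩ := exists_norm_eq F (zero_le_one' ℝ)
    obtain ⟨C, -⟩ := exists_chart u hu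
    have hk : finrank ℝ (ℝ ∙ u)ᗮ = k := by have := finrank_orth u hu; omega
    let g' : (X × (ℝ ∙ u)ᗮ) × ℝ → ℝ≥0∞ := fun z => g (z.1.1, C.Ψ (z.1.2, z.2))
    have hg' : Cv (b + k + 1) g' := by
      intro z0 z1 t ht0 ht1 α0 α1 hα0 hα1 h0 h1
      have := hg (z0.1.1, C.Ψ (z0.1.2, z0.2)) (z1.1.1, C.Ψ (z1.1.2, z1.2)) t ht0 ht1 α0 α1
        hα0 hα1 h0 h1
      refine this.trans (le_of_eq ?_)
      simp only [g']
      congr 1
      ext
      · simp
      · simp only [Prod.smul_mk, Prod.mk_add_mk, ← map_smul, ← map_add]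
        rfl
    have h2 := ih hk hg'.step (fun x => by
      apply Measurable.lintegral_prod_right' (f := fun z : (ℝ ∙ u)ᗮ × ℝ => g (x, C.Ψ z))
      exact (hmeas x).comp C.Ψ.continuous.measurable)
    have e : (fun x => ∫⁻ w, g (x, w)) = fun x => ∫⁻ y : (ℝ ∙ u)ᗮ, ∫⁻ s, g' ((x, y), s) := by
      ext x
      exact C.lintegral_eq (hmeas x)
    rw [e]
    exact h2

end Pool.Agent.Lib.MP_5ac201_gt
end

-- part Pool.Agent.Lib.MP_5ac201_gt.Busemann
section

/-!
The intersection body of a norm ball is a norm ball.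
-/

set_option linter.unusedSectionVars false

namespace Pool.Agent.Lib.MP_5ac201_gt

open MeasureTheory Set Module Filter
open scoped ENNReal RealInnerProductSpace Pointwise Topology

variable {E : Type} [NormedAddCommGroup E] [InnerProductSpace ℝ E]
  [FiniteDimensional ℝ E] [MeasurableSpace E] [BorelSpace E]
variable {F : Type} [NormedAddCommGroup F] [InnerProductSpace ℝ F]
  [FiniteDimensional ℝ F] [MeasurableSpace F] [BorelSpace F]

lemma Cv.le {X : Type*} [AddCommGroup X] [Module ℝ X] {a : ℕ} (ha : a ≠ 0) {g : X → ℝ≥0∞}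
    (hg : Cv a g) (x0 x1 : X) {t : ℝ} (ht0 : 0 < t) (ht1 : t < 1) {α0 α1 : ℝ} (h0 : 0 < α0)
    (h1 : 0 < α1) (hx0 : ENNReal.ofReal ((α0 ^ a)⁻¹) ≤ g x0)
    (hx1 : ENNReal.ofReal ((α1 ^ a)⁻¹) ≤ g x1) :
    ENNReal.ofReal ((((1 - t) * α0 + t * α1) ^ a)⁻¹) ≤ g ((1 - t) • x0 + t • x1) := by
  have ht' : 0 < 1 - t := by linarith
  have hpos : 0 < (1 - t) * α0 + t * α1 := by positivity
  have hlim : Tendsto (fun κ : ℝ => ENNReal.ofReal (((κ * ((1 - t) * α0 + t * α1)) ^ a)⁻¹))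
      (𝓝[>] 1) (𝓝 (ENNReal.ofReal (((1 * ((1 - t) * α0 + t * α1)) ^ a)⁻¹))) := by
    apply Tendsto.mono_left _ nhdsWithin_le_nhds
    apply ENNReal.continuous_ofReal.continuousAt.tendsto.comp
    apply ContinuousAt.tendsto (f := fun κ : ℝ => ((κ * ((1 - t) * α0 + t * α1)) ^ a)⁻¹)
    exact ContinuousAt.inv₀ (by fun_prop) (by positivity)
  rw [one_mul] at hlim
  refine le_of_tendsto hlim ?_
  filter_upwards [self_mem_nhdsWithin] with κ hκ
  have hκ1 : 1 < κ := hκ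
  have key : ∀ α : ℝ, 0 < α →
      ENNReal.ofReal (((κ * α) ^ a)⁻¹) < ENNReal.ofReal ((α ^ a)⁻¹) := by
    intro α hα
    rw [ENNReal.ofReal_lt_ofReal_iff (by positivity)]
    apply inv_strictAnti₀ (by positivity)
    exact pow_lt_pow_left₀ (by nlinarith) hα.le ha
  have := hg x0 x1 t ht0 ht1 (κ * α0) (κ * α1) (by positivity) (by positivity)
    ((key _ h0).trans_le hx0) ((key _ h1).trans_le hx1)
  rwa [show (1 - t) * (κ * α0) + t * (κ * α1) = κ * ((1 - t) * α0 + t * α1) by ring] at this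

lemma Cv.of_convex {X : Type*} [AddCommGroup X] [Module ℝ X] (a : ℕ) {ν : X → ℝ}
    (hpos : ∀ x, 0 < ν x) (hν : ∀ (x0 x1 : X) (t : ℝ), 0 < t → t < 1 →
      ν ((1 - t) • x0 + t • x1) ≤ (1 - t) * ν x0 + t * ν x1) :
    Cv a (fun x => ENNReal.ofReal ((ν x ^ a)⁻¹)) := by
  intro x0 x1 t ht0 ht1 α0 α1 h0 h1 hx0 hx1
  have ht' : 0 < 1 - t := by linarith
  have key : ∀ (α : ℝ) (x : X), 0 < α →
      ENNReal.ofReal ((α ^ a)⁻¹) < ENNReal.ofReal ((ν x ^ a)⁻¹) → ν x ≤ α := by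
    intro α x hα h
    have hx := hpos x
    rw [ENNReal.ofReal_lt_ofReal_iff (by positivity), inv_lt_inv₀ (by positivity)
      (by positivity)] at h
    exact (lt_of_pow_lt_pow_left₀ a hα.le h).le
  have e0 := key _ _ h0 hx0
  have e1 := key _ _ h1 hx1
  apply ENNReal.ofReal_le_ofReal
  have := hpos ((1 - t) • x0 + t • x1)
  apply inv_anti₀ (by positivity)
  apply pow_le_pow_left₀ this.le
  refine (hν x0 x1 t ht0 ht1).trans ?_
  gcongr

open Classical in
/-- The norm whose ball is the intersection body of the ball of `p`. -/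
noncomputable def Ip (p : E → ℝ) (v : E) : ℝ := if v = 0 then 0 else (R (ob p 1) v).toReal⁻¹

lemma Ip_of_ne {p : E → ℝ} {v : E} (hv : v ≠ 0) : Ip p v = (R (ob p 1) v).toReal⁻¹ := if_neg hv

lemma Ip_zero (p : E → ℝ) : Ip p 0 = 0 := if_pos rfl

lemma IsNorm.Ip_pos {p : E → ℝ} (hp : IsNorm p) {v : E} (hv : v ≠ 0) : 0 < Ip p v := by
  rw [Ip_of_ne hv]
  exact inv_pos.2 (ENNReal.toReal_pos (hp.R_ob_ne_zero one_pos hv) (hp.R_ob_ne_top 1 v))

lemma IsNorm.ofReal_inv_Ip {p : E → ℝ} (hp : IsNorm p) {v : E} (hv : v ≠ 0) :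
    ENNReal.ofReal (Ip p v)⁻¹ = R (ob p 1) v := by
  rw [Ip_of_ne hv, inv_inv, ENNReal.ofReal_toReal (hp.R_ob_ne_top 1 v)]

lemma IsNorm.Ip_smul {p : E → ℝ} (hp : IsNorm p) (c : ℝ) (v : E) :
    Ip p (c • v) = |c| * Ip p v := by
  rcases eq_or_ne v 0 with rfl | hv
  · simp [Ip_zero]
  rcases eq_or_ne c 0 with rfl | hc
  · simp [Ip_zero]
  rw [Ip_of_ne hv, Ip_of_ne (smul_ne_zero hc hv), R_smul_right (hp.measurableSet_ob 1) hv hc,
    ENNReal.toReal_mul, ENNReal.toReal_ofReal (by positivity), mul_inv, inv_inv]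

lemma Chart.isNorm_sec (C : Chart F E) {p : E → ℝ} (hp : IsNorm p) (w : F) :
    IsNorm (fun y : F => p (C.Ψ (y, -⟪y, w⟫))) where
  add_le x y := by
    refine le_trans (le_of_eq ?_) (hp.add_le _ _)
    rw [← map_add, inner_add_left, Prod.mk_add_mk, neg_add]
  smul c x := by
    rw [← hp.smul, ← map_smul, inner_smul_left]
    simp
  pos x hx := by
    apply hp.pos
    rw [Ne, C.Ψ.map_eq_zero_iff]
    simp [hx]

lemma Chart.R_eq_one (C : Chart F E) {A : Set E} (hA : MeasurableSet A) (w : F) :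
    R A (C.Ψ (w, 1)) = volume {y : F | C.Ψ (y, -⟪y, w⟫) ∈ A} := by
  rw [C.R_eq hA w one_ne_zero]
  simp

lemma Chart.Ip_convex (C : Chart F E) {p : E → ℝ} (hp : IsNorm p) (w0 w1 : F) {t : ℝ}
    (ht0 : 0 < t) (ht1 : t < 1) : Ip p (C.Ψ ((1 - t) • w0 + t • w1, 1)) ≤
      (1 - t) * Ip p (C.Ψ (w0, 1)) + t * Ip p (C.Ψ (w1, 1)) := by
  rcases eq_or_ne (w1 - w0) 0 with he | he
  · rw [sub_eq_zero] at he
    rw [he, ← add_smul, ← add_mul]
    simp
  set e := w1 - w0 with hedef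
  have hne : 0 < ‖e‖ := norm_pos_iff.2 he
  have hu : ‖‖e‖⁻¹ • e‖ = 1 := by simp [norm_smul, hne.ne']
  set u := ‖e‖⁻¹ • e with hudef
  obtain ⟨D, hD⟩ := exists_chart u hu
  set k := finrank ℝ (ℝ ∙ u)ᗮ with hk
  let ν : ℝ × (ℝ ∙ u)ᗮ → ℝ := fun z =>
    p (C.Ψ (D.Ψ (z.2, 1), -⟪D.Ψ (z.2, 1), w0⟫ - z.1 * ‖e‖))
  have hν : ∀ (τ : ℝ) (g : (ℝ ∙ u)ᗮ),
      ν (τ, g) = p (C.Ψ (D.Ψ (g, 1), -⟪D.Ψ (g, 1), w0 + τ • e⟫)) := by
    intro τ g
    have h1 : e = D.Ψ (0, ‖e‖) := by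
      rw [hD, hudef, smul_smul, mul_inv_cancel₀ hne.ne']
      simp
    have h2 : ⟪D.Ψ (g, 1), e⟫ = ‖e‖ := by
      conv_lhs => rw [h1]
      rw [D.inner_eq]
      simp
    rw [inner_add_right, inner_smul_right, h2, neg_add']
  have hνpos : ∀ z, 0 < ν z := by
    intro z
    apply hp.pos
    rw [Ne, C.Ψ.map_eq_zero_iff]
    simp [D.ne_zero]
  have hcv : Cv (1 + k) (fun z => ENNReal.ofReal ((ν z ^ (1 + k))⁻¹)) := by
    apply Cv.of_convex _ hνpos
    intro z0 z1 s hs0 hs1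
    refine le_trans (le_of_eq ?_) (hp.convex_le _ _ (by linarith) hs0.le)
    have h3 : D.Ψ (((1 - s) • z0 + s • z1).2, 1) =
        (1 - s) • D.Ψ (z0.2, 1) + s • D.Ψ (z1.2, 1) := by
      rw [← map_smul, ← map_smul, ← map_add]
      congr 1
      ext
      · simp
      · simp
    simp only [ν]
    rw [h3, ← map_smul C.Ψ, ← map_smul C.Ψ, ← map_add]
    congr 2
    ext
    · simp
    · simp [inner_add_left, inner_smul_left]
      ring
  have hmarg := Cv.marginal.{0, 0} k hk.symm hcv (fun τ => by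
    have hc : Continuous fun g : (ℝ ∙ u)ᗮ => ν (τ, g) := by
      have h1 : Continuous fun g : (ℝ ∙ u)ᗮ => D.Ψ (g, 1) :=
        D.Ψ.continuous.comp (continuous_id.prodMk continuous_const)
      exact hp.continuous.comp (C.Ψ.continuous.comp (h1.prodMk
        (((h1.inner continuous_const).neg).sub (continuous_const (y := τ * ‖e‖)))))
    exact ENNReal.measurable_ofReal.comp (hc.measurable.pow_const _).inv)
  set c : ℝ := 2 / (k + 1) with hc
  have hcpos : 0 < c := by positivity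
  have hH : ∀ τ : ℝ, ∫⁻ g, ENNReal.ofReal ((ν (τ, g) ^ (1 + k))⁻¹) =
      ENNReal.ofReal (((c * Ip p (C.Ψ (w0 + τ • e, 1))) ^ 1)⁻¹) := by
    intro τ
    have h1 := D.volume_ob (C.isNorm_sec hp (w0 + τ • e))
    have h2 := C.R_eq_one (hp.measurableSet_ob 1) (w0 + τ • e)
    have h3 := hp.ofReal_inv_Ip (C.ne_zero (w0 + τ • e))
    have h4 : ENNReal.ofReal (Ip p (C.Ψ (w0 + τ • e, 1)))⁻¹ =
        ENNReal.ofReal c * ∫⁻ g, ENNReal.ofReal ((ν (τ, g) ^ (1 + k))⁻¹) := by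
      rw [h3, h2]
      refine h1.trans ?_
      simp_rw [hν, add_comm 1 k]
      rfl
    rw [pow_one, mul_inv, ENNReal.ofReal_mul (by positivity), h4, ← mul_assoc,
      ← ENNReal.ofReal_mul (by positivity), inv_mul_cancel₀ hcpos.ne']
    simp
  have hN := fun τ : ℝ => hp.Ip_pos (C.ne_zero (w0 + τ • e))
  have := hmarg.le one_ne_zero 0 1 ht0 ht1 (mul_pos hcpos (hN 0)) (mul_pos hcpos (hN 1))
    (hH 0).ge (hH 1).ge
  simp only [hH] at this
  have ht' : 0 < 1 - t := by linarith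
  have hN0 := hN 0
  have hN1 := hN 1
  have hNt := hN ((1 - t) • (0 : ℝ) + t • (1 : ℝ))
  rw [ENNReal.ofReal_le_ofReal_iff (by positivity), pow_one, pow_one,
    inv_le_inv₀ (by positivity) (by positivity)] at this
  have e0 : w0 + (0 : ℝ) • e = w0 := by simp
  have e1 : w0 + (1 : ℝ) • e = w1 := by simp [hedef]
  have et : w0 + ((1 - t) • (0 : ℝ) + t • (1 : ℝ)) • e = (1 - t) • w0 + t • w1 := by
    simp only [hedef, smul_eq_mul]
    module
  rw [e0, e1, et] at this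
  apply le_of_mul_le_mul_left _ hcpos
  linarith

/-- Busemann's theorem. -/
theorem IsNorm.Ip {p : E → ℝ} (hp : IsNorm p) : IsNorm (Ip p) where
  smul := hp.Ip_smul
  pos _ := hp.Ip_pos
  add_le v1 v2 := by
    rcases eq_or_ne v1 0 with rfl | h1
    · simp [Ip_zero]
    rcases eq_or_ne v2 0 with rfl | h2
    · simp [Ip_zero]
    have n1 : 0 < ‖v1‖ := norm_pos_iff.2 h1
    have n2 : 0 < ‖v2‖ := norm_pos_iff.2 h2
    rcases eq_or_ne (‖v2‖ • v1 + ‖v1‖ • v2) 0 with h0 | h0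
    · have e2 : v2 = (-(‖v2‖ / ‖v1‖)) • v1 := by
        have : ‖v1‖ • v2 = -(‖v2‖ • v1) := by
          rw [eq_neg_iff_add_eq_zero, add_comm]; exact h0
        calc v2 = ‖v1‖⁻¹ • (‖v1‖ • v2) := by rw [smul_smul, inv_mul_cancel₀ n1.ne', one_smul]
          _ = _ := by rw [this, smul_neg, smul_smul, neg_smul, div_eq_inv_mul]
      set c := ‖v2‖ / ‖v1‖ with hc
      have hc0 : 0 < c := by positivity
      have e3 : v1 + (-c) • v1 = (1 - c) • v1 := by module
      rw [e2, e3, hp.Ip_smul, hp.Ip_smul, abs_neg, abs_of_pos hc0]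
      have := hp.Ip_pos h1
      have h4 : |1 - c| ≤ 1 + c := by rw [abs_le]; constructor <;> linarith
      nlinarith
    set u0 := ‖v2‖ • v1 + ‖v1‖ • v2 with hu0
    have nu : 0 < ‖u0‖ := norm_pos_iff.2 h0
    have i1 : ⟪v1, u0⟫ = ‖v1‖ * (‖v1‖ * ‖v2‖ + ⟪v1, v2⟫) := by
      rw [hu0, inner_add_right, inner_smul_right, inner_smul_right, real_inner_self_eq_norm_sq]
      ring
    have i2 : ⟪v2, u0⟫ = ‖v2‖ * (‖v1‖ * ‖v2‖ + ⟪v1, v2⟫) := by
      rw [hu0, inner_add_right, inner_smul_right, inner_smul_right, real_inner_self_eq_norm_sq,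
        real_inner_comm v1 v2]
      ring
    have hκ : 0 < ‖v1‖ * ‖v2‖ + ⟪v1, v2⟫ := by
      have h5 : ⟪u0, u0⟫ = 2 * (‖v1‖ * ‖v2‖) * (‖v1‖ * ‖v2‖ + ⟪v1, v2⟫) := by
        conv_lhs => rw [hu0, inner_add_left, inner_smul_left, inner_smul_left, ← hu0, i1, i2]
        simp only [conj_trivial]
        ring
      have h6 : 0 < ⟪u0, u0⟫ := by rw [real_inner_self_eq_norm_sq]; positivity
      rw [h5] at h6
      exact (mul_pos_iff_of_pos_left (by positivity)).1 h6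
    have hu : ‖‖u0‖⁻¹ • u0‖ = 1 := by simp [norm_smul, nu.ne']
    obtain ⟨C, hC⟩ := exists_chart _ hu
    have hrep : ∀ v : E, 0 < ⟪v, u0⟫ → ∃ (r : ℝ) (w : (ℝ ∙ (‖u0‖⁻¹ • u0))ᗮ), 0 < r ∧
        v = r • C.Ψ (w, 1) := by
      intro v hv
      obtain ⟨⟨y, r⟩, rfl⟩ := C.Ψ.surjective v
      have hr : 0 < r := by
        have h7 : C.Ψ (0, 1) = ‖u0‖⁻¹ • u0 := by rw [hC]; simp
        have h8 := C.inner_eq (y, r) (0, 1)
        rw [h7, inner_smul_right] at h8
        simp only [inner_zero_right, mul_one, zero_add] at h8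
        rw [← h8]
        positivity
      refine ⟨r, r⁻¹ • y, hr, ?_⟩
      rw [← map_smul]
      simp [smul_smul, hr.ne']
    obtain ⟨r1, w1, hr1, e1⟩ := hrep v1 (by rw [i1]; positivity)
    obtain ⟨r2, w2, hr2, e2⟩ := hrep v2 (by rw [i2]; positivity)
    have hs : 0 < r1 + r2 := by positivity
    have e3 : v1 + v2 = (r1 + r2) •
        C.Ψ ((1 - r2 / (r1 + r2)) • w1 + (r2 / (r1 + r2)) • w2, 1) := by
      rw [e1, e2, ← map_smul, ← map_smul, ← map_smul, ← map_add]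
      congr 1
      have f1 : (r1 + r2) * (1 - r2 / (r1 + r2)) = r1 := by field_simp; ring
      have f2 : (r1 + r2) * (r2 / (r1 + r2)) = r2 := by field_simp
      simp only [Prod.smul_mk, Prod.mk_add_mk, smul_add, smul_smul, f1, f2, smul_eq_mul, mul_one]
    have := C.Ip_convex hp w1 w2 (t := r2 / (r1 + r2)) (by positivity)
      (by rw [div_lt_one hs]; linarith)
    rw [e3, hp.Ip_smul, abs_of_pos hs]
    conv_rhs => rw [e1, e2, hp.Ip_smul, hp.Ip_smul, abs_of_pos hr1, abs_of_pos hr2]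
    refine (mul_le_mul_of_nonneg_left this hs.le).trans (le_of_eq ?_)
    field_simp
    ring

lemma IsNorm.comp {p : E → ℝ} (hp : IsNorm p) (T : E ≃L[ℝ] E) : IsNorm (fun x => p (T x)) where
  add_le x y := by rw [map_add]; exact hp.add_le _ _
  smul c x := by rw [map_smul]; exact hp.smul _ _
  pos x hx := hp.pos _ (by rwa [Ne, T.map_eq_zero_iff])

lemma ob_comp (p : E → ℝ) (T : E ≃L[ℝ] E) (s : ℝ) :
    ob (fun x => p (T x)) s = T.symm '' ob p s := by
  rw [T.image_symm_eq_preimage]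
  rfl

lemma det_adjoint (T : E →L[ℝ] E) :
    LinearMap.det ((ContinuousLinearMap.adjoint T : E →L[ℝ] E) : E →ₗ[ℝ] E) =
      LinearMap.det (T : E →ₗ[ℝ] E) := by
  let b := stdOrthonormalBasis ℝ E
  have h := LinearMap.toMatrix_adjoint b b (T : E →ₗ[ℝ] E)
  rw [← LinearMap.det_toMatrix b.toBasis (T : E →ₗ[ℝ] E), ← Matrix.det_transpose,
    ← Matrix.conjTranspose_eq_transpose_of_trivial, ← h, LinearMap.det_toMatrix]
  rfl

lemma det_ne_zero (T : E ≃L[ℝ] E) : LinearMap.det (T : E →ₗ[ℝ] E) ≠ 0 :=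
  (LinearEquiv.isUnit_det' T.toLinearEquiv).ne_zero

lemma det_symm (T : E ≃L[ℝ] E) :
    LinearMap.det (T.symm : E →ₗ[ℝ] E) = (LinearMap.det (T : E →ₗ[ℝ] E))⁻¹ :=
  LinearEquiv.det_coe_symm T.toLinearEquiv

lemma IsNorm.Ip_comp {p : E → ℝ} (hp : IsNorm p) (hE : finrank ℝ E ≠ 0) (T : E ≃L[ℝ] E) :
    ∃ S : E ≃L[ℝ] E, (∀ v, MP_5ac201_gt.Ip (fun x => p (T x)) v = MP_5ac201_gt.Ip p (S v)) ∧
      |LinearMap.det (S : E →ₗ[ℝ] E)| = |LinearMap.det (T : E →ₗ[ℝ] E)| ^ (finrank ℝ E - 1) := by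
  set d := LinearMap.det (T : E →ₗ[ℝ] E) with hd
  have hd0 : 0 < |d| := abs_pos.2 (det_ne_zero T)
  let A : E →L[ℝ] E := ContinuousLinearMap.adjoint (T.symm : E →L[ℝ] E)
  have hA : LinearMap.det (A : E →ₗ[ℝ] E) = d⁻¹ := by
    rw [det_adjoint]
    exact det_symm T
  let S0 : E →ₗ[ℝ] E := |d| • (A : E →ₗ[ℝ] E)
  have hS0 : |LinearMap.det S0| = |d| ^ (finrank ℝ E - 1) := by
    obtain ⟨k, hk⟩ := Nat.exists_eq_add_one_of_ne_zero hE
    rw [LinearMap.det_smul, hA, abs_mul, abs_pow, abs_abs, abs_inv, hk, pow_succ]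
    simp [hd0.ne']
  have hS1 : LinearMap.det S0 ≠ 0 := by
    rw [← abs_pos, hS0]; positivity
  refine ⟨(S0.equivOfDetNeZero hS1).toContinuousLinearEquiv, fun v => ?_, hS0⟩
  change _ = MP_5ac201_gt.Ip p (|d| • A v)
  rcases eq_or_ne v 0 with rfl | hv
  · simp [Ip_zero]
  have hAv : A v ≠ 0 := by
    intro h
    have : (S0.equivOfDetNeZero hS1) v = 0 := by
      change |d| • A v = 0
      rw [h, smul_zero]
    exact hv ((S0.equivOfDetNeZero hS1).map_eq_zero_iff.1 this)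
  rw [hp.Ip_smul, Ip_of_ne hv, Ip_of_ne hAv, ob_comp, R_image (hp.measurableSet_ob 1) _ hv,
    det_symm, ENNReal.toReal_mul, ENNReal.toReal_ofReal (abs_nonneg _), mul_inv, abs_inv, inv_inv,
    abs_abs]

lemma IsNorm.volume_comp {p : E → ℝ} (T : E ≃L[ℝ] E) :
    volume (ob (fun x => p (T x)) 1) =
      ENNReal.ofReal |LinearMap.det (T : E →ₗ[ℝ] E)|⁻¹ * volume (ob p 1) := by
  rw [ob_comp, Measure.addHaar_image_continuousLinearEquiv, det_symm, abs_inv]

lemma ob_subset {p q : E → ℝ} {l : ℝ} (hl : 0 < l) (h : ∀ x, p x ≤ l * q x) :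
    ob q 1 ⊆ ob p l := fun x hx => (h x).trans_lt (mul_lt_of_lt_one_right hl hx)

lemma IsNorm.Ip_le {p q : E → ℝ} (hp : IsNorm p) (hq : IsNorm q) {l : ℝ} (hl : 0 < l)
    (h : ∀ x, p x ≤ l * q x) (v : E) :
    MP_5ac201_gt.Ip p v ≤ l ^ (finrank ℝ E - 1) * MP_5ac201_gt.Ip q v := by
  rcases eq_or_ne v 0 with rfl | hv
  · simp [Ip_zero]
  have h1 := R_mono (ob_subset hl h) v
  rw [hp.R_ob hl hv, ← hp.ofReal_inv_Ip hv, ← hq.ofReal_inv_Ip hv,
    ← ENNReal.ofReal_mul (by positivity)] at h1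
  have a1 := hp.Ip_pos hv
  have a2 := hq.Ip_pos hv
  rw [ENNReal.ofReal_le_ofReal_iff (by positivity), ← div_eq_mul_inv, le_div_iff₀ a1,
    inv_mul_le_iff₀ a2] at h1
  rwa [mul_comm]

end Pool.Agent.Lib.MP_5ac201_gt
end
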