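import Pool.Agent.Lib.MP_5ac201_gt.Busemann

/-!
Compactness of the set of norms modulo linear maps.
-/

set_option linter.unusedSectionVars false

namespace Pool.Agent.Lib.MP_5ac201_gt

open MeasureTheory Set Module Filter
open scoped ENNReal RealInnerProductSpace Pointwise Topology

variable {E : Type} [NormedAddCommGroup E] [InnerProductSpace ℝ E]
  [FiniteDimensional ℝ E] [MeasurableSpace E] [BorelSpace E]

lemma IsNorm.sum_le {p : E → ℝ} (hp : IsNorm p) {ι : Type*} (s : Finset ι) (f : ι → E) :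
    p (∑ i ∈ s, f i) ≤ ∑ i ∈ s, p (f i) :=
  Finset.le_sum_of_subadditive p hp.zero.le hp.add_le s f

lemma IsNorm.auerbach {p : E → ℝ} (hp : IsNorm p) : ∃ T : E ≃L[ℝ] E,
    ∀ y, ‖y‖ ≤ finrank ℝ E * p (T y) ∧ p (T y) ≤ finrank ℝ E * ‖y‖ := by
  classical
  let e := stdOrthonormalBasis ℝ E
  let K : Set E := {x | p x ≤ 1}
  have hK : IsCompact K := Metric.isCompact_of_isClosed_isBounded
    (isClosed_le hp.continuous continuous_const)
    ((hp.isBounded_ob 2).subset fun x hx =>
      show p x < 2 from lt_of_le_of_lt (show p x ≤ 1 from hx) one_lt_two)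
  have hdet : Continuous fun x : Fin (finrank ℝ E) → E => |e.toBasis.det x| := by
    apply Continuous.abs
    have : ⇑e.toBasis.det =
        fun x => (e.toBasis.toMatrix x).det := funext fun x => e.toBasis.det_apply x
    rw [this]
    apply Continuous.matrix_det
    refine continuous_pi fun i => continuous_pi fun j => ?_
    exact (e.toBasis.coord i).continuous_of_finiteDimensional.comp (continuous_apply j)
  obtain ⟨C, hC0, hC⟩ := hp.exists_upper
  have hmem : (fun i => C⁻¹ • e i) ∈ univ.pi fun _ : Fin (finrank ℝ E) => K := by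
    intro i _
    change p (C⁻¹ • e i) ≤ 1
    rw [hp.smul_of_nonneg (by positivity), inv_mul_le_iff₀ hC0]
    simpa [e.orthonormal.1 i] using hC (e i)
  obtain ⟨x, hx, hmax⟩ := (isCompact_univ_pi fun _ => hK).exists_isMaxOn ⟨_, hmem⟩
    hdet.continuousOn
  have hpos : 0 < |e.toBasis.det x| := by
    refine lt_of_lt_of_le ?_ (hmax hmem)
    have := e.toBasis.det.map_smul_univ (fun _ => C⁻¹) e.toBasis
    rw [Basis.det_self] at this
    simp only [OrthonormalBasis.coe_toBasis] at this
    simp only [this]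
    simp [hC0.ne']
  obtain ⟨hli, hsp⟩ := (e.toBasis.is_basis_iff_det (v := x)).2
    (isUnit_iff_ne_zero.2 (abs_pos.1 hpos))
  let b := Basis.mk hli hsp.ge
  have hb : ∀ i, b i = x i := fun i => Basis.mk_apply hli hsp.ge i
  have hcoord : ∀ y, p y ≤ 1 → ∀ i, |b.coord i y| ≤ 1 := by
    intro y hy i
    have h1 := LinearMap.congr_fun (e.toBasis.det_smul_mk_coord_eq_det_update hli hsp.ge i) y
    have h2 : Function.update x i y ∈ univ.pi fun _ : Fin (finrank ℝ E) => K := by
      intro j _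
      rcases eq_or_ne j i with rfl | hj
      · rwa [Function.update_self]
      · rw [Function.update_of_ne hj]
        exact hx j trivial
    have h3 : |e.toBasis.det (Function.update x i y)| ≤ |e.toBasis.det x| := hmax h2
    have h4 : e.toBasis.det x * b.coord i y = e.toBasis.det (Function.update x i y) := h1
    rw [← h4, abs_mul] at h3
    exact (mul_le_iff_le_one_right hpos).1 h3
  have hcoord' : ∀ y i, |b.coord i y| ≤ p y := by
    intro y i
    rcases eq_or_ne y 0 with rfl | hy
    · simp [hp.zero]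
    have h0 := hp.pos y hy
    have := hcoord ((p y)⁻¹ • y)
      (by rw [hp.smul_of_nonneg (by positivity), inv_mul_cancel₀ h0.ne']) i
    rwa [map_smul, smul_eq_mul, abs_mul, abs_of_pos (inv_pos.2 h0), inv_mul_le_iff₀ h0,
      mul_one] at this
  let T := e.toBasis.equiv b (Equiv.refl _)
  have hT : ∀ y, T y = ∑ i, e.repr y i • x i := by
    intro y
    conv_lhs => rw [← e.sum_repr y]
    rw [map_sum]
    refine Finset.sum_congr rfl fun i _ => ?_
    rw [map_smul, ← hb]
    congr 1
    exact e.toBasis.equiv_apply i b (Equiv.refl _)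
  refine ⟨T.toContinuousLinearEquiv, fun y => ⟨?_, ?_⟩⟩
  · change ‖y‖ ≤ _ * p (T y)
    have h1 : ∀ i, |e.repr y i| ≤ p (T y) := by
      intro i
      have := hcoord' (T y) i
      have e1 : b.coord i (T y) = e.repr y i := by
        rw [hT]
        simp only [← hb]
        simp [Finsupp.single_apply]
      rwa [e1] at this
    calc ‖y‖ = ‖∑ i, e.repr y i • e i‖ := by rw [e.sum_repr]
      _ ≤ ∑ i, ‖e.repr y i • e i‖ := norm_sum_le _ _
      _ ≤ ∑ _i : Fin (finrank ℝ E), p (T y) := by
        refine Finset.sum_le_sum fun i _ => ?_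
        rw [norm_smul, e.orthonormal.1 i, mul_one]
        exact h1 i
      _ = _ := by simp
  · change p (T y) ≤ _
    rw [hT]
    calc _ ≤ ∑ i, p (e.repr y i • x i) := hp.sum_le _ _
      _ ≤ ∑ _i : Fin (finrank ℝ E), ‖y‖ := by
        refine Finset.sum_le_sum fun i _ => ?_
        rw [hp.smul]
        have h1 : p (x i) ≤ 1 := hx i trivial
        have h2 : |e.repr y i| ≤ ‖y‖ := by
          rw [← e.repr.norm_map y]
          exact PiLp.norm_apply_le (e.repr y) i
        exact (mul_le_of_le_one_right (abs_nonneg _) h1).trans h2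
      _ = _ := by simp

lemma exists_limit {P : ℕ → E → ℝ} (hP : ∀ k, IsNorm (P k)) {N : ℝ} (hN : 0 < N)
    (h1 : ∀ k y, ‖y‖ ≤ N * P k y ∧ P k y ≤ N * ‖y‖) (U : Ultrafilter ℕ) :
    ∃ q : E → ℝ, IsNorm q ∧ ∀ l : ℝ, 1 < l →
      ∀ᶠ k in (U : Filter ℕ), ∀ y, P k y ≤ l * q y ∧ q y ≤ l * P k y := by
  have hex : ∀ y, ∃ r, Tendsto (fun k => P k y) U (𝓝 r) := by
    intro y
    obtain ⟨r, -, hr⟩ := (isCompact_Icc (a := 0) (b := N * ‖y‖)).ultrafilter_le_nhds
      (U.map fun k => P k y) (by
        rw [Ultrafilter.coe_map, le_principal_iff, mem_map]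
        exact Eventually.of_forall fun k => ⟨(hP k).nonneg y, (h1 k y).2⟩)
    exact ⟨r, hr⟩
  choose q hq using hex
  have hlow : ∀ y, ‖y‖ ≤ N * q y := fun y =>
    ge_of_tendsto' ((hq y).const_mul N) fun k => (h1 k y).1
  have hup : ∀ y, q y ≤ N * ‖y‖ := fun y => le_of_tendsto' (hq y) fun k => (h1 k y).2
  have hqn : IsNorm q := by
    refine ⟨fun x y => ?_, fun c x => ?_, fun x hx => ?_⟩
    · exact le_of_tendsto_of_tendsto' (hq _) ((hq x).add (hq y)) fun k => (hP k).add_le x y
    · refine tendsto_nhds_unique (hq _) ?_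
      simp only [(hP _).smul]
      exact (hq x).const_mul _
    · exact (mul_pos_iff_of_pos_left hN).1 ((norm_pos_iff.2 hx).trans_le (hlow x))
  refine ⟨q, hqn, fun l hl => ?_⟩
  set ε := (l - 1) / (N * (2 * N + 1)) with hε
  have hε0 : 0 < ε := div_pos (by linarith) (by positivity)
  obtain ⟨t, -, ht, hcov⟩ := (isCompact_sphere (0 : E) 1).finite_cover_balls hε0
  have hev : ∀ᶠ k in (U : Filter ℕ), ∀ x ∈ t, dist (P k x) (q x) < ε :=
    (eventually_all_finite ht).2 fun x _ => Metric.tendsto_nhds.1 (hq x) ε hε0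
  filter_upwards [hev] with k hk y
  rcases eq_or_ne y 0 with rfl | hy
  · simp [(hP k).zero, hqn.zero]
  have hn : 0 < ‖y‖ := norm_pos_iff.2 hy
  set z := ‖y‖⁻¹ • y with hz
  have hz1 : ‖z‖ = 1 := by simp [hz, norm_smul, hn.ne']
  obtain ⟨x, hx, hzx⟩ := mem_iUnion₂.1 (hcov (show z ∈ Metric.sphere (0 : E) 1 by simpa))
  rw [Metric.mem_ball, dist_eq_norm] at hzx
  have hd := abs_lt.1 (hk x hx)
  have lip : ∀ r : E → ℝ, IsNorm r → (∀ y, r y ≤ N * ‖y‖) →
      r z ≤ r x + N * ε ∧ r x ≤ r z + N * ε := by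
    intro r hr hb
    have a1 := hr.add_le x (z - x)
    have a2 := hr.add_le z (-(z - x))
    rw [hr.neg] at a2
    have a3 := hb (z - x)
    have a4 : N * ‖z - x‖ ≤ N * ε := by gcongr
    simp only [add_sub_cancel, neg_sub, add_sub_cancel] at a1 a2
    constructor <;> linarith
  obtain ⟨b1, b2⟩ := lip _ (hP k) fun y => (h1 k y).2
  obtain ⟨b3, b4⟩ := lip _ hqn hup
  have c1 := hlow z
  have c2 := (h1 k z).1
  rw [hz1] at c1 c2
  have hεe : (2 * N + 1) * ε * N = l - 1 := by rw [hε]; field_simp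
  have hδ : 0 < (2 * N + 1) * ε := by positivity
  have d1 : P k z ≤ l * q z := by nlinarith
  have d2 : q z ≤ l * P k z := by nlinarith
  rw [(hP k).eq_norm_mul hy, hqn.eq_norm_mul hy, mul_left_comm, mul_left_comm l]
  constructor <;> gcongr

end Pool.Agent.Lib.MP_5ac201_gt
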