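import Mathlib

namespace Pool.Agent.Lib.MP_5ac201_gt

open scoped Pointwise

/-- The `(n - 1)`-dimensional volume of the central section `K ∩ u^⊥`. -/
noncomputable def sectionVol {n : ℕ} (K : Set (EuclideanSpace ℝ (Fin n)))
    (u : EuclideanSpace ℝ (Fin n)) : ℝ :=
  (MeasureTheory.Measure.euclideanHausdorffMeasure (n - 1) (K ∩ {x | inner ℝ x u = 0})).toReal

/-- The star body whose radial function is `u ↦ vol (K ∩ u^⊥)`. -/
def intersectionBody {n : ℕ} (K : Set (EuclideanSpace ℝ (Fin n))) :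
    Set (EuclideanSpace ℝ (Fin n)) :=
  {x | ∃ u : EuclideanSpace ℝ (Fin n), ‖u‖ = 1 ∧
    ∃ r : ℝ, 0 ≤ r ∧ r ≤ sectionVol K u ∧ x = r • u}

/-- The Banach-Mazur distance. -/
noncomputable def bmDist {n : ℕ} (A B : Set (EuclideanSpace ℝ (Fin n))) : ℝ :=
  sInf {l : ℝ | 1 ≤ l ∧ ∃ T : EuclideanSpace ℝ (Fin n) ≃ₗ[ℝ] EuclideanSpace ℝ (Fin n),
    B ⊆ T '' A ∧ T '' A ⊆ l • B}

end Pool.Agent.Lib.MP_5ac201_gt
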