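import Pool.Agent.Lib.MP_5ac201_gt.Busemann

-- part Pool.Agent.Lib.MP_5ac201_gt.Bathtub
section

/-!
The monotone functional and its stationarity condition.
-/

set_option linter.unusedSectionVars false

namespace Pool.Agent.Lib.MP_5ac201_gt

open MeasureTheory Set Module Filter
open scoped ENNReal RealInnerProductSpace Pointwise Topology

variable {E : Type} [NormedAddCommGroup E] [InnerProductSpace ℝ E]
  [FiniteDimensional ℝ E] [MeasurableSpace E] [BorelSpace E]
variable {F : Type} [NormedAddCommGroup F] [InnerProductSpace ℝ F]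
  [FiniteDimensional ℝ F] [MeasurableSpace F] [BorelSpace F]

/-- The volume of the unit ball. -/
noncomputable def vol (p : E → ℝ) : ℝ := (volume (ob p 1)).toReal

lemma IsNorm.vol_pos {p : E → ℝ} (hp : IsNorm p) : 0 < vol p :=
  ENNReal.toReal_pos (hp.volume_ob_ne_zero one_pos) (hp.volume_ob_ne_top 1)

lemma IsNorm.ofReal_vol {p : E → ℝ} (hp : IsNorm p) : ENNReal.ofReal (vol p) = volume (ob p 1) :=
  ENNReal.ofReal_toReal (hp.volume_ob_ne_top 1)

lemma IsNorm.measurable_inv {N : E → ℝ} (hN : IsNorm N) :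
    Measurable fun x => ENNReal.ofReal (N x)⁻¹ :=
  ENNReal.measurable_ofReal.comp hN.continuous.measurable.inv

lemma Chart.lintegral_inv_ob (C : Chart F E) (hF : finrank ℝ F ≠ 0) {N : E → ℝ} (hN : IsNorm N)
    {s : ℝ} (hs : 0 < s) : ∫⁻ x in ob N s, ENNReal.ofReal (N x)⁻¹ =
      ENNReal.ofReal (s ^ finrank ℝ F * (finrank ℝ F + 1) / finrank ℝ F) * volume (ob N 1) := by
  rw [C.lintegral_ob hF hN hs hN.measurable_inv (fun v r _ _ => by
    rw [hN.smul, mul_inv, ENNReal.ofReal_mul (by positivity)]), C.volume_ob hN, ← mul_assoc,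
    ← ENNReal.ofReal_mul (by positivity)]
  congr 1
  · congr 1
    field_simp
  · apply lintegral_congr
    intro w
    have := hN.pos _ (C.ne_zero w)
    rw [← ENNReal.ofReal_mul (by positivity), pow_succ, mul_inv]

lemma IsNorm.bathtub [Nontrivial E] {N : E → ℝ} (hN : IsNorm N) {s : ℝ} (hs : 0 < s) {A : Set E}
    (hA : MeasurableSet A) (hle : volume A ≤ volume (ob N s)) :
    ∫⁻ x in A, ENNReal.ofReal (N x)⁻¹ ≤ ∫⁻ x in ob N s, ENNReal.ofReal (N x)⁻¹ := by
  have hM := hN.measurableSet_ob s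
  have h1 : ∫⁻ x, (A.indicator (fun x => ENNReal.ofReal (N x)⁻¹) x +
        (ob N s).indicator (fun _ => ENNReal.ofReal s⁻¹) x) ≤
      ∫⁻ x, ((ob N s).indicator (fun x => ENNReal.ofReal (N x)⁻¹) x +
        A.indicator (fun _ => ENNReal.ofReal s⁻¹) x) := by
    apply lintegral_mono_ae
    have h0 : ∀ᵐ x : E, x ≠ 0 := by simp [ae_iff]
    filter_upwards [h0] with x hx
    have hpos := hN.pos x hx
    by_cases h1 : x ∈ A <;> by_cases h2 : x ∈ ob N s
    · simp [h1, h2]
    · simp only [h1, h2, indicator_of_mem, not_false_eq_true, indicator_of_notMem, add_zero,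
        zero_add]
      exact ENNReal.ofReal_le_ofReal (inv_anti₀ hs (not_lt.1 h2))
    · simp only [h1, h2, indicator_of_mem, not_false_eq_true, indicator_of_notMem, add_zero,
        zero_add]
      exact ENNReal.ofReal_le_ofReal (inv_anti₀ hpos (le_of_lt h2))
    · simp [h1, h2]
  rw [lintegral_add_left (hN.measurable_inv.indicator hA),
    lintegral_add_left (hN.measurable_inv.indicator hM), lintegral_indicator hA,
    lintegral_indicator hM, lintegral_indicator hA, lintegral_indicator hM, setLIntegral_const,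
    setLIntegral_const] at h1
  have h2 : ENNReal.ofReal s⁻¹ * volume (ob N s) ≠ ⊤ :=
    ENNReal.mul_ne_top ENNReal.ofReal_ne_top (hN.volume_ob_ne_top s)
  refine (ENNReal.add_le_add_iff_right h2).1 (h1.trans ?_)
  gcongr

lemma Chart.nontrivial (C : Chart F E) : Nontrivial E := ⟨⟨_, _, C.ne_zero 0⟩⟩

lemma IsNorm.setLIntegral_R [Nontrivial E] {q : E → ℝ} (hq : IsNorm q) (A : Set E) :
    ∫⁻ x in A, R (ob q 1) x = ∫⁻ x in A, ENNReal.ofReal (MP_5ac201_gt.Ip q x)⁻¹ := by
  apply lintegral_congr_ae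
  have h0 : ∀ᵐ x : E, x ≠ 0 := by simp [ae_iff]
  filter_upwards [ae_restrict_of_ae h0] with x hx
  exact (hq.ofReal_inv_Ip hx).symm

lemma Chart.key [Nontrivial F] (C : Chart F E) {q : E → ℝ} (hq : IsNorm q) {s : ℝ} (hs : 0 < s)
    {A : Set E} (hA : MeasurableSet A) (hle : volume A ≤ volume (ob (Ip q) s)) :
    ∫⁻ v in ob q 1, R A v ≤
      ENNReal.ofReal (s ^ finrank ℝ F * (finrank ℝ F + 1) / finrank ℝ F) *
        volume (ob (Ip q) 1) := by
  have := C.nontrivial
  rw [C.selfAdjoint hA (hq.measurableSet_ob 1), hq.setLIntegral_R,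
    ← C.lintegral_inv_ob finrank_pos.ne' hq.Ip hs]
  exact hq.Ip.bathtub hs hA hle

lemma Chart.exists_scale (C : Chart F E) {p q : E → ℝ} (hp : IsNorm p) (hq : IsNorm q) :
    ∃ s : ℝ, 0 < s ∧ s ^ (finrank ℝ F + 1) * vol q = vol p ∧ volume (ob p 1) = volume (ob q s) := by
  have h1 := hp.vol_pos
  have h2 := hq.vol_pos
  obtain ⟨α, hα, e⟩ := exists_root (y := vol q / vol p) (by positivity)
    (Nat.succ_ne_zero (finrank ℝ F))
  have e' : α ^ (finrank ℝ F + 1) * vol q = vol p := by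
    rw [inv_eq_iff_eq_inv] at e
    rw [Nat.succ_eq_add_one] at e
    rw [e]
    field_simp
  refine ⟨α, hα, e', ?_⟩
  rw [hq.volume_ob hα, ← hq.ofReal_vol, ← hp.ofReal_vol, ← ENNReal.ofReal_mul (by positivity),
    C.finrank_eq, e']

/-- Monotonicity of `|IK| / |K| ^ (n - 1)` along the iteration. -/
theorem Chart.lyapunov [Nontrivial F] (C : Chart F E) {p : E → ℝ} (hp : IsNorm p) :
    vol (Ip p) ^ (finrank ℝ F + 1) ≤ vol p ^ finrank ℝ F * vol (Ip (Ip p)) := by
  have := C.nontrivial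
  have hm : 0 < finrank ℝ F := finrank_pos
  obtain ⟨s, hs, e, e'⟩ := C.exists_scale hp hp.Ip.Ip
  have h := C.key hp.Ip hs (hp.measurableSet_ob 1) e'.le
  have v1 := hp.Ip.vol_pos
  have v2 := hp.Ip.Ip.vol_pos
  rw [hp.setLIntegral_R, C.lintegral_inv_ob hm.ne' hp.Ip one_pos, ← hp.Ip.ofReal_vol,
    ← hp.Ip.Ip.ofReal_vol, ← ENNReal.ofReal_mul (by positivity),
    ← ENNReal.ofReal_mul (by positivity), ENNReal.ofReal_le_ofReal_iff (by positivity)] at h
  have h2 : vol (Ip p) ≤ s ^ finrank ℝ F * vol (Ip (Ip p)) := by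
    have hc : (0 : ℝ) < (finrank ℝ F + 1) / finrank ℝ F := by positivity
    apply le_of_mul_le_mul_left _ hc
    refine le_trans (le_of_eq ?_) (h.trans (le_of_eq ?_)) <;> ring
  calc _ ≤ (s ^ finrank ℝ F * vol (Ip (Ip p))) ^ (finrank ℝ F + 1) := by gcongr
    _ = _ := by rw [← e]; ring

lemma Chart.volume_Ip (C : Chart F E) {p : E → ℝ} (hp : IsNorm p) :
    volume (ob (Ip p) 1) = ENNReal.ofReal (2 / (finrank ℝ F + 1)) *
      ∫⁻ w, R (ob p 1) (C.Ψ (w, 1)) ^ (finrank ℝ F + 1) := by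
  rw [C.volume_ob hp.Ip]
  congr 1
  apply lintegral_congr
  intro w
  have := hp.Ip_pos (C.ne_zero w)
  rw [← hp.ofReal_inv_Ip (C.ne_zero w), ← ENNReal.ofReal_pow (by positivity), inv_pow]

lemma Chart.lintegral_pow_ne_top (C : Chart F E) {p : E → ℝ} (hp : IsNorm p) :
    ∫⁻ w, R (ob p 1) (C.Ψ (w, 1)) ^ (finrank ℝ F + 1) ≠ ⊤ := by
  intro h
  have h1 := C.volume_Ip hp
  rw [h, ENNReal.mul_top (by
    rw [Ne, ENNReal.ofReal_eq_zero, not_le]; positivity)] at h1
  exact hp.Ip.volume_ob_ne_top 1 h1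

/-- The variational inequality satisfied by a stationary body. -/
theorem Chart.stationary [Nontrivial F] (C : Chart F E) {p : E → ℝ} (hp : IsNorm p)
    (hst : vol p ^ finrank ℝ F * vol (Ip (Ip p)) ≤ vol (Ip p) ^ (finrank ℝ F + 1))
    {A : Set E} (hA : MeasurableSet A) (hle : volume A ≤ volume (ob p 1)) :
    ∫⁻ w, R (ob p 1) (C.Ψ (w, 1)) ^ finrank ℝ F * R A (C.Ψ (w, 1)) ≤
      ∫⁻ w, R (ob p 1) (C.Ψ (w, 1)) ^ (finrank ℝ F + 1) := by
  have hm : 0 < finrank ℝ F := finrank_pos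
  obtain ⟨s, hs, e, e'⟩ := C.exists_scale hp hp.Ip.Ip
  have h := C.key hp.Ip hs hA (hle.trans e'.le)
  have v1 := hp.Ip.vol_pos
  have v2 := hp.Ip.Ip.vol_pos
  have h2 : s ^ finrank ℝ F * vol (Ip (Ip p)) ≤ vol (Ip p) := by
    apply le_of_pow_le_pow_left₀ (Nat.succ_ne_zero (finrank ℝ F)) v1.le
    refine le_trans (le_of_eq ?_) hst
    rw [← e, Nat.succ_eq_add_one]; ring
  have h3 : ENNReal.ofReal (s ^ finrank ℝ F * (finrank ℝ F + 1) / finrank ℝ F) *
      volume (ob (Ip (Ip p)) 1) ≤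
      ENNReal.ofReal ((finrank ℝ F + 1) / finrank ℝ F) * volume (ob (Ip p) 1) := by
    rw [← hp.Ip.ofReal_vol, ← hp.Ip.Ip.ofReal_vol, ← ENNReal.ofReal_mul (by positivity),
      ← ENNReal.ofReal_mul (by positivity)]
    apply ENNReal.ofReal_le_ofReal
    have hc : (0 : ℝ) < (finrank ℝ F + 1) / finrank ℝ F := by positivity
    have := mul_le_mul_of_nonneg_left h2 hc.le
    refine le_trans (le_of_eq ?_) this
    ring
  have h4 := h.trans h3
  rw [C.lintegral_ob hm.ne' hp.Ip one_pos (measurable_R hA)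
    (fun v r hv hr => R_smul_right hA hv hr), C.volume_Ip hp, ← mul_assoc,
    ← ENNReal.ofReal_mul (by positivity)] at h4
  have e1 : ((finrank ℝ F : ℝ) + 1) / finrank ℝ F * (2 / (finrank ℝ F + 1)) =
      2 * 1 ^ finrank ℝ F / finrank ℝ F := by
    field_simp
    simp
  rw [e1, ENNReal.mul_le_mul_iff_right (by
    rw [Ne, ENNReal.ofReal_eq_zero, not_le]; positivity) ENNReal.ofReal_ne_top] at h4
  refine le_trans (le_of_eq ?_) h4
  apply lintegral_congr
  intro w
  have := hp.Ip_pos (C.ne_zero w)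
  rw [← hp.ofReal_inv_Ip (C.ne_zero w), ← ENNReal.ofReal_pow (by positivity), inv_pow]

end Pool.Agent.Lib.MP_5ac201_gt
end

-- part Pool.Agent.Lib.MP_5ac201_gt.Chord
section

/-!
Midpoints and half lengths of parallel chords of a norm ball.
-/

set_option linter.unusedSectionVars false

namespace Pool.Agent.Lib.MP_5ac201_gt

open MeasureTheory Set Module Filter
open scoped ENNReal RealInnerProductSpace Pointwise Topology

variable {E : Type} [NormedAddCommGroup E] [InnerProductSpace ℝ E]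
  [FiniteDimensional ℝ E] [MeasurableSpace E] [BorelSpace E]
variable {F : Type} [NormedAddCommGroup F] [InnerProductSpace ℝ F]
  [FiniteDimensional ℝ F] [MeasurableSpace F] [BorelSpace F]

/-- `c` and `l` are the midpoint and the half length of the vertical chords. -/
structure Chord (C : Chart F E) (p : E → ℝ) (c l : F → ℝ) : Prop where
  mem : ∀ y s, p (C.Ψ (y, s)) < 1 ↔ |s - c y| < l y
  mc : Measurable c
  ml : Measurable l
  cc : ContinuousOn c {y | 0 < l y}
  cl : ContinuousOn l {y | 0 < l y}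
  isOpen : IsOpen {y | 0 < l y}
  convex : Convex ℝ {y | 0 < l y}
  bdd : ∃ B : ℝ, 0 < B ∧ ∀ y, |c y| ≤ B
  odd : ∀ y, c (-y) = -c y
  even : ∀ y, l (-y) = l y
  pos : 0 < l 0

lemma Chart.exists_chord (C : Chart F E) {p : E → ℝ} (hp : IsNorm p) :
    ∃ c l : F → ℝ, Chord C p c l := by
  classical
  let I : F → Set ℝ := fun y => {s | p (C.Ψ (y, s)) < 1}
  let hi : F → ℝ := fun y => sSup (I y)
  obtain ⟨B, hB0, hB⟩ : ∃ B : ℝ, 0 < B ∧ ∀ y, ∀ s ∈ I y, |s| ≤ B := by
    obtain ⟨M, hM0, hM⟩ := (hp.isBounded_ob 1).exists_pos_norm_le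
    refine ⟨‖(C.Ψ.symm : E →L[ℝ] F × ℝ)‖ * M + 1, by positivity, fun y s hs => ?_⟩
    have h1 := (C.Ψ.symm : E →L[ℝ] F × ℝ).le_opNorm (C.Ψ (y, s))
    have h2 : ‖C.Ψ (y, s)‖ ≤ M := hM _ hs
    have h3 : |s| ≤ ‖(y, s)‖ := norm_snd_le (y, s)
    simp only [ContinuousLinearEquiv.coe_coe, ContinuousLinearEquiv.symm_apply_apply] at h1
    have h4 := mul_le_mul_of_nonneg_left h2 (norm_nonneg (C.Ψ.symm : E →L[ℝ] F × ℝ))
    linarith
  have hbdd : ∀ y, BddAbove (I y) := fun y => ⟨B, fun s hs => (le_abs_self s).trans (hB y s hs)⟩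
  have hneg : ∀ y s, s ∈ I y → -s ∈ I (-y) := by
    intro y s hs
    change p (C.Ψ (-(y, s))) < 1
    rw [map_neg, hp.neg]
    exact hs
  have hconv : ∀ y0 y1 s0 s1 (a b : ℝ), 0 ≤ a → 0 ≤ b → a + b = 1 → s0 ∈ I y0 → s1 ∈ I y1 →
      a * s0 + b * s1 ∈ I (a • y0 + b • y1) := by
    intro y0 y1 s0 s1 a b ha hb hab h0 h1
    change p (C.Ψ (a • (y0, s0) + b • (y1, s1))) < 1
    rw [map_add, map_smul, map_smul]
    refine (hp.convex_le _ _ ha hb).trans_lt ?_
    have := (convex_Iio (𝕜 := ℝ) (1 : ℝ)) h0 h1 ha hb hab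
    exact this
  have hlt : ∀ y, ∀ s ∈ I y, s < hi y := by
    intro y s hs
    have hopen : IsOpen (I y) := isOpen_lt
      (hp.continuous.comp (C.Ψ.continuous.comp (continuous_const.prodMk continuous_id)))
      continuous_const
    obtain ⟨s', h1, h2⟩ := (show ∀ᶠ s' in 𝓝 s, s' ∈ I y from hopen.mem_nhds hs).exists_gt
    exact h1.trans_le (le_csSup (hbdd y) h2)
  have hemp : ∀ y, ¬ (I y).Nonempty → hi y = 0 ∧ hi (-y) = 0 := by
    intro y hy
    have h1 : I y = ∅ := not_nonempty_iff_eq_empty.1 hy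
    have h2 : I (-y) = ∅ := by
      rw [← not_nonempty_iff_eq_empty]
      rintro ⟨s, hs⟩
      exact hy ⟨-s, by simpa using hneg _ _ hs⟩
    simp only [hi, h1, h2, Real.sSup_empty, and_self]
  have hmem : ∀ y s, s ∈ I y ↔ |s - (hi y - hi (-y)) / 2| < (hi y + hi (-y)) / 2 := by
    intro y s
    rw [abs_lt]
    constructor
    · intro hs
      have h1 := hlt y s hs
      have h2 := hlt _ _ (hneg y s hs)
      constructor <;> linarith
    · rintro ⟨h1, h2⟩
      by_cases hy : (I y).Nonempty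
      · obtain ⟨s1, hs1, h3⟩ := exists_lt_of_lt_csSup hy (show s < hi y by linarith)
        obtain ⟨s2, hs2, h4⟩ := exists_lt_of_lt_csSup (s := I (-y)) ⟨_, hneg y s1 hs1⟩
          (show -s < hi (-y) by linarith)
        have hs3 : -s2 ∈ I y := by simpa using hneg _ _ hs2
        have hc : Convex ℝ (I y) := by
          intro s0 h0 s1 h1 a b ha hb hab
          have := hconv y y s0 s1 a b ha hb hab h0 h1
          rwa [← add_smul, hab, one_smul] at this
        exact hc.ordConnected.out hs3 hs1 ⟨by linarith, h3.le⟩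
      · obtain ⟨e1, e2⟩ := hemp y hy
        rw [e1, e2] at h1 h2
        linarith
  have hΩ : ∀ y, 0 < (hi y + hi (-y)) / 2 ↔ (I y).Nonempty := by
    intro y
    constructor
    · intro h
      exact ⟨(hi y - hi (-y)) / 2, (hmem _ _).2 (by simpa using h)⟩
    · rintro ⟨s, hs⟩
      exact (abs_nonneg _).trans_lt ((hmem _ _).1 hs)
  have hΩ' : {y | 0 < (hi y + hi (-y)) / 2} = {y | (I y).Nonempty} := by
    ext y; exact hΩ y
  have hopen : IsOpen {y | (I y).Nonempty} := by
    have : {y | (I y).Nonempty} = Prod.fst '' (C.Ψ ⁻¹' ob p 1) := by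
      ext y
      simp only [mem_ofPred_eq, mem_image, mem_preimage, Prod.exists, exists_and_right,
        exists_eq_right]
      rfl
    rw [this]
    exact isOpenMap_fst _ ((hp.isOpen_ob 1).preimage C.Ψ.continuous)
  have hcx : Convex ℝ {y | (I y).Nonempty} := by
    rintro y0 ⟨s0, h0⟩ y1 ⟨s1, h1⟩ a b ha hb hab
    exact ⟨_, hconv y0 y1 s0 s1 a b ha hb hab h0 h1⟩
  have hcon : ContinuousOn hi {y | (I y).Nonempty} := by
    refine ConcaveOn.continuousOn hopen ⟨hcx, ?_⟩
    intro y0 h0 y1 h1 a b ha hb hab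
    apply le_of_forall_pos_le_add
    intro ε hε
    obtain ⟨s0, hs0, h3⟩ := exists_lt_of_lt_csSup h0 (show hi y0 - ε < hi y0 by linarith)
    obtain ⟨s1, hs1, h4⟩ := exists_lt_of_lt_csSup h1 (show hi y1 - ε < hi y1 by linarith)
    have h5 : a * s0 + b * s1 ≤ hi (a • y0 + b • y1) :=
      le_csSup (hbdd _) (hconv y0 y1 s0 s1 a b ha hb hab hs0 hs1)
    have h6 := mul_le_mul_of_nonneg_left h3.le ha
    have h7 := mul_le_mul_of_nonneg_left h4.le hb
    have h8 : a * ε + b * ε = ε := by rw [← add_mul, hab, one_mul]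
    simp only [smul_eq_mul]
    nlinarith
  have hcon' : ContinuousOn (fun y => hi (-y)) {y | (I y).Nonempty} :=
    hcon.comp continuous_neg.continuousOn (fun y ⟨s, hs⟩ => ⟨_, hneg y s hs⟩)
  have hmeas : Measurable hi := by
    have : hi = {y | (I y).Nonempty}.piecewise hi (fun _ => 0) := by
      ext y
      by_cases hy : y ∈ {y | (I y).Nonempty}
      · rw [piecewise_eq_of_mem _ _ _ hy]
      · rw [piecewise_eq_of_notMem _ _ _ hy]
        exact (hemp y hy).1
    rw [this]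
    exact hcon.measurable_piecewise continuousOn_const hopen.measurableSet
  have hmeas' : Measurable fun y => hi (-y) := hmeas.comp measurable_neg
  refine ⟨fun y => (hi y - hi (-y)) / 2, fun y => (hi y + hi (-y)) / 2, hmem,
    (hmeas.sub hmeas').div_const 2, (hmeas.add hmeas').div_const 2, ?_, ?_, ?_, ?_,
    ⟨B, hB0, fun y => ?_⟩, fun y => ?_, fun y => ?_, ?_⟩
  · rw [hΩ']; exact (hcon.sub hcon').div_const 2
  · rw [hΩ']; exact (hcon.add hcon').div_const 2
  · rw [hΩ']; exact hopen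
  · rw [hΩ']; exact hcx
  · by_cases hy : (I y).Nonempty
    · exact hB y _ ((hmem _ _).2 (by simpa using (hΩ y).2 hy))
    · obtain ⟨e1, e2⟩ := hemp y hy
      simp only [e1, e2]
      simpa using hB0.le
  · simp only [neg_neg]; ring
  · simp only [neg_neg]; ring
  · refine (hΩ 0).2 ⟨0, ?_⟩
    change p (C.Ψ 0) < 1
    rw [map_zero, hp.zero]
    exact one_pos

/-- The partial Steiner symmetrization. -/
def shear (C : Chart F E) (c l : F → ℝ) (a : ℝ) : Set E :=
  {x | |(C.Ψ.symm x).2 - a * c (C.Ψ.symm x).1| < l (C.Ψ.symm x).1}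

lemma mem_shear (C : Chart F E) (c l : F → ℝ) (a : ℝ) (y : F) (s : ℝ) :
    C.Ψ (y, s) ∈ shear C c l a ↔ |s - a * c y| < l y := by
  simp [shear]

namespace Chord

variable {C : Chart F E} {p : E → ℝ} {c l : F → ℝ} (h : Chord C p c l)
include h

lemma measurableSet_shear (a : ℝ) : MeasurableSet (shear C c l a) := by
  have h0 : Measurable C.Ψ.symm := C.Ψ.symm.continuous.measurable
  exact measurableSet_lt ((h0.snd.sub ((h.mc.comp h0.fst).const_mul a)).abs) (h.ml.comp h0.fst)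

lemma shear_one : shear C c l 1 = ob p 1 := by
  ext x
  obtain ⟨⟨y, s⟩, rfl⟩ := C.Ψ.surjective x
  rw [mem_shear, one_mul, ← h.mem]
  rfl

lemma volume_shear (a : ℝ) : volume (shear C c l a) = ∫⁻ y, ENNReal.ofReal (2 * l y) := by
  rw [← lintegral_indicator_one (h.measurableSet_shear a),
    C.lintegral_eq (measurable_one.indicator (h.measurableSet_shear a))]
  apply lintegral_congr
  intro y
  have : (fun s => (shear C c l a).indicator (1 : E → ℝ≥0∞) (C.Ψ (y, s))) =
      (Metric.ball (a * c y) (l y)).indicator 1 := by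
    ext s
    apply indicator_eq_indicator
    · rw [mem_shear, Metric.mem_ball, Real.dist_eq]
    · rfl
  rw [this, lintegral_indicator_one measurableSet_ball, Real.volume_ball]

lemma volume_shear_eq (a : ℝ) : volume (shear C c l a) = volume (ob p 1) := by
  rw [← h.shear_one, h.volume_shear, h.volume_shear]

lemma sandwich (hp : IsNorm p) : ∃ D : ℝ, 0 < D ∧ ∀ t : ℝ, 0 < t →
    ob p (1 - D * t) ⊆ shear C c l (1 - t) ∧ shear C c l (1 - t) ⊆ ob p (1 + D * t) := by
  obtain ⟨B, hB0, hB⟩ := h.bdd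
  have hu := hp.pos _ (C.ne_zero 0)
  refine ⟨B * p (C.Ψ (0, 1)), by positivity, fun t ht => ?_⟩
  have key : ∀ (y : F) (s r : ℝ), |r| ≤ B * t →
      p (C.Ψ (y, s + r)) ≤ p (C.Ψ (y, s)) + B * p (C.Ψ (0, 1)) * t := by
    intro y s r hr
    have e : C.Ψ (y, s + r) = C.Ψ (y, s) + r • C.Ψ (0, 1) := by
      rw [← map_smul, ← map_add]
      simp
    rw [e]
    refine (hp.add_le _ _).trans ?_
    rw [hp.smul]
    nlinarith
  have hr : ∀ y, |t * c y| ≤ B * t := by
    intro y
    rw [abs_mul, abs_of_pos ht, mul_comm]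
    gcongr
    exact hB y
  constructor
  · intro x hx
    obtain ⟨⟨y, s⟩, rfl⟩ := C.Ψ.surjective x
    rw [mem_shear, show s - (1 - t) * c y = s + t * c y - c y by ring, ← h.mem]
    have := key y s _ (hr y)
    have hx' : p (C.Ψ (y, s)) < 1 - B * p (C.Ψ (0, 1)) * t := hx
    linarith
  · intro x hx
    obtain ⟨⟨y, s⟩, rfl⟩ := C.Ψ.surjective x
    rw [mem_shear, show s - (1 - t) * c y = s + t * c y - c y by ring, ← h.mem] at hx
    have := key y (s + t * c y) (-(t * c y)) (by rw [abs_neg]; exact hr y)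
    rw [add_neg_cancel_right] at this
    change p (C.Ψ (y, s)) < _
    linarith

end Chord

end Pool.Agent.Lib.MP_5ac201_gt
end

-- part Pool.Agent.Lib.MP_5ac201_gt.Steiner
section

/-!
First variation along the continuous Steiner symmetrization.
-/

set_option linter.unusedSectionVars false

namespace Pool.Agent.Lib.MP_5ac201_gt

open MeasureTheory Set Module Filter
open scoped ENNReal RealInnerProductSpace Pointwise Topology

variable {E : Type} [NormedAddCommGroup E] [InnerProductSpace ℝ E]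
  [FiniteDimensional ℝ E] [MeasurableSpace E] [BorelSpace E]
variable {F : Type} [NormedAddCommGroup F] [InnerProductSpace ℝ F]
  [FiniteDimensional ℝ F] [MeasurableSpace F] [BorelSpace F]

lemma quad (n : ℕ) : ∃ K : ℝ, 0 ≤ K ∧ ∀ e : ℝ, -1 ≤ e → e ≤ 1 →
    (1 + e) ^ n ≤ 1 + n * e + K * e ^ 2 := by
  induction n with
  | zero => exact ⟨0, le_rfl, fun e _ _ => by simp⟩
  | succ n ih =>
    obtain ⟨K, hK, h⟩ := ih
    refine ⟨n + 2 * K, by positivity, fun e h1 h2 => ?_⟩
    have h3 := mul_le_mul_of_nonneg_right (h e h1 h2) (show 0 ≤ 1 + e by linarith)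
    have h4 : K * e ^ 2 * e ≤ K * e ^ 2 * 1 := by gcongr
    rw [pow_succ]
    push_cast
    nlinarith

lemma pointwise_real (m : ℕ) : ∃ K δ : ℝ, 0 ≤ K ∧ 0 < δ ∧ δ ≤ 1 ∧ ∀ x : ℝ, 0 < x → x < δ →
    ∀ s0 s : ℝ, 0 ≤ s0 → (1 - x) ^ m * s0 ≤ s → s ≤ (1 + x) ^ m * s0 →
    s ^ (m + 1) + (m + 1) * s0 ^ (m + 1) ≤
      (1 + K * x ^ 2) * s0 ^ (m + 1) + (m + 1) * (s0 ^ m * s) := by
  obtain ⟨K1, hK1, h1⟩ := quad m
  obtain ⟨K2, hK2, h2⟩ := quad (m + 1)
  set L : ℝ := m + K1 + 1 with hL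
  have hL1 : 1 ≤ L := by
    have : (0 : ℝ) ≤ m := by positivity
    linarith
  refine ⟨K2 * L ^ 2, 1 / L, by positivity, by positivity, by
    rw [div_le_one (by linarith)]; exact hL1, fun x hx0 hx s0 s hs0 hl hu => ?_⟩
  rw [lt_div_iff₀ (by linarith)] at hx
  have hx1 : x ≤ 1 := by nlinarith
  rcases hs0.eq_or_lt with rfl | hs0
  · have : s = 0 := by
      rw [mul_zero] at hl hu
      exact le_antisymm hu hl
    simp [this]
  obtain ⟨e, rfl⟩ : ∃ e, s = (1 + e) * s0 := ⟨s / s0 - 1, by field_simp; ring⟩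
  have hl' := le_of_mul_le_mul_right hl hs0
  have hu' := le_of_mul_le_mul_right hu hs0
  have b1 := one_add_mul_le_pow (show -2 ≤ -x by linarith) m
  rw [← sub_eq_add_neg] at b1
  have b2 := h1 x (by linarith) hx1
  have b3 : K1 * x ^ 2 ≤ K1 * x := by
    apply mul_le_mul_of_nonneg_left _ hK1
    nlinarith
  have c1 : -(L * x) ≤ e := by
    have : 0 ≤ K1 * x := by positivity
    rw [hL]; nlinarith
  have c2 : e ≤ L * x := by rw [hL]; nlinarith
  have c3 : e ^ 2 ≤ (L * x) ^ 2 := sq_le_sq' c1 c2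
  have b4 := h2 e (by nlinarith) (by nlinarith)
  have b5 : K2 * e ^ 2 ≤ K2 * L ^ 2 * x ^ 2 := by
    rw [mul_assoc, ← mul_pow]
    gcongr
  have hp : 0 < s0 ^ (m + 1) := by positivity
  have b6 : (1 + e) ^ (m + 1) * s0 ^ (m + 1) ≤
      (1 + (m + 1) * e + K2 * L ^ 2 * x ^ 2) * s0 ^ (m + 1) := by
    apply mul_le_mul_of_nonneg_right _ hp.le
    push_cast at b4
    linarith
  rw [mul_pow]
  have e1 : s0 ^ m * ((1 + e) * s0) = (1 + e) * s0 ^ (m + 1) := by ring
  rw [e1]
  nlinarith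

lemma pointwise (m : ℕ) : ∃ K δ : ℝ, 0 ≤ K ∧ 0 < δ ∧ δ ≤ 1 ∧ ∀ x : ℝ, 0 < x → x < δ →
    ∀ s0 s : ℝ≥0∞, s0 ≠ ⊤ → ENNReal.ofReal ((1 - x) ^ m) * s0 ≤ s →
    s ≤ ENNReal.ofReal ((1 + x) ^ m) * s0 →
    s ^ (m + 1) + (m + 1 : ℕ) * s0 ^ (m + 1) ≤
      ENNReal.ofReal (1 + K * x ^ 2) * s0 ^ (m + 1) + (m + 1 : ℕ) * (s0 ^ m * s) := by
  obtain ⟨K, δ, hK, hδ, hδ1, h⟩ := pointwise_real m
  refine ⟨K, δ, hK, hδ, hδ1, fun x hx0 hx s0 s hs0 hl hu => ?_⟩
  have hs : s ≠ ⊤ := ne_top_of_le_ne_top (ENNReal.mul_ne_top ENNReal.ofReal_ne_top hs0) hu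
  have hx1 : 0 ≤ 1 - x := by linarith
  lift s0 to NNReal using hs0
  lift s to NNReal using hs
  rw [← ENNReal.ofReal_coe_nnreal, ← ENNReal.ofReal_coe_nnreal,
    ← ENNReal.ofReal_mul (by positivity), ENNReal.ofReal_le_ofReal_iff (by positivity)] at hl hu
  have := h x hx0 hx s0 s s0.2 hl hu
  rw [← ENNReal.ofReal_coe_nnreal, ← ENNReal.ofReal_coe_nnreal, ← ENNReal.ofReal_natCast,
    ← ENNReal.ofReal_pow s0.coe_nonneg, ← ENNReal.ofReal_pow s0.coe_nonneg,
    ← ENNReal.ofReal_pow s.coe_nonneg,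
    ← ENNReal.ofReal_mul (by positivity), ← ENNReal.ofReal_mul (by positivity),
    ← ENNReal.ofReal_mul (by positivity), ← ENNReal.ofReal_mul (by positivity),
    ← ENNReal.ofReal_add (by positivity) (by positivity),
    ← ENNReal.ofReal_add (by positivity) (by positivity)]
  apply ENNReal.ofReal_le_ofReal
  push_cast
  exact this

/-- The projection of a central section of the sheared body. -/
def slab (c l : F → ℝ) (a : ℝ) (w : F) : Set F := {y | |-⟪y, w⟫ - a * c y| < l y}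

/-- The volume of the set of normals whose section contains a given configuration. -/
noncomputable def V (c l : F → ℝ) {m : ℕ} (z : (Fin m → F) × F) (a : ℝ) : ℝ≥0∞ :=
  volume {w : F | (∀ i, z.1 i ∈ slab c l a w) ∧ z.2 ∈ slab c l a w}

lemma measurableSet_slab {X : Type*} [MeasurableSpace X] {c l : F → ℝ} (hc : Measurable c)
    (hl : Measurable l) (a : ℝ) {f g : X → F} (hf : Measurable f) (hg : Measurable g) :
    MeasurableSet {x | f x ∈ slab c l a (g x)} :=
  measurableSet_lt (((hf.inner hg).neg.sub ((hc.comp hf).const_mul a)).abs) (hl.comp hf)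

lemma measurableSet_conf {c l : F → ℝ} (hc : Measurable c) (hl : Measurable l) (m : ℕ) (a : ℝ) :
    MeasurableSet {x : ((Fin m → F) × F) × F |
      (∀ i, x.1.1 i ∈ slab c l a x.2) ∧ x.1.2 ∈ slab c l a x.2} := by
  refine MeasurableSet.inter ?_ (measurableSet_slab hc hl a measurable_fst.snd measurable_snd)
  have := MeasurableSet.iInter fun i : Fin m => measurableSet_slab hc hl a
    (f := fun x : ((Fin m → F) × F) × F => x.1.1 i)
    ((measurable_pi_apply i).comp measurable_fst.fst) measurable_snd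
  rw [← ofPred_forall] at this
  exact this

lemma measurable_V {c l : F → ℝ} (hc : Measurable c) (hl : Measurable l) (m : ℕ) (a : ℝ) :
    Measurable fun z : (Fin m → F) × F => V c l z a :=
  measurable_measure_prodMk_left (measurableSet_conf hc hl m a)

lemma tonelli {c l : F → ℝ} (hc : Measurable c) (hl : Measurable l) (m : ℕ) (a : ℝ) :
    ∫⁻ w, volume (slab c l a w) ^ (m + 1) = ∫⁻ z : (Fin m → F) × F, V c l z a := by
  have h1 := Measure.prod_apply (μ := (volume : Measure ((Fin m → F) × F)))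
    (ν := (volume : Measure F)) (measurableSet_conf hc hl m a)
  have h2 := Measure.prod_apply_symm (μ := (volume : Measure ((Fin m → F) × F)))
    (ν := (volume : Measure F)) (measurableSet_conf hc hl m a)
  refine Eq.trans ?_ (h2.symm.trans h1)
  apply lintegral_congr
  intro w
  have : (fun x : (Fin m → F) × F => (x, w)) ⁻¹' {x : ((Fin m → F) × F) × F |
      (∀ i, x.1.1 i ∈ slab c l a x.2) ∧ x.1.2 ∈ slab c l a x.2} =
      (univ.pi fun _ => slab c l a w) ×ˢ slab c l a w := by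
    ext x
    simp
  rw [this, Measure.volume_eq_prod, Measure.prod_prod, volume_pi_pi]
  simp [pow_succ]

lemma V_neg (c l : F → ℝ) {m : ℕ} (z : (Fin m → F) × F) (a : ℝ) : V c l z (-a) = V c l z a := by
  rw [V, V, ← Measure.measure_neg]
  congr 1
  have : ∀ y w : F, y ∈ slab c l (-a) (-w) ↔ y ∈ slab c l a w := by
    intro y w
    simp only [slab, mem_ofPred_eq, inner_neg_right]
    rw [← abs_neg]
    congr! 2
    ring
  ext w
  simp [this]

lemma V_cv (c l : F → ℝ) {m : ℕ} (z : (Fin m → F) × F) : Cv 1 (V c l z) := by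
  let S : Set (ℝ × F) := {x | (∀ i, z.1 i ∈ slab c l x.1 x.2) ∧ z.2 ∈ slab c l x.1 x.2}
  have hopen : ∀ (a : ℝ) (y : F), IsOpen {w | y ∈ slab c l a w} := fun a y =>
    isOpen_lt (f := fun w => |-⟪y, w⟫ - a * c y|) (by fun_prop) continuous_const
  have hS : ∀ a : ℝ, MeasurableSet {w | (a, w) ∈ S} := by
    intro a
    refine MeasurableSet.inter ?_ (hopen a z.2).measurableSet
    have := MeasurableSet.iInter fun i : Fin m => (hopen a (z.1 i)).measurableSet
    rw [← ofPred_forall] at this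
    exact this
  have hconv : ∀ (y : F) (x0 x1 : ℝ × F) (t : ℝ), 0 < t → t < 1 → y ∈ slab c l x0.1 x0.2 →
      y ∈ slab c l x1.1 x1.2 → y ∈ slab c l ((1 - t) • x0 + t • x1).1 ((1 - t) • x0 + t • x1).2 := by
    intro y x0 x1 t ht0 ht1 h0 h1
    simp only [slab, mem_ofPred_eq, abs_lt] at h0 h1
    simp only [slab, mem_ofPred_eq, abs_lt, Prod.fst_add, Prod.smul_fst, Prod.snd_add,
      Prod.smul_snd, inner_add_right, inner_smul_right, smul_eq_mul]
    constructor <;> nlinarith [h0.1, h0.2, h1.1, h1.2]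
  have hcv : Cv (1 + finrank ℝ F) (S.indicator (1 : ℝ × F → ℝ≥0∞)) := by
    intro x0 x1 t ht0 ht1 α0 α1 h0 h1 hx0 hx1
    have key : ∀ (x : ℝ × F) (α : ℝ), 0 < α →
        ENNReal.ofReal ((α ^ (1 + finrank ℝ F))⁻¹) < S.indicator (1 : ℝ × F → ℝ≥0∞) x →
        x ∈ S ∧ 1 ≤ α := by
      intro x α hα h
      have hx : x ∈ S := by
        by_contra hx
        rw [indicator_of_notMem hx] at h
        exact not_lt_zero h
      refine ⟨hx, ?_⟩
      rw [indicator_of_mem hx, Pi.one_apply, ENNReal.ofReal_lt_one,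
        inv_lt_one₀ (by positivity)] at h
      by_contra h2
      exact absurd h (not_lt.2 (pow_le_one₀ hα.le (not_le.1 h2).le))
    obtain ⟨a0, b0⟩ := key _ _ h0 hx0
    obtain ⟨a1, b1⟩ := key _ _ h1 hx1
    have hm : (1 - t) • x0 + t • x1 ∈ S :=
      ⟨fun i => hconv _ _ _ t ht0 ht1 (a0.1 i) (a1.1 i), hconv _ _ _ t ht0 ht1 a0.2 a1.2⟩
    rw [indicator_of_mem hm, Pi.one_apply, ENNReal.ofReal_le_one]
    apply inv_le_one_of_one_le₀
    apply one_le_pow₀
    nlinarith
  have e : ∀ a : ℝ, (fun w => S.indicator (1 : ℝ × F → ℝ≥0∞) (a, w)) =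
      {w | (a, w) ∈ S}.indicator 1 := fun a => rfl
  have := Cv.marginal.{0, 0} (finrank ℝ F) rfl hcv (fun a => by
    rw [e]; exact measurable_one.indicator (hS a))
  convert this using 2 with a
  rw [e, lintegral_indicator_one (hS a)]
  rfl

lemma gain_le {W : ℝ → ℝ≥0∞} (hW : Cv 1 W) (he : W (-1) = W 1) {t : ℝ} (ht0 : 0 < t)
    (ht1 : t < 1) : W 1 + ENNReal.ofReal t * (W 1 * (W 0 - W 1) / W 0) ≤ W (1 - t) := by
  have h1 : W 1 ≤ W (1 - t) := by
    apply le_of_forall_lt
    intro y hy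
    have := hW.quasi one_ne_zero 1 (-1) (t := t / 2) (by linarith) (by linarith) hy (he ▸ hy)
    convert this using 2
    simp only [smul_eq_mul]
    ring
  by_cases h2 : W 1 * (W 0 - W 1) / W 0 = 0
  · rw [h2, mul_zero, add_zero]
    exact h1
  rw [ENNReal.div_eq_zero_iff, mul_eq_zero, tsub_eq_zero_iff_le] at h2
  push Not at h2
  obtain ⟨⟨h3, h4⟩, h5⟩ := h2
  have h6 : W 1 ≠ ⊤ := ne_top_of_lt h4
  set a := (W 1).toReal with ha
  set b := (W 0).toReal with hb
  have ha0 : 0 < a := ENNReal.toReal_pos h3 h6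
  have hab : a < b := ENNReal.toReal_strict_mono h5 h4
  have hb0 : 0 < b := ha0.trans hab
  have ea : W 1 = ENNReal.ofReal a := (ENNReal.ofReal_toReal h6).symm
  have eb : W 0 = ENNReal.ofReal b := (ENNReal.ofReal_toReal h5).symm
  have := hW.le one_ne_zero 1 0 ht0 ht1 (inv_pos.2 ha0) (inv_pos.2 hb0)
    (by rw [pow_one, inv_inv, ea]) (by rw [pow_one, inv_inv, eb])
  simp only [smul_eq_mul, mul_one, mul_zero, add_zero, pow_one] at this
  refine le_trans ?_ this
  have hba : 0 < b - a := by linarith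
  have ht' : 0 < 1 - t := by linarith
  rw [ea, eb, ← ENNReal.ofReal_sub _ ha0.le, ← ENNReal.ofReal_mul ha0.le,
    ← ENNReal.ofReal_div_of_pos hb0, ← ENNReal.ofReal_mul ht0.le,
    ← ENNReal.ofReal_add ha0.le (by positivity)]
  apply ENNReal.ofReal_le_ofReal
  rw [le_inv_comm₀ (by positivity) (by positivity), inv_eq_one_div (a + _),
    le_div_iff₀ (by positivity)]
  have e : ((1 - t) * a⁻¹ + t * b⁻¹) * (a + t * (a * (b - a) / b)) =
      1 - (t * (b - a) / b) ^ 2 := by
    field_simp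
    ring
  rw [e]
  nlinarith [sq_nonneg (t * (b - a) / b)]

theorem Chord.ae_gain [Nontrivial F] {C : Chart F E} {p : E → ℝ} {c l : F → ℝ}
    (h : Chord C p c l) (hp : IsNorm p)
    (hst : vol p ^ finrank ℝ F * vol (Ip (Ip p)) ≤ vol (Ip p) ^ (finrank ℝ F + 1)) :
    ∀ᵐ z : (Fin (finrank ℝ F) → F) × F,
      V c l z 1 * (V c l z 0 - V c l z 1) / V c l z 0 = 0 := by
  set m := finrank ℝ F with hm
  have hE : finrank ℝ E - 1 = m := by rw [C.finrank_eq]; rfl
  have hσ : ∀ (a : ℝ) (w : F), R (shear C c l a) (C.Ψ (w, 1)) = volume (slab c l a w) := by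
    intro a w
    rw [C.R_eq_one (h.measurableSet_shear a)]
    congr 1
    ext y
    exact mem_shear C c l a y _
  have hV := fun a => measurable_V h.mc h.ml m a
  have hg : Measurable fun z : (Fin m → F) × F =>
      V c l z 1 * (V c l z 0 - V c l z 1) / V c l z 0 :=
    ((hV 1).mul ((hV 0).sub (hV 1))).div (hV 0)
  refine (lintegral_eq_zero_iff hg).1 ?_
  set G := ∫⁻ z : (Fin m → F) × F, V c l z 1 * (V c l z 0 - V c l z 1) / V c l z 0 with hG
  set A := ∫⁻ w, R (ob p 1) (C.Ψ (w, 1)) ^ (m + 1) with hA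
  have hAtop : A ≠ ⊤ := C.lintegral_pow_ne_top hp
  have hA1 : A = ∫⁻ z : (Fin m → F) × F, V c l z 1 := by
    rw [← tonelli h.mc h.ml, hA, ← h.shear_one]
    simp_rw [hσ]
  obtain ⟨K, δ, hK, hδ, hδ1, hpt⟩ := pointwise m
  obtain ⟨D, hD, hsand⟩ := h.sandwich hp
  have hΨ : Measurable fun w : F => C.Ψ (w, 1) :=
    (C.Ψ.continuous.comp (continuous_id.prodMk continuous_const)).measurable
  have main : ∀ t : ℝ, 0 < t → t < 1 → D * t < δ → G ≤ ENNReal.ofReal (K * D ^ 2 * t) * A := by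
    intro t ht0 ht1 htδ
    have hx : 0 < D * t := by positivity
    set B := ∫⁻ w, R (shear C c l (1 - t)) (C.Ψ (w, 1)) ^ (m + 1) with hB
    have m0 : Measurable fun w : F => R (ob p 1) (C.Ψ (w, 1)) :=
      (measurable_R (hp.measurableSet_ob 1)).comp hΨ
    have m1 : Measurable fun w : F => R (shear C c l (1 - t)) (C.Ψ (w, 1)) :=
      (measurable_R (h.measurableSet_shear _)).comp hΨ
    have lower : A + ENNReal.ofReal t * G ≤ B := by
      rw [hB, hA1, hG, ← lintegral_const_mul _ hg, ← lintegral_add_left (hV 1)]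
      simp_rw [hσ]
      rw [tonelli h.mc h.ml]
      exact lintegral_mono fun z => gain_le (V_cv c l z) (V_neg c l z 1) ht0 ht1
    have upper : B ≤ ENNReal.ofReal (1 + K * (D * t) ^ 2) * A := by
      have h1 := lintegral_mono (μ := (volume : Measure F)) fun w =>
        hpt (D * t) hx htδ (R (ob p 1) (C.Ψ (w, 1))) (R (shear C c l (1 - t)) (C.Ψ (w, 1)))
          (hp.R_ob_ne_top _ _)
          (by
            rw [← hE, ← hp.R_ob (by linarith) (C.ne_zero w)]
            exact R_mono (hsand t ht0).1 _)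
          (by
            rw [← hE, ← hp.R_ob (by linarith) (C.ne_zero w)]
            exact R_mono (hsand t ht0).2 _)
      rw [lintegral_add_left (m1.pow_const _), lintegral_add_left ((m0.pow_const _).const_mul _),
        lintegral_const_mul _ (m0.pow_const _), lintegral_const_mul _ (m0.pow_const _),
        lintegral_const_mul' _ _ (ENNReal.natCast_ne_top _)] at h1
      have h2 := C.stationary hp hst (h.measurableSet_shear (1 - t)) (h.volume_shear_eq _).le
      have h3 : ((m + 1 : ℕ) : ℝ≥0∞) * A ≠ ⊤ := ENNReal.mul_ne_top (ENNReal.natCast_ne_top _) hAtop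
      refine (ENNReal.add_le_add_iff_right h3).1 (h1.trans ?_)
      gcongr
    have h4 := lower.trans upper
    rw [ENNReal.ofReal_add zero_le_one (by positivity), ENNReal.ofReal_one, add_mul, one_mul,
      ENNReal.add_le_add_iff_left hAtop,
      show K * (D * t) ^ 2 = t * (K * D ^ 2 * t) by ring, ENNReal.ofReal_mul ht0.le, mul_assoc,
      ENNReal.mul_le_mul_iff_right (by
        rw [Ne, ENNReal.ofReal_eq_zero, not_le]; exact ht0) ENNReal.ofReal_ne_top] at h4
    exact h4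
  have hlim : Tendsto (fun t : ℝ => ENNReal.ofReal (K * D ^ 2 * t) * A) (𝓝[>] 0) (𝓝 0) := by
    have h1 : Tendsto (fun t : ℝ => ENNReal.ofReal (K * D ^ 2 * t)) (𝓝[>] 0) (𝓝 0) := by
      apply Tendsto.mono_left _ nhdsWithin_le_nhds
      have : Continuous fun t : ℝ => ENNReal.ofReal (K * D ^ 2 * t) :=
        ENNReal.continuous_ofReal.comp (by fun_prop)
      simpa using this.tendsto 0
    simpa using ENNReal.Tendsto.mul_const h1 (Or.inr hAtop)
  apply le_zero_iff.1
  refine ge_of_tendsto hlim ?_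
  have h5 : ∀ᶠ t : ℝ in 𝓝 0, t < 1 ∧ D * t < δ := by
    apply Eventually.and
    · exact eventually_lt_nhds one_pos
    · exact (continuous_const.mul continuous_id).continuousAt.eventually_lt continuousAt_const
        (by simpa using hδ)
  filter_upwards [self_mem_nhdsWithin, nhdsWithin_le_nhds h5] with t ht0 ht
  exact main t ht0 ht.1 ht.2

end Pool.Agent.Lib.MP_5ac201_gt
end

-- part Pool.Agent.Lib.MP_5ac201_gt.Strict
section

/-!
Strict gain for configurations on which the midpoint function is not linear.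
-/

set_option linter.unusedSectionVars false

namespace Pool.Agent.Lib.MP_5ac201_gt

open MeasureTheory Set Module Filter
open scoped ENNReal RealInnerProductSpace Pointwise Topology

variable {F : Type} [NormedAddCommGroup F] [InnerProductSpace ℝ F]
  [FiniteDimensional ℝ F] [MeasurableSpace F] [BorelSpace F]

lemma strict_abstract {Q : Set F} (hQ : IsOpen Q) (hsym : ∀ w ∈ Q, -w ∈ Q) (hfin : volume Q ≠ ⊤)
    {z d : F} (hd : ⟪z, d⟫ = 1) {L τ : ℝ} (hτ : 0 < τ) (hτL : τ < L)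
    (h1 : ∀ w ∈ Q, L ≤ ⟪z, w⟫ → w - τ • d ∈ Q) {O : Set F} (hO : IsOpen O) (hne : O.Nonempty)
    (hOQ : ∀ w ∈ O, w ∈ Q ∧ L - τ < ⟪z, w⟫ ∧ ⟪z, w⟫ < L ∧ w + τ • d ∉ Q) :
    volume {w | w ∈ Q ∧ |⟪z, w⟫ + τ| < L} < volume {w | w ∈ Q ∧ |⟪z, w⟫| < L} := by
  let X : Set F := {w | w ∈ Q ∧ -L < ⟪z, w⟫ ∧ ⟪z, w⟫ < L - τ}
  let Y : Set F := {w | w ∈ Q ∧ -L - τ < ⟪z, w⟫ ∧ ⟪z, w⟫ ≤ -L}
  let B : Set F := {w | w ∈ Q ∧ L - τ ≤ ⟪z, w⟫ ∧ ⟪z, w⟫ < L ∧ w + τ • d ∈ Q}
  have hz : Measurable fun w : F => ⟪z, w⟫ := (continuous_const.inner continuous_id).measurable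
  have hB : MeasurableSet B :=
    hQ.measurableSet.inter ((measurableSet_le measurable_const hz).inter
      ((measurableSet_lt hz measurable_const).inter
        ((measurable_id.add_const _) hQ.measurableSet)))
  have hYB : volume Y ≤ volume B := by
    rw [← measure_preimage_add_right _ (-(τ • d)) B, ← Measure.measure_neg]
    apply measure_mono
    rintro w ⟨a1, a2, a3⟩
    have e : ⟪z, w + -(τ • d)⟫ = ⟪z, w⟫ - τ := by
      rw [inner_add_right, inner_neg_right, inner_smul_right, hd]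
      ring
    have a4 : w ∈ Q := by simpa using hsym _ a1
    rw [inner_neg_right] at a2 a3
    change w + -(τ • d) ∈ Q ∧ L - τ ≤ ⟪z, w + -(τ • d)⟫ ∧ ⟪z, w + -(τ • d)⟫ < L ∧
      w + -(τ • d) + τ • d ∈ Q
    refine ⟨?_, ?_, ?_, ?_⟩
    · rw [← sub_eq_add_neg]
      exact h1 _ a4 (by linarith)
    · rw [e]; linarith
    · rw [e]; linarith
    · simpa using a4
  have hXB : volume X + volume B ≠ ⊤ :=
    ENNReal.add_ne_top.2 ⟨ne_top_of_le_ne_top hfin (measure_mono fun w hw => hw.1),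
      ne_top_of_le_ne_top hfin (measure_mono fun w hw => hw.1)⟩
  calc _ ≤ volume (X ∪ Y) := by
        apply measure_mono
        rintro w ⟨a1, a2⟩
        rw [abs_lt] at a2
        by_cases h : -L < ⟪z, w⟫
        · exact Or.inl ⟨a1, h, by linarith [a2.2]⟩
        · exact Or.inr ⟨a1, by linarith [a2.1], not_lt.1 h⟩
    _ ≤ volume X + volume Y := measure_union_le _ _
    _ ≤ volume X + volume B := by gcongr
    _ < volume X + volume B + volume O :=
        ENNReal.lt_add_right hXB (hO.measure_ne_zero _ hne)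
    _ = volume (X ∪ B ∪ O) := by
        rw [measure_union _ hO.measurableSet, measure_union _ hB]
        · rw [Set.disjoint_left]
          rintro w ⟨-, -, a⟩ ⟨-, b, -⟩
          linarith
        · rw [Set.disjoint_left]
          rintro w (⟨-, -, a⟩ | ⟨-, -, -, a⟩) hw
          · linarith [(hOQ w hw).2.1]
          · exact (hOQ w hw).2.2.2 a
    _ ≤ _ := by
        apply measure_mono
        rintro w ((⟨a1, a2, a3⟩ | ⟨a1, a2, a3, -⟩) | hw)
        · exact ⟨a1, abs_lt.2 ⟨a2, by linarith⟩⟩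
        · exact ⟨a1, abs_lt.2 ⟨by linarith, a3⟩⟩
        · obtain ⟨a1, a2, a3, -⟩ := hOQ w hw
          exact ⟨a1, abs_lt.2 ⟨by linarith, a3⟩⟩

lemma box_strict {m : ℕ} (b : Basis (Fin m) ℝ F) {i0 i1 : Fin m} (hi : i0 ≠ i1)
    {r a : Fin m → ℝ} {L τ : ℝ} (hr : ∀ i, 0 < r i) (ha0 : 0 < a i0) (ha1 : 0 < a i1)
    (h1 : |L - a i0 * r i0| < a i1 * r i1) (h2 : |τ| < L)
    (h3 : |τ| + ∑ i, |a i| * r i < L + 2 * (a i0 * r i0)) (hτ : τ ≠ 0) :
    volume {w : F | (∀ i, |⟪b i, w⟫| < r i) ∧ |⟪∑ i, a i • b i, w⟫ + τ| < L} ≠ 0 ∧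
    volume {w : F | (∀ i, |⟪b i, w⟫| < r i) ∧ |⟪∑ i, a i • b i, w⟫ + τ| < L} <
      volume {w : F | (∀ i, |⟪b i, w⟫| < r i) ∧ |⟪∑ i, a i • b i, w⟫| < L} ∧
    volume {w : F | (∀ i, |⟪b i, w⟫| < r i) ∧ |⟪∑ i, a i • b i, w⟫| < L} ≠ ⊤ := by
  classical
  set z := ∑ i, a i • b i with hz
  let M : F →ₗ[ℝ] (Fin m → ℝ) := LinearMap.pi fun i => innerₗ F (b i)
  have hM : ∀ w i, M w i = ⟪b i, w⟫ := fun w i => rfl
  have hinj : Function.Injective M := fun w w' h =>
    InnerProductSpace.ext_inner_left_basis b fun i => by rw [← hM, ← hM, h]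
  have hsurj : Function.Surjective M :=
    (LinearMap.injective_iff_surjective_of_finrank_eq_finrank
      (by rw [finrank_eq_card_basis b]; simp)).1 hinj
  have hzw : ∀ w, ⟪z, w⟫ = ∑ i, a i * ⟪b i, w⟫ := by
    intro w
    rw [hz, sum_inner]
    simp [inner_smul_left]
  let Q : Set F := {w | ∀ i, |⟪b i, w⟫| < r i}
  have hQ : IsOpen Q := by
    have := isOpen_iInter_of_finite fun i : Fin m =>
      isOpen_lt (f := fun w => |⟪b i, w⟫|) (g := fun _ => r i) (by fun_prop) continuous_const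
    rw [← ofPred_forall] at this
    exact this
  have hsym : ∀ w ∈ Q, -w ∈ Q := fun w hw i => by simpa [inner_neg_right] using hw i
  have hfin : volume Q ≠ ⊤ := by
    obtain ⟨K, -, hK⟩ := M.exists_antilipschitzWith (LinearMap.ker_eq_bot.2 hinj)
    have := hK.isBounded_preimage (Metric.isBounded_closedBall (x := 0) (r := ‖r‖))
    refine (this.subset fun w hw => ?_).measure_lt_top.ne
    rw [mem_preimage, mem_closedBall_zero_iff, pi_norm_le_iff_of_nonneg (norm_nonneg _)]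
    intro i
    exact ((hw i).le.trans (le_abs_self _)).trans (norm_le_pi_norm r i)
  have hpos : ∀ σ : ℝ, 0 < σ → σ = |τ| →
      volume {w | w ∈ Q ∧ |⟪z, w⟫ + σ| < L} < volume {w | w ∈ Q ∧ |⟪z, w⟫| < L} := by
    intro σ hσ e
    rw [← e] at h2 h3
    obtain ⟨d, hd⟩ := hsurj (Pi.single i0 (a i0)⁻¹)
    have hd' : ∀ i, ⟪b i, d⟫ = (Pi.single i0 (a i0)⁻¹ : Fin m → ℝ) i := fun i => by
      rw [← hM, hd]
    have hzd : ⟪z, d⟫ = 1 := by
      rw [hzw, Finset.sum_eq_single i0]
      · rw [hd']; simp [ha0.ne']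
      · intro i _ h; rw [hd']; simp [h]
      · simp
    set ε := min (σ / (2 * a i0)) (r i0) with hε
    have hε0 : 0 < ε := lt_min (by positivity) (hr i0)
    have hε1 : a i0 * ε ≤ σ / 2 := by
      have := mul_le_mul_of_nonneg_left (min_le_left (σ / (2 * a i0)) (r i0)) ha0.le
      refine this.trans (le_of_eq ?_)
      field_simp
    have hε2 : ε ≤ r i0 := min_le_right _ _
    obtain ⟨w', hw'⟩ := hsurj (Pi.single i0 (r i0 - ε) +
      Pi.single i1 ((L - a i0 * r i0) / a i1))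
    have hw'' : ∀ i, ⟪b i, w'⟫ = (Pi.single i0 (r i0 - ε) : Fin m → ℝ) i +
        (Pi.single i1 ((L - a i0 * r i0) / a i1) : Fin m → ℝ) i := fun i => by
      rw [← hM, hw']; rfl
    have hzw' : ⟪z, w'⟫ = L - a i0 * ε := by
      rw [hzw]
      simp only [hw'', mul_add, Finset.sum_add_distrib, Pi.single_apply, mul_ite, mul_zero,
        Finset.sum_ite_eq', Finset.mem_univ, if_true]
      field_simp
      ring
    refine strict_abstract hQ hsym hfin hzd hσ h2 ?_
      (O := {w | w ∈ Q ∧ L - σ < ⟪z, w⟫ ∧ ⟪z, w⟫ < L ∧ r i0 < ⟪b i0, w⟫ + σ * (a i0)⁻¹})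
      ?_ ⟨w', ?_, ?_, ?_, ?_⟩ ?_
    · intro w hw hL i
      rw [inner_sub_right, inner_smul_right, hd']
      rcases eq_or_ne i i0 with rfl | h
      · rw [Pi.single_eq_same, abs_lt]
        have g1 : ∑ j, a j * ⟪b j, w⟫ = a i * ⟪b i, w⟫ +
            ∑ j ∈ Finset.univ.erase i, a j * ⟪b j, w⟫ :=
          (Finset.add_sum_erase _ (fun j => a j * ⟪b j, w⟫) (Finset.mem_univ i)).symm
        have g2 : ∑ j, |a j| * r j = |a i| * r i + ∑ j ∈ Finset.univ.erase i, |a j| * r j :=
          (Finset.add_sum_erase _ (fun j => |a j| * r j) (Finset.mem_univ i)).symm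
        have g3 : ∑ j ∈ Finset.univ.erase i, a j * ⟪b j, w⟫ ≤
            ∑ j ∈ Finset.univ.erase i, |a j| * r j := by
          apply Finset.sum_le_sum
          intro j _
          refine (le_abs_self _).trans ?_
          rw [abs_mul]
          exact mul_le_mul_of_nonneg_left (hw j).le (abs_nonneg _)
        rw [abs_of_pos ha0] at g2
        rw [hzw] at hL
        have g4 : 0 < σ * (a i)⁻¹ := by positivity
        refine ⟨?_, by linarith [(abs_lt.1 (hw i)).2]⟩
        apply lt_of_mul_lt_mul_left _ ha0.le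
        have g5 : a i * (⟪b i, w⟫ - σ * (a i)⁻¹) = a i * ⟪b i, w⟫ - σ := by field_simp
        rw [g5]
        linarith
      · simpa [h] using hw i
    · have c1 : Continuous fun w : F => ⟪z, w⟫ := by fun_prop
      have c2 : Continuous fun w : F => ⟪b i0, w⟫ + σ * (a i0)⁻¹ := by fun_prop
      exact hQ.inter ((isOpen_lt continuous_const c1).inter
        ((isOpen_lt c1 continuous_const).inter (isOpen_lt continuous_const c2)))
    · intro i
      rw [hw'']
      rcases eq_or_ne i i0 with rfl | h0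
      · rw [Pi.single_eq_same, Pi.single_eq_of_ne hi, add_zero, abs_lt]
        constructor <;> linarith [hr i]
      rcases eq_or_ne i i1 with rfl | h1'
      · rw [Pi.single_eq_same, Pi.single_eq_of_ne h0, zero_add, abs_div, abs_of_pos ha1,
          div_lt_iff₀ ha1, mul_comm (r i)]
        exact h1
      · rw [Pi.single_eq_of_ne h0, Pi.single_eq_of_ne h1']
        simpa using hr i
    · rw [hzw']; linarith
    · rw [hzw']
      have : 0 < a i0 * ε := by positivity
      linarith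
    · rw [hw'', Pi.single_eq_same, Pi.single_eq_of_ne hi, add_zero]
      have : ε < σ * (a i0)⁻¹ := by
        rw [← div_eq_mul_inv, lt_div_iff₀ ha0]
        linarith
      linarith
    · rintro w ⟨g1, g2, g3, g4⟩
      refine ⟨g1, g2, g3, fun h => ?_⟩
      have := h i0
      rw [inner_add_right, inner_smul_right, hd', Pi.single_eq_same] at this
      linarith [(abs_lt.1 this).2]
  refine ⟨?_, ?_, ne_top_of_le_ne_top hfin (measure_mono fun w hw => hw.1)⟩
  · refine IsOpen.measure_ne_zero _ (hQ.inter (isOpen_lt (f := fun w => |⟪z, w⟫ + τ|)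
      (by fun_prop) continuous_const)) ⟨0, fun i => ?_, ?_⟩
    · simpa using hr i
    · simpa using h2
  · rcases hτ.lt_or_gt with h | h
    · have := hpos (-τ) (by linarith) (abs_of_neg h).symm
      refine lt_of_eq_of_lt ?_ this
      rw [← Measure.measure_neg]
      congr 1
      ext w
      simp only [Set.mem_neg, mem_ofPred_eq, inner_neg_right, abs_neg]
      rw [← abs_neg (-⟪z, w⟫ + τ), neg_add, neg_neg]
      rfl
    · exact hpos τ h (abs_of_pos h).symm

lemma V_eq_box (c l : F → ℝ) {m : ℕ} (b : Basis (Fin m) ℝ F) (a : Fin m → ℝ) (s : ℝ) :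
    V c l (b, ∑ i, a i • b i) s = volume {w : F | (∀ i, |⟪b i, w⟫| < l (b i)) ∧
      |⟪∑ i, a i • b i, w⟫ + s * (c (∑ i, a i • b i) - ∑ i, a i * c (b i))| <
        l (∑ i, a i • b i)} := by
  let M : F →ₗ[ℝ] (Fin m → ℝ) := LinearMap.pi fun i => innerₗ F (b i)
  have hM : ∀ w i, M w i = ⟪b i, w⟫ := fun w i => rfl
  have hinj : Function.Injective M := fun w w' h =>
    InnerProductSpace.ext_inner_left_basis b fun i => by rw [← hM, ← hM, h]
  have hsurj : Function.Surjective M :=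
    (LinearMap.injective_iff_surjective_of_finrank_eq_finrank
      (by rw [finrank_eq_card_basis b]; simp)).1 hinj
  obtain ⟨e, he⟩ := hsurj fun i => c (b i)
  have he' : ∀ i, ⟪b i, e⟫ = c (b i) := fun i => by rw [← hM, he]
  have hze : ⟪∑ i, a i • b i, e⟫ = ∑ i, a i * c (b i) := by
    rw [sum_inner]
    simp [inner_smul_left, he']
  rw [V, ← measure_preimage_add_right _ (-(s • e))]
  congr 1
  ext w
  simp only [slab, mem_preimage, mem_ofPred_eq, inner_add_right, inner_neg_right,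
    inner_smul_right, he', hze]
  refine and_congr (forall_congr' fun i => ?_) ?_
  · rw [← abs_neg]
    congr! 2
    ring
  · rw [← abs_neg]
    congr! 2
    ring

/-- The open conditions on a configuration. -/
def Good (c l : F → ℝ) {m : ℕ} (i0 i1 : Fin m) (x : (Fin m → F) × (Fin m → ℝ)) : Prop :=
  (∀ i, 0 < l (x.1 i)) ∧ 0 < l (∑ i, x.2 i • x.1 i) ∧ 0 < x.2 i0 ∧ 0 < x.2 i1 ∧
  |l (∑ i, x.2 i • x.1 i) - x.2 i0 * l (x.1 i0)| < x.2 i1 * l (x.1 i1) ∧
  |c (∑ i, x.2 i • x.1 i) - ∑ i, x.2 i * c (x.1 i)| < l (∑ i, x.2 i • x.1 i) ∧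
  |c (∑ i, x.2 i • x.1 i) - ∑ i, x.2 i * c (x.1 i)| + ∑ i, |x.2 i| * l (x.1 i) <
    l (∑ i, x.2 i • x.1 i) + 2 * (x.2 i0 * l (x.1 i0))

lemma gain_ne_zero {c l : F → ℝ} {m : ℕ} (b : Basis (Fin m) ℝ F) {i0 i1 : Fin m} (hi : i0 ≠ i1)
    {a : Fin m → ℝ} (hg : Good c l i0 i1 (b, a))
    (hτ : c (∑ i, a i • b i) - ∑ i, a i * c (b i) ≠ 0) :
    V c l (b, ∑ i, a i • b i) 1 * (V c l (b, ∑ i, a i • b i) 0 - V c l (b, ∑ i, a i • b i) 1) /
      V c l (b, ∑ i, a i • b i) 0 ≠ 0 := by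
  obtain ⟨g1, -, g3, g4, g5, g6, g7⟩ := hg
  obtain ⟨k1, k2, k3⟩ := box_strict b hi g1 g3 g4 g5 g6 g7 hτ
  rw [V_eq_box, V_eq_box]
  simp only [one_mul, zero_mul, add_zero]
  rw [Ne, ENNReal.div_eq_zero_iff, mul_eq_zero, tsub_eq_zero_iff_le]
  rintro ((h | h) | h)
  · exact k1 h
  · exact absurd k2 (not_lt.2 h)
  · exact k3 h

end Pool.Agent.Lib.MP_5ac201_gt
end

-- part Pool.Agent.Lib.MP_5ac201_gt.Linear
section

/-!
For a stationary body the midpoints of parallel chords lie in a hyperplane.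
-/

set_option linter.unusedSectionVars false

namespace Pool.Agent.Lib.MP_5ac201_gt

open MeasureTheory Set Module Filter
open scoped ENNReal RealInnerProductSpace Pointwise Topology

variable {E : Type} [NormedAddCommGroup E] [InnerProductSpace ℝ E]
  [FiniteDimensional ℝ E] [MeasurableSpace E] [BorelSpace E]
variable {F : Type} [NormedAddCommGroup F] [InnerProductSpace ℝ F]
  [FiniteDimensional ℝ F] [MeasurableSpace F] [BorelSpace F]

lemma linear_ext_of_eventually {L L' : F →ₗ[ℝ] ℝ} {x : F} (h : ∀ᶠ y in 𝓝 x, L y = L' y) :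
    L = L' := by
  ext v
  have h0 : L x = L' x := h.self_of_nhds
  have hc : Tendsto (fun t : ℝ => x + t • v) (𝓝 0) (𝓝 x) := by
    have : Continuous fun t : ℝ => x + t • v := by fun_prop
    simpa using this.tendsto 0
  obtain ⟨t, ht, h1⟩ := (hc.eventually h).exists_gt
  rw [map_add, map_add, h0, add_right_inj, map_smul, map_smul] at h1
  exact smul_right_injective ℝ ht.ne' h1

namespace Chord

variable {C : Chart F E} {p : E → ℝ} {c l : F → ℝ} (h : Chord C p c l)
include h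

lemma good_eventually {m : ℕ} {i0 i1 : Fin m} {x0 : (Fin m → F) × (Fin m → ℝ)}
    (hg : Good c l i0 i1 x0) : (∀ᶠ x in 𝓝 x0, Good c l i0 i1 x) ∧
      ContinuousAt (fun x : (Fin m → F) × (Fin m → ℝ) =>
        c (∑ i, x.2 i • x.1 i) - ∑ i, x.2 i * c (x.1 i)) x0 := by
  obtain ⟨g1, g2, g3, g4, g5, g6, g7⟩ := hg
  have hy : ∀ i, ContinuousAt (fun x : (Fin m → F) × (Fin m → ℝ) => x.1 i) x0 := fun i => by
    fun_prop
  have ha : ∀ i, ContinuousAt (fun x : (Fin m → F) × (Fin m → ℝ) => x.2 i) x0 := fun i => by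
    fun_prop
  have hz : ContinuousAt (fun x : (Fin m → F) × (Fin m → ℝ) => ∑ i, x.2 i • x.1 i) x0 := by
    fun_prop
  have hl : ∀ i, ContinuousAt (fun x : (Fin m → F) × (Fin m → ℝ) => l (x.1 i)) x0 := fun i =>
    ContinuousAt.comp (h.cl.continuousAt (h.isOpen.mem_nhds (g1 i))) (hy i)
  have hc : ∀ i, ContinuousAt (fun x : (Fin m → F) × (Fin m → ℝ) => c (x.1 i)) x0 := fun i =>
    ContinuousAt.comp (h.cc.continuousAt (h.isOpen.mem_nhds (g1 i))) (hy i)
  have hlz : ContinuousAt (fun x : (Fin m → F) × (Fin m → ℝ) => l (∑ i, x.2 i • x.1 i)) x0 :=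
    ContinuousAt.comp (h.cl.continuousAt (h.isOpen.mem_nhds g2)) hz
  have hcz : ContinuousAt (fun x : (Fin m → F) × (Fin m → ℝ) => c (∑ i, x.2 i • x.1 i)) x0 :=
    ContinuousAt.comp (h.cc.continuousAt (h.isOpen.mem_nhds g2)) hz
  have hτ : ContinuousAt (fun x : (Fin m → F) × (Fin m → ℝ) =>
      c (∑ i, x.2 i • x.1 i) - ∑ i, x.2 i * c (x.1 i)) x0 :=
    hcz.sub (tendsto_finsetSum _ fun i _ => (ha i).mul (hc i))
  have hS : ContinuousAt (fun x : (Fin m → F) × (Fin m → ℝ) => ∑ i, |x.2 i| * l (x.1 i)) x0 :=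
    tendsto_finsetSum _ fun i _ => (ha i).abs.mul (hl i)
  refine ⟨?_, hτ⟩
  refine (eventually_all.2 fun i => continuousAt_const.eventually_lt (hl i) (g1 i)).and
    ((continuousAt_const.eventually_lt hlz g2).and
    ((continuousAt_const.eventually_lt (ha i0) g3).and
    ((continuousAt_const.eventually_lt (ha i1) g4).and
    (((hlz.sub ((ha i0).mul (hl i0))).abs.eventually_lt ((ha i1).mul (hl i1)) g5).and
    ((hτ.abs.eventually_lt hlz g6).and
    ((hτ.abs.add hS).eventually_lt (hlz.add (((ha i0).mul (hl i0)).const_mul 2)) g7))))))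

lemma eq_of_good {m : ℕ} (hm : m = finrank ℝ F)
    (hae : ∀ᵐ z : (Fin m → F) × F, V c l z 1 * (V c l z 0 - V c l z 1) / V c l z 0 = 0)
    {i0 i1 : Fin m} (hi : i0 ≠ i1) {y0 : Fin m → F} (hy0 : LinearIndependent ℝ y0)
    {a0 : Fin m → ℝ} (hg : Good c l i0 i1 (y0, a0)) :
    c (∑ i, a0 i • y0 i) = ∑ i, a0 i * c (y0 i) := by
  by_contra hne
  rw [← Ne, ← sub_ne_zero] at hne
  obtain ⟨h1, h2⟩ := h.good_eventually hg
  have h3 := (h1.and (h2.eventually_ne hne)).curry_nhds
  have h4 := h3.and hy0.eventually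
  rw [Measure.volume_eq_prod] at hae
  obtain ⟨y, hy3, hy1, hy2⟩ :=
    (Measure.dense_of_ae (Measure.ae_ae_of_ae_prod hae)).inter_nhds_nonempty h4
  let b := basisOfLinearIndependentOfCardEqFinrank' y hy2 (by simpa using hm)
  have hb : ⇑b = y := coe_basisOfLinearIndependentOfCardEqFinrank' ..
  have hopen : IsOpenMap b.equivFun.symm :=
    LinearMap.isOpenMap_of_finiteDimensional (b.equivFun.symm : (Fin m → ℝ) →ₗ[ℝ] F)
      b.equivFun.symm.surjective
  obtain ⟨z, hz, a, ⟨ha1, ha2⟩, rfl⟩ :=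
    (Measure.dense_of_ae hy3).inter_nhds_nonempty (hopen.image_mem_nhds hy1)
  rw [Basis.equivFun_symm_apply] at hz
  rw [← hb] at ha1 ha2 hz
  exact gain_ne_zero b hi ha1 ha2 hz

lemma local_linear (h2 : 2 ≤ finrank ℝ F)
    (hae : ∀ᵐ z : (Fin (finrank ℝ F) → F) × F,
      V c l z 1 * (V c l z 0 - V c l z 1) / V c l z 0 = 0)
    {z : F} (hz0 : z ≠ 0) (hz : 0 < l z) : ∃ L : F →ₗ[ℝ] ℝ, ∀ᶠ y in 𝓝 z, c y = L y := by
  classical
  set m := finrank ℝ F with hm
  let i0 : Fin m := ⟨0, by omega⟩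
  let i1 : Fin m := ⟨1, by omega⟩
  have hi : i0 ≠ i1 := by simp [i0, i1]
  obtain ⟨b, hb⟩ : ∃ b : Basis (Fin m) ℝ F, b i0 = z := by
    obtain ⟨A, hA⟩ := SeparatingDual.exists_continuousLinearEquiv_apply_eq (R := ℝ)
      ((finBasis ℝ F).ne_zero i0) hz0
    exact ⟨(finBasis ℝ F).map A.toLinearEquiv, hA⟩
  have hl0 := h.pos
  have hc0 : c 0 = 0 := by
    have := h.odd 0
    rw [neg_zero] at this
    linarith
  set a : ℝ := l z / l 0 with ha
  have ha0 : 0 < a := by positivity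
  have hal : a * l 0 = l z := by rw [ha]; field_simp
  let y : ℝ → Fin m → F := fun ε => Function.update (fun i => ε • b i) i0 (z - (a * ε) • b i1)
  let a0 : Fin m → ℝ := Pi.single i0 1 + Pi.single i1 a
  have e0 : a0 i0 = 1 := by simp [a0, hi]
  have e1 : a0 i1 = a := by simp [a0, hi.symm]
  have hsum : ∀ {M : Type} [AddCommGroup M] [Module ℝ M] (v : Fin m → M),
      ∑ i, a0 i • v i = v i0 + a • v i1 := by
    intro M _ _ v
    simp [a0, add_smul, Finset.sum_add_distrib, Pi.single_apply]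
  have y0 : ∀ ε, y ε i0 = z - (a * ε) • b i1 := fun ε => Function.update_self ..
  have y1 : ∀ ε i, i ≠ i0 → y ε i = ε • b i := fun ε i hi => Function.update_of_ne hi ..
  have hz' : ∀ ε, ∑ i, a0 i • y ε i = z := by
    intro ε
    rw [hsum, y0, y1 ε i1 hi.symm, smul_smul, sub_add_cancel]
  have hgood : Good c l i0 i1 (y 0, a0) := by
    have k0 : y 0 i0 = z := by simp [y0]
    have k1 : y 0 i1 = 0 := by simp [y1 0 i1 hi.symm]
    have k2 : ∑ i, a0 i * c (y 0 i) = c z := by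
      have := hsum fun i => c (y 0 i)
      simp only [smul_eq_mul] at this
      rw [this, k0, k1, hc0]
      simp
    have k3 : ∑ i, |a0 i| * l (y 0 i) = l z + l z := by
      have := hsum fun i => l (y 0 i)
      simp only [smul_eq_mul] at this
      rw [k0, k1, hal] at this
      rw [← this]
      refine Finset.sum_congr rfl fun i _ => ?_
      rw [abs_of_nonneg]
      simp only [a0, Pi.add_apply, Pi.single_apply]
      split_ifs <;> positivity
    refine ⟨fun i => ?_, ?_, ?_, ?_, ?_, ?_, ?_⟩ <;>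
      simp only [hz', k0, k1, k2, k3, e0, e1, hal]
    · rcases eq_or_ne i i0 with rfl | hi'
      · rwa [k0]
      · simpa [y1 0 i hi'] using hl0
    · exact hz
    · exact one_pos
    · exact ha0
    · simpa using hz
    · simpa using hz
    · simp only [sub_self, abs_zero]
      linarith
  have hcont : Tendsto (fun ε => (y ε, a0)) (𝓝 0) (𝓝 (y 0, a0)) := by
    have : Continuous fun ε => (y ε, a0) := by
      refine Continuous.prodMk ?_ continuous_const
      exact Continuous.update (by fun_prop) _ (by fun_prop)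
    exact this.tendsto 0
  obtain ⟨ε, hε, hgε⟩ := (hcont.eventually (h.good_eventually hgood).1).exists_gt
  have hli : LinearIndependent ℝ (y ε) := by
    rw [Fintype.linearIndependent_iff]
    intro g hg
    have g0 : g i0 = 0 := by
      have := congrArg (b.coord i0) hg
      rw [map_sum, map_zero, Finset.sum_eq_single i0] at this
      · simpa [y0, ← hb, hi.symm] using this
      · intro i _ hi'
        simp [y1 ε i hi', hi']
      · simp
    have g1 : ∑ i, (g i * ε) • b i = 0 := by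
      rw [← hg]
      refine Finset.sum_congr rfl fun i _ => ?_
      rcases eq_or_ne i i0 with rfl | hi'
      · simp [g0]
      · rw [y1 ε i hi', smul_smul]
    intro i
    have := Fintype.linearIndependent_iff.1 b.linearIndependent _ g1 i
    exact (mul_eq_zero.1 this).resolve_right hε.ne'
  let B := basisOfLinearIndependentOfCardEqFinrank' (y ε) hli (by simpa using hm)
  have hB : ⇑B = y ε := coe_basisOfLinearIndependentOfCardEqFinrank' ..
  refine ⟨B.constr ℝ fun i => c (y ε i), ?_⟩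
  have hopen : IsOpenMap B.equivFun.symm :=
    LinearMap.isOpenMap_of_finiteDimensional (B.equivFun.symm : (Fin m → ℝ) →ₗ[ℝ] F)
      B.equivFun.symm.surjective
  have h5 : ∀ᶠ a' in 𝓝 a0, Good c l i0 i1 (y ε, a') :=
    (h.good_eventually hgε).1.curry_nhds.self_of_nhds
  have h6 := hopen.image_mem_nhds h5
  rw [Basis.equivFun_symm_apply, hB, hz'] at h6
  filter_upwards [h6]
  rintro _ ⟨a', ha', rfl⟩
  have := h.eq_of_good hm hae hi hli ha'
  rw [Basis.equivFun_symm_apply, map_sum]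
  simp only [map_smul, Basis.constr_basis, smul_eq_mul]
  rw [hB]
  exact this

lemma global_linear (h2 : 2 ≤ finrank ℝ F)
    (hae : ∀ᵐ z : (Fin (finrank ℝ F) → F) × F,
      V c l z 1 * (V c l z 0 - V c l z 1) / V c l z 0 = 0) :
    ∃ L : F →ₗ[ℝ] ℝ, ∀ y, 0 < l y → c y = L y := by
  have : Nontrivial F := finrank_pos_iff.1 (show 0 < finrank ℝ F by omega)
  let P : F → F → Prop := fun x y => ∀ L : F →ₗ[ℝ] ℝ,
    (∀ᶠ w in 𝓝 x, c w = L w) → ∀ᶠ w in 𝓝 y, c w = L w
  have hseg : ∀ x y, 0 < l x → 0 < l y → 0 ∉ segment ℝ x y → P x y := by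
    intro x y hx hy h0
    refine (convex_segment x y).isPreconnected.induction₂' P (fun w hw => ?_)
      (fun _ _ _ _ _ _ h1 h2 L hL => h2 L (h1 L hL)) (left_mem_segment ℝ x y)
      (right_mem_segment ℝ x y)
    obtain ⟨L, hL⟩ := h.local_linear h2 hae (z := w) (by rintro rfl; exact h0 hw)
      (h.convex.segment_subset hx hy hw)
    apply nhdsWithin_le_nhds
    filter_upwards [hL.eventually_nhds] with v hv
    constructor
    · intro L' hL'
      have : L = L' := linear_ext_of_eventually (x := w) (by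
        filter_upwards [hL, hL'] with u h1 h2
        rw [← h1, h2])
      exact this ▸ hv
    · intro L' hL'
      have : L = L' := linear_ext_of_eventually (x := v) (by
        filter_upwards [hv, hL'] with u h1 h2
        rw [← h1, h2])
      exact this ▸ hL
  obtain ⟨z0, hz1, hz0⟩ : ∃ z0 : F, 0 < l z0 ∧ z0 ≠ 0 := by
    obtain ⟨z0, hz⟩ := (dense_compl_singleton (0 : F)).inter_nhds_nonempty
      (h.isOpen.mem_nhds h.pos)
    exact ⟨z0, hz.2, hz.1⟩
  obtain ⟨L, hL⟩ := h.local_linear h2 hae hz0 hz1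
  have hL' : ∀ᶠ w in 𝓝 (-z0), c w = L w := by
    have : Tendsto (fun w : F => -w) (𝓝 (-z0)) (𝓝 z0) := by
      simpa using (continuous_neg (G := F)).tendsto (-z0)
    filter_upwards [this.eventually hL] with w hw
    rw [h.odd, map_neg] at hw
    exact neg_injective hw
  refine ⟨L, fun y hy => ?_⟩
  rcases eq_or_ne y 0 with rfl | hy0
  · have := h.odd 0
    rw [neg_zero] at this
    rw [map_zero]
    linarith
  by_cases hs : 0 ∈ segment ℝ z0 y
  · refine (hseg (-z0) y (by rwa [h.even]) hy ?_ L hL').self_of_nhds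
    rintro ⟨a', b', ha', hb', hab', e'⟩
    obtain ⟨a, b, ha, hb, hab, e⟩ := hs
    have e2 : (a' * b + a * b') • y = 0 := by
      calc _ = a' • (a • z0 + b • y) + a • (a' • -z0 + b' • y) := by module
        _ = 0 := by rw [e, e']; simp
    have e3 : a' * b + a * b' = 0 := (smul_eq_zero.1 e2).resolve_right hy0
    have e4 : a * b' = 0 := by nlinarith [mul_nonneg ha' hb, mul_nonneg ha hb']
    rcases mul_eq_zero.1 e4 with rfl | rfl
    · rw [zero_add] at hab
      apply hy0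
      simpa [hab] using e
    · rw [add_zero] at hab'
      apply hz0
      simpa [hab'] using e'
  · exact (hseg z0 y hz1 hy hs L hL).self_of_nhds

end Chord

lemma IsNorm.le_of_ob {p q : E → ℝ} (hp : IsNorm p) (hq : IsNorm q)
    (h : ∀ x, p x < 1 → q x < 1) (x : E) : q x ≤ p x := by
  apply le_of_forall_pos_le_add
  intro ε hε
  have h0 := hp.nonneg x
  have h1 := h ((p x + ε)⁻¹ • x) (by
    rw [hp.smul_of_nonneg (by positivity), inv_mul_lt_iff₀ (by positivity)]
    linarith)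
  rw [hq.smul_of_nonneg (by positivity), inv_mul_lt_iff₀ (by positivity), mul_one] at h1
  exact h1.le

/-- A stationary body has an affine reflection symmetry in every direction. -/
theorem IsNorm.reflection {p : E → ℝ} (hp : IsNorm p) (hE : 3 ≤ finrank ℝ E)
    (hst : vol p ^ (finrank ℝ E - 1) * vol (MP_5ac201_gt.Ip (MP_5ac201_gt.Ip p)) ≤
      vol (MP_5ac201_gt.Ip p) ^ finrank ℝ E) (u : E) (hu : ‖u‖ = 1) :
    ∃ φ : E →ₗ[ℝ] ℝ, φ u = 2 ∧ ∀ x, p x < 1 → p (x - φ x • u) < 1 := by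
  obtain ⟨C, hC⟩ := exists_chart u hu
  have hr := finrank_orth u hu
  have h2 : 2 ≤ finrank ℝ (ℝ ∙ u)ᗮ := by omega
  have : Nontrivial (ℝ ∙ u)ᗮ := finrank_pos_iff.1 (show 0 < finrank ℝ (ℝ ∙ u)ᗮ by omega)
  obtain ⟨c, l, h⟩ := C.exists_chord hp
  rw [← hr, Nat.add_sub_cancel] at hst
  obtain ⟨L, hL⟩ := h.global_linear h2 (h.ae_gain hp hst)
  have hu' : C.Ψ (0, 1) = u := by rw [hC]; simp
  refine ⟨((2 : ℝ) • (LinearMap.snd ℝ _ ℝ - L ∘ₗ LinearMap.fst ℝ _ ℝ)) ∘ₗ
    (C.Ψ.symm : E →ₗ[ℝ] (ℝ ∙ u)ᗮ × ℝ), ?_, fun x hx => ?_⟩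
  · have : C.Ψ.symm u = (0, 1) := by rw [ContinuousLinearEquiv.symm_apply_eq, hu']
    simp [this]
  · obtain ⟨⟨y, s⟩, rfl⟩ := C.Ψ.surjective x
    have e : C.Ψ (y, s) - (2 * (s - L y)) • C.Ψ (0, 1) = C.Ψ (y, 2 * L y - s) := by
      rw [← map_smul, ← map_sub]
      congr 1
      ext
      · simp
      · simp only [Prod.smul_mk, smul_eq_mul, Prod.mk_sub_mk]
        ring
    rw [hu'] at e
    rw [h.mem] at hx
    have hy := hL y ((abs_nonneg _).trans_lt hx)
    have : p (C.Ψ (y, 2 * L y - s)) < 1 := by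
      rw [h.mem, hy, ← abs_neg]
      rw [hy] at hx
      convert hx using 2
      ring
    rw [← e] at this
    simpa using this

end Pool.Agent.Lib.MP_5ac201_gt
end
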