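import Pool.Agent.Lib.MP_5ac201_gt.Linear
import Pool.Agent.Lib.MP_5ac201_gt.Compact
import Pool.Agent.Lib.MP_5ac201_gt.Defs

-- part Pool.Agent.Lib.MP_5ac201_gt.Ellipsoid
section

/-!
A norm with an affine reflection symmetry in every direction is Euclidean.
-/

set_option linter.unusedSectionVars false

namespace Pool.Agent.Lib.MP_5ac201_gt

open MeasureTheory Set Module Filter
open scoped ENNReal RealInnerProductSpace Pointwise Topology

variable {E : Type} [NormedAddCommGroup E] [InnerProductSpace ℝ E]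
  [FiniteDimensional ℝ E] [MeasurableSpace E] [BorelSpace E]

lemma exists_sqrt_form (B : LinearMap.BilinForm ℝ E) (hs : ∀ x y, B x y = B y x)
    (hpos : ∀ x, x ≠ 0 → 0 < B x x) : ∃ T : E ≃ₗ[ℝ] E, ∀ x, ‖T x‖ ^ 2 = B x x := by
  obtain ⟨v, hv⟩ := LinearMap.BilinForm.exists_orthogonal_basis (B := B) ⟨fun x y => hs x y⟩
  let e := stdOrthonormalBasis ℝ E
  let T : E →ₗ[ℝ] E := v.constr ℝ fun i => √(B (v i) (v i)) • e i
  have hT : ∀ x y, ⟪T x, T y⟫ = B x y := by
    have : (innerₗ E).compl₁₂ T T = B := by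
      apply LinearMap.ext_basis v v
      intro i j
      simp only [T, LinearMap.compl₁₂_apply, Basis.constr_basis, innerₗ_apply_apply,
        inner_smul_left, inner_smul_right, conj_trivial]
      rcases eq_or_ne i j with rfl | hij
      · rw [real_inner_self_eq_norm_sq, e.orthonormal.1 i, one_pow, mul_one,
          Real.mul_self_sqrt (hpos _ (v.ne_zero i)).le]
      · rw [e.orthonormal.2 hij, hv hij]
        simp
    intro x y
    rw [← this]
    rfl
  have hinj : Function.Injective T := by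
    rw [← LinearMap.ker_eq_bot, LinearMap.ker_eq_bot']
    intro x hx
    by_contra h
    have := hpos x h
    rw [← hT, hx, inner_zero_left] at this
    exact lt_irrefl _ this
  refine ⟨LinearEquiv.ofInjectiveEndo T hinj, fun x => ?_⟩
  rw [← hT, real_inner_self_eq_norm_sq]
  rfl

theorem IsNorm.euclidean {p : E → ℝ} (hp : IsNorm p)
    (h : ∀ u : E, ‖u‖ = 1 → ∃ φ : E →ₗ[ℝ] ℝ, φ u = 2 ∧ ∀ x, p x < 1 → p (x - φ x • u) < 1) :
    ∃ T : E ≃L[ℝ] E, ∀ x, p x = ‖T x‖ := by
  have h' : ∀ v : E, v ≠ 0 →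
      ∃ φ : E →ₗ[ℝ] ℝ, φ v = 2 ∧ ∀ x, p x < 1 → p (x - φ x • v) < 1 := by
    intro v hv
    have hn : 0 < ‖v‖ := norm_pos_iff.2 hv
    obtain ⟨φ, h1, h2⟩ := h (‖v‖⁻¹ • v) (by simp [norm_smul, hn.ne'])
    refine ⟨‖v‖⁻¹ • φ, by simpa using h1, fun x hx => ?_⟩
    have := h2 x hx
    rwa [smul_smul, mul_comm] at this
  let P : Set E := {ξ | ∀ x, p x < 1 → ⟪x, ξ⟫ ≤ 1}
  have hPc : IsCompact P := by
    apply Metric.isCompact_of_isClosed_isBounded
    · have : P = ⋂ x ∈ {x | p x < 1}, {ξ | ⟪x, ξ⟫ ≤ 1} := by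
        ext ξ; simp [P]
      rw [this]
      exact isClosed_biInter fun x _ => isClosed_le (by fun_prop) continuous_const
    · obtain ⟨C, hC0, hC⟩ := hp.exists_upper
      refine (Metric.isBounded_closedBall (x := (0 : E)) (r := 2 * C)).subset fun ξ hξ => ?_
      rw [mem_closedBall_zero_iff]
      rcases eq_or_ne ξ 0 with rfl | h0
      · simpa using hC0.le
      have hn : 0 < ‖ξ‖ := norm_pos_iff.2 h0
      have := hξ ((2 * C * ‖ξ‖)⁻¹ • ξ) (by
        rw [hp.smul_of_nonneg (by positivity), inv_mul_lt_iff₀ (by positivity)]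
        have := hC ξ
        nlinarith [mul_pos hC0 hn])
      rw [inner_smul_left, real_inner_self_eq_norm_sq, conj_trivial,
        inv_mul_le_iff₀ (by positivity)] at this
      nlinarith
  obtain ⟨c, hc0, hc⟩ := hp.exists_lower
  have hPb : Metric.ball (0 : E) c ⊆ P := by
    intro ξ hξ x hx
    rw [mem_ball_zero_iff] at hξ
    refine (real_inner_le_norm _ _).trans ?_
    nlinarith [hc x, norm_nonneg x]
  have hint : ∀ x y : E, IntegrableOn (fun ξ => ⟪x, ξ⟫ * ⟪y, ξ⟫) P := fun x y =>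
    ContinuousOn.integrableOn_compact hPc (by fun_prop)
  let B : LinearMap.BilinForm ℝ E := LinearMap.mk₂ ℝ (fun x y => ∫ ξ in P, ⟪x, ξ⟫ * ⟪y, ξ⟫)
    (fun x x' y => by
      simp only [inner_add_left, add_mul]
      exact integral_add (hint x y) (hint x' y))
    (fun a x y => by
      simp only [inner_smul_left, conj_trivial, mul_assoc, integral_const_mul, smul_eq_mul])
    (fun x y y' => by
      simp only [inner_add_left, mul_add]
      exact integral_add (hint x y) (hint x y'))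
    (fun a x y => by
      simp only [inner_smul_left, conj_trivial, mul_left_comm _ a, integral_const_mul,
        smul_eq_mul])
  have hB : ∀ x y, B x y = ∫ ξ in P, ⟪x, ξ⟫ * ⟪y, ξ⟫ := fun x y => rfl
  have hsym : ∀ x y, B x y = B y x := fun x y => by simp only [hB, mul_comm]
  have hpos : ∀ x, x ≠ 0 → 0 < B x x := by
    intro x hx
    have hn : 0 < ‖x‖ := norm_pos_iff.2 hx
    rw [hB, setIntegral_pos_iff_support_of_nonneg_ae
      (Eventually.of_forall fun ξ => mul_self_nonneg _) (hint x x)]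
    have hO : IsOpen ({ξ : E | 0 < ⟪x, ξ⟫} ∩ Metric.ball 0 c) :=
      (isOpen_lt continuous_const (by fun_prop)).inter Metric.isOpen_ball
    refine (hO.measure_pos volume ⟨(c / 2 * ‖x‖⁻¹) • x, ?_, ?_⟩).trans_le (measure_mono ?_)
    · simp only [mem_ofPred_eq, inner_smul_right, real_inner_self_eq_norm_sq]
      positivity
    · rw [mem_ball_zero_iff, norm_smul, Real.norm_eq_abs, abs_of_pos (by positivity), mul_assoc,
        inv_mul_cancel₀ hn.ne']
      linarith
    · rintro ξ ⟨h1, h2⟩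
      exact ⟨(mul_pos h1 h1).ne', hPb h2⟩
  have hinv : ∀ (v : E) (φ : E →ₗ[ℝ] ℝ), φ v = 2 → (∀ x, p x < 1 → p (x - φ x • v) < 1) →
      ∀ x y, B (x - φ x • v) (y - φ y • v) = B x y := by
    intro v φ h1 h2 x y
    let f := (InnerProductSpace.toDual ℝ E).symm (LinearMap.toContinuousLinearMap φ)
    have hf : ∀ x, ⟪x, f⟫ = φ x := fun x => by
      rw [real_inner_comm, InnerProductSpace.toDual_symm_apply]
      rfl
    let σ : E →ₗ[ℝ] E := LinearMap.id - (innerₗ E v).smulRight f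
    have hσ : ∀ ξ, σ ξ = ξ - ⟪v, ξ⟫ • f := fun ξ => rfl
    have hadj : ∀ x ξ, ⟪x - φ x • v, ξ⟫ = ⟪x, σ ξ⟫ := by
      intro x ξ
      rw [hσ, inner_sub_left, inner_sub_right, inner_smul_left, inner_smul_right, hf, mul_comm]
      rfl
    have hσσ : Function.Involutive σ := by
      intro ξ
      rw [hσ, hσ, inner_sub_right, inner_smul_right, hf, h1]
      module
    have hdet : |(LinearMap.det σ)⁻¹| = 1 := by
      have : σ ∘ₗ σ = LinearMap.id := LinearMap.ext hσσ
      have h3 := congrArg LinearMap.det this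
      rw [LinearMap.det_comp, LinearMap.det_id] at h3
      rw [abs_inv, inv_eq_one, ← sq_eq_sq₀ (abs_nonneg _) zero_le_one, sq_abs, sq, h3, one_pow]
    have hdet0 : LinearMap.det σ ≠ 0 := by
      intro h0
      simp [h0] at hdet
    have hmp : MeasurePreserving σ volume volume :=
      ⟨σ.continuous_of_finiteDimensional.measurable, by
        rw [Measure.map_linearMap_addHaar_eq_smul_addHaar _ hdet0, hdet]; simp⟩
    have hemb : MeasurableEmbedding σ :=
      (LinearEquiv.ofInvolutive σ hσσ).toContinuousLinearEquiv.toHomeomorph.measurableEmbedding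
    have hP1 : ∀ ξ ∈ P, σ ξ ∈ P := fun ξ hξ x hx => by
      rw [← hadj]; exact hξ _ (h2 x hx)
    have hP2 : σ ⁻¹' P = P := by
      ext ξ
      exact ⟨fun h => hσσ ξ ▸ hP1 _ h, hP1 ξ⟩
    have := hmp.setIntegral_preimage_emb hemb (fun ξ => ⟪x, ξ⟫ * ⟪y, ξ⟫) P
    rw [hP2] at this
    rw [hB, hB, ← this]
    simp only [hadj]
  have hle : ∀ x y, B x x = B y y → p y ≤ p x := by
    intro x y hxy
    rcases eq_or_ne (x - y) 0 with h0 | h0
    · rw [sub_eq_zero.1 h0]
    obtain ⟨φ, h1, h2⟩ := h' _ h0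
    set v := x - y with hv
    let ρ : E →ₗ[ℝ] E := LinearMap.id - φ.smulRight v
    have hρ : ∀ z, ρ z = z - φ z • v := fun z => rfl
    have hρρ : Function.Involutive ρ := by
      intro z
      rw [hρ, hρ, map_sub, map_smul, h1, smul_eq_mul]
      module
    have h3 := hp.le_of_ob (hp.comp (LinearEquiv.ofInvolutive ρ hρρ).toContinuousLinearEquiv)
      h2 x
    have h4 := hinv v φ h1 h2 x v
    have h5 : B v v = 2 * B x v := by
      simp only [hv, map_sub, LinearMap.sub_apply, hsym y x]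
      linarith
    have h6 : φ x = 1 := by
      simp only [map_sub, map_smul, LinearMap.sub_apply, LinearMap.smul_apply, h1,
        smul_eq_mul] at h4
      have h7 := hpos v h0
      have : (φ x - 1) * B v v = 0 := by linarith
      have := (mul_eq_zero.1 this).resolve_right h7.ne'
      linarith
    have h7 : x - φ x • v = y := by rw [h6, one_smul, hv, sub_sub_cancel]
    change p (x - φ x • v) ≤ p x at h3
    rwa [h7] at h3
  obtain ⟨T, hT⟩ := exists_sqrt_form B hsym hpos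
  rcases subsingleton_or_nontrivial E with hE | hE
  · refine ⟨ContinuousLinearEquiv.refl ℝ E, fun x => ?_⟩
    rw [Subsingleton.elim x 0]
    simp [hp.zero]
  obtain ⟨x0, hx0⟩ := exists_ne (0 : E)
  have hT0 : 0 < ‖T x0‖ := norm_pos_iff.2 (by rwa [Ne, T.map_eq_zero_iff])
  have hp0 := hp.pos x0 hx0
  have hκ : 0 < p x0 / ‖T x0‖ := by positivity
  refine ⟨(T.trans (LinearEquiv.smulOfNeZero ℝ E _ hκ.ne')).toContinuousLinearEquiv, fun x => ?_⟩
  change _ = ‖(p x0 / ‖T x0‖) • T x‖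
  have e : B x x = B ((‖T x‖ / ‖T x0‖) • x0) ((‖T x‖ / ‖T x0‖) • x0) := by
    rw [← hT, ← hT, map_smul, norm_smul, Real.norm_eq_abs, abs_of_nonneg (by positivity)]
    field_simp
  rw [le_antisymm (hle _ _ e.symm) (hle _ _ e), hp.smul_of_nonneg (by positivity), norm_smul,
    Real.norm_eq_abs, abs_of_pos hκ]
  ring

end Pool.Agent.Lib.MP_5ac201_gt
end

-- part Pool.Agent.Lib.MP_5ac201_gt.LaSalle
section

/-!
Convergence of the iteration for norms.
-/

set_option linter.unusedSectionVars false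

namespace Pool.Agent.Lib.MP_5ac201_gt

open MeasureTheory Set Module Filter
open scoped ENNReal RealInnerProductSpace Pointwise Topology

variable {E : Type} [NormedAddCommGroup E] [InnerProductSpace ℝ E]
  [FiniteDimensional ℝ E] [MeasurableSpace E] [BorelSpace E]

/-- The monotone functional. -/
noncomputable def Phi (p : E → ℝ) : ℝ := vol (Ip p) / vol p ^ (finrank ℝ E - 1)

lemma vol_comp (p : E → ℝ) (T : E ≃L[ℝ] E) :
    vol (fun x => p (T x)) = |LinearMap.det (T : E →ₗ[ℝ] E)|⁻¹ * vol p := by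
  rw [vol, IsNorm.volume_comp, ENNReal.toReal_mul, ENNReal.toReal_ofReal (by positivity), vol]

lemma IsNorm.vol_le {p q : E → ℝ} (hp : IsNorm p) {l : ℝ} (hl : 0 < l)
    (h : ∀ x, p x ≤ l * q x) : vol q ≤ l ^ finrank ℝ E * vol p := by
  have h1 := ENNReal.toReal_mono (hp.volume_ob_ne_top l) (measure_mono (ob_subset hl h))
  rwa [hp.volume_ob hl, ENNReal.toReal_mul, ENNReal.toReal_ofReal (by positivity)] at h1

lemma IsNorm.Phi_pos {p : E → ℝ} (hp : IsNorm p) : 0 < Phi p :=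
  div_pos hp.Ip.vol_pos (pow_pos hp.vol_pos _)

lemma IsNorm.Phi_comp {p : E → ℝ} (hp : IsNorm p) (hE : finrank ℝ E ≠ 0) (T : E ≃L[ℝ] E) :
    Phi (fun x => p (T x)) = Phi p := by
  obtain ⟨S, h1, h2⟩ := hp.Ip_comp hE T
  have hd : 0 < |LinearMap.det (T : E →ₗ[ℝ] E)| := abs_pos.2 (det_ne_zero T)
  have := hp.vol_pos
  rw [Phi, Phi, funext h1, vol_comp, vol_comp, h2, mul_pow, inv_pow]
  field_simp

lemma IsNorm.Phi_le {p q : E → ℝ} (hp : IsNorm p) (hq : IsNorm q) {l : ℝ} (hl : 0 < l)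
    (h : ∀ x, p x ≤ l * q x) (h' : ∀ x, q x ≤ l * p x) :
    Phi p ≤ l ^ (2 * finrank ℝ E * (finrank ℝ E - 1)) * Phi q := by
  have h1 := hq.Ip.vol_le (by positivity) (hq.Ip_le hp hl h')
  have h2 := pow_le_pow_left₀ hq.vol_pos.le (hp.vol_le hl h) (finrank ℝ E - 1)
  have a1 := hp.vol_pos
  have a2 := hq.vol_pos
  have a3 := hq.Ip.vol_pos
  rw [Phi, Phi, ← mul_div_assoc, div_le_div_iff₀ (by positivity) (by positivity)]
  calc _ ≤ ((l ^ (finrank ℝ E - 1)) ^ finrank ℝ E * vol (MP_5ac201_gt.Ip q)) *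
        (l ^ finrank ℝ E * vol p) ^ (finrank ℝ E - 1) := by gcongr
    _ = _ := by ring

lemma IsNorm.Phi_mono {p : E → ℝ} (hp : IsNorm p) (hE : 3 ≤ finrank ℝ E) :
    Phi p ≤ Phi (MP_5ac201_gt.Ip p) := by
  have : Nontrivial E := finrank_pos_iff.1 (show 0 < finrank ℝ E by omega)
  obtain ⟨u, hu⟩ := exists_norm_eq E (zero_le_one' ℝ)
  obtain ⟨C, -⟩ := exists_chart u hu
  have hr := finrank_orth u hu
  have : Nontrivial (ℝ ∙ u)ᗮ := finrank_pos_iff.1 (show 0 < finrank ℝ (ℝ ∙ u)ᗮ by omega)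
  have h := C.lyapunov hp
  have a1 := hp.vol_pos
  have a2 := hp.Ip.vol_pos
  rw [Phi, Phi, div_le_div_iff₀ (by positivity) (by positivity), ← hr, Nat.add_sub_cancel,
    ← pow_succ', mul_comm]
  exact h

lemma IsNorm.euclidean_of_Phi {p : E → ℝ} (hp : IsNorm p) (hE : 3 ≤ finrank ℝ E)
    (h : Phi (MP_5ac201_gt.Ip p) ≤ Phi p) : ∃ T : E ≃L[ℝ] E, ∀ x, p x = ‖T x‖ := by
  apply hp.euclidean
  apply hp.reflection hE
  have a1 := hp.vol_pos
  have a2 := hp.Ip.vol_pos
  rw [Phi, Phi, div_le_div_iff₀ (by positivity) (by positivity), ← pow_succ',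
    Nat.sub_add_cancel (by omega), mul_comm] at h
  exact h

lemma le_of_forall_pow_mul {a b : ℝ} (e : ℕ) (h : ∀ l : ℝ, 1 < l → a ≤ l ^ e * b) : a ≤ b := by
  have hlim : Tendsto (fun l : ℝ => l ^ e * b) (𝓝[>] 1) (𝓝 b) := by
    apply Tendsto.mono_left _ nhdsWithin_le_nhds
    have : Continuous fun l : ℝ => l ^ e * b := by fun_prop
    simpa using this.tendsto 1
  exact ge_of_tendsto hlim (eventually_of_mem self_mem_nhdsWithin h)

lemma IsNorm.iterate {p : E → ℝ} (hp : IsNorm p) (k : ℕ) : IsNorm (MP_5ac201_gt.Ip^[k] p) := by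
  induction k with
  | zero => exact hp
  | succ k ih => rw [Function.iterate_succ_apply']; exact ih.Ip

theorem IsNorm.converges {p : E → ℝ} (hp : IsNorm p) (hE : 3 ≤ finrank ℝ E) {L : ℝ}
    (hL : 1 < L) : ∀ᶠ k in atTop, ∃ T : E ≃L[ℝ] E,
      ∀ x, MP_5ac201_gt.Ip^[k] p x ≤ ‖T x‖ ∧ ‖T x‖ ≤ L * MP_5ac201_gt.Ip^[k] p x := by
  by_contra hcon
  rw [not_eventually, frequently_iff_neBot] at hcon
  obtain ⟨U, hU⟩ := Ultrafilter.exists_le (atTop ⊓ 𝓟 {k | ¬ ∃ T : E ≃L[ℝ] E,
      ∀ x, MP_5ac201_gt.Ip^[k] p x ≤ ‖T x‖ ∧ ‖T x‖ ≤ L * MP_5ac201_gt.Ip^[k] p x})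
  have hU1 : (U : Filter ℕ) ≤ atTop := hU.trans inf_le_left
  have hU2 := le_principal_iff.1 (hU.trans inf_le_right)
  have hE0 : finrank ℝ E ≠ 0 := by omega
  have hP := hp.iterate
  set P : ℕ → E → ℝ := fun k => MP_5ac201_gt.Ip^[k] p with hPdef
  have hsucc : ∀ k, P (k + 1) = MP_5ac201_gt.Ip (P k) := fun k =>
    Function.iterate_succ_apply' ..
  have hmono : Monotone fun k => Phi (P k) := monotone_nat_of_le_succ fun k => by
    rw [hsucc]; exact (hP k).Phi_mono hE
  choose T hT using fun k => (hP k).auerbach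
  obtain ⟨q, hq, hlim⟩ := exists_limit (fun k => (hP k).comp (T k))
    (Nat.cast_pos.2 (by omega)) hT U
  have h1 : ∀ j, Phi (P j) ≤ Phi q := by
    intro j
    apply le_of_forall_pow_mul (2 * finrank ℝ E * (finrank ℝ E - 1))
    intro l hl
    obtain ⟨k, hk1, hk2⟩ := ((hlim l hl).and (hU1 (eventually_ge_atTop j))).exists
    refine (hmono hk2).trans (((hP k).Phi_comp hE0 (T k)).ge.trans ?_)
    exact ((hP k).comp (T k)).Phi_le hq (by linarith) (fun x => (hk1 x).1) fun x => (hk1 x).2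
  have h2 : Phi (MP_5ac201_gt.Ip q) ≤ Phi q := by
    apply le_of_forall_pow_mul ((finrank ℝ E - 1) * (2 * finrank ℝ E * (finrank ℝ E - 1)))
    intro l hl
    have hl0 : 0 < l := by linarith
    obtain ⟨k, hk⟩ := (hlim l hl).exists
    have hk' := (hP k).comp (T k)
    have h3 := hq.Ip.Phi_le hk'.Ip (by positivity) (hq.Ip_le hk' hl0 fun x => (hk x).2)
      (hk'.Ip_le hq hl0 fun x => (hk x).1)
    obtain ⟨S, hS, -⟩ := (hP k).Ip_comp hE0 (T k)
    rw [funext hS, (hP k).Ip.Phi_comp hE0, ← pow_mul] at h3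
    refine h3.trans ?_
    have := h1 (k + 1)
    rw [hsucc] at this
    gcongr
  obtain ⟨S, hS⟩ := hq.euclidean_of_Phi hE h2
  have hs : 1 < √L := Real.lt_sqrt_of_sq_lt (by simpa using hL)
  have hs0 : 0 < √L := by linarith
  obtain ⟨k, hk1, hk2⟩ := ((hlim _ hs).and hU2).exists
  apply hk2
  refine ⟨((T k).symm.trans S).trans
    (LinearEquiv.smulOfNeZero ℝ E _ hs0.ne').toContinuousLinearEquiv, fun x => ?_⟩
  obtain ⟨y, rfl⟩ := (T k).surjective x
  have e : ‖(((T k).symm.trans S).trans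
      (LinearEquiv.smulOfNeZero ℝ E _ hs0.ne').toContinuousLinearEquiv) (T k y)‖ = √L * q y := by
    change ‖√L • S ((T k).symm (T k y))‖ = _
    rw [ContinuousLinearEquiv.symm_apply_apply, norm_smul, Real.norm_eq_abs, abs_of_pos hs0, hS]
  rw [e]
  refine ⟨(hk1 y).1, ?_⟩
  have := mul_le_mul_of_nonneg_left (hk1 y).2 hs0.le
  rwa [← mul_assoc, Real.mul_self_sqrt (by linarith)] at this

end Pool.Agent.Lib.MP_5ac201_gt
end

-- part Pool.Agent.Lib.MP_5ac201_gt.Main
section

/-!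
Translation to convex bodies.
-/

set_option linter.unusedSectionVars false

namespace Pool.Agent.Lib.MP_5ac201_gt

open MeasureTheory Set Module Filter
open scoped ENNReal RealInnerProductSpace Pointwise Topology

section General

variable {E : Type} [NormedAddCommGroup E] [InnerProductSpace ℝ E]
  [FiniteDimensional ℝ E] [MeasurableSpace E] [BorelSpace E]

lemma exists_norm_of_body {K : Set E} (hc : IsCompact K) (hconv : Convex ℝ K)
    (hint : (interior K).Nonempty) (hsym : K = -K) :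
    ∃ p : E → ℝ, IsNorm p ∧ K = {x | p x ≤ 1} := by
  have hneg : ∀ x ∈ K, -x ∈ K := fun x hx => by
    rw [hsym] at hx
    exact Set.mem_neg.1 hx
  have h0 : K ∈ 𝓝 (0 : E) := by
    obtain ⟨x, hx⟩ := hint
    have := hconv.combo_interior_self_mem_interior hx (hneg x (interior_subset hx))
      (a := 1 / 2) (b := 1 / 2) (by norm_num) (by norm_num) (by norm_num)
    rw [smul_neg, add_neg_cancel] at this
    exact mem_interior_iff_mem_nhds.1 this
  have habs : Absorbent ℝ K := absorbent_nhds_zero h0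
  have hbal : Balanced ℝ K := (balanced_iff_neg_mem hconv).2 hneg
  refine ⟨gauge K, ⟨gauge_add_le hconv habs, fun c x => ?_, fun x hx => ?_⟩, ?_⟩
  · rw [gauge_smul hbal, Real.norm_eq_abs]
  · exact (gauge_pos habs (NormedSpace.isVonNBounded_of_isBounded ℝ hc.isBounded)).2 hx
  · ext x
    rw [mem_ofPred_eq, gauge_le_one_iff_mem_closure hconv h0, hc.isClosed.closure_eq]

lemma IsNorm.R_closed {p : E → ℝ} (hp : IsNorm p) {v : E} (hv : v ≠ 0) :
    R {x | p x ≤ 1} v = R (ob p 1) v := by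
  refine le_antisymm ?_ (R_mono (fun x hx => show p x ≤ 1 from le_of_lt hx) v)
  have hlim : Tendsto (fun s : ℝ => ENNReal.ofReal (s ^ (finrank ℝ E - 1)) * R (ob p 1) v)
      (𝓝[>] 1) (𝓝 (R (ob p 1) v)) := by
    have h1 : Tendsto (fun s : ℝ => ENNReal.ofReal (s ^ (finrank ℝ E - 1))) (𝓝[>] 1) (𝓝 1) := by
      apply Tendsto.mono_left _ nhdsWithin_le_nhds
      have : Continuous fun s : ℝ => ENNReal.ofReal (s ^ (finrank ℝ E - 1)) :=
        ENNReal.continuous_ofReal.comp (by fun_prop)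
      simpa using this.tendsto 1
    simpa using ENNReal.Tendsto.mul_const h1 (Or.inl one_ne_zero)
  refine ge_of_tendsto hlim ?_
  filter_upwards [self_mem_nhdsWithin] with s hs
  have hs1 : 1 < s := hs
  rw [← hp.R_ob (by linarith) hv]
  exact R_mono (fun x hx => show p x < s from lt_of_le_of_lt (show p x ≤ 1 from hx) hs1) v

end General

lemma intersectionBody_eq {n : ℕ} (hn : 3 ≤ n) {p : EuclideanSpace ℝ (Fin n) → ℝ}
    (hp : IsNorm p) : intersectionBody {x | p x ≤ 1} = {x | Ip p x ≤ 1} := by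
  have hsec : ∀ u, ‖u‖ = 1 → sectionVol {x | p x ≤ 1} u = (Ip p u)⁻¹ := by
    intro u hu
    have hu0 : u ≠ 0 := by rintro rfl; simp at hu
    rw [Ip_of_ne hu0, inv_inv, ← hp.R_closed hu0,
      R_eq_haus (isClosed_le hp.continuous continuous_const).measurableSet hu0, hu]
    simp [sectionVol]
  ext x
  constructor
  · rintro ⟨u, hu, r, hr0, hr, rfl⟩
    have hu0 : u ≠ 0 := by rintro rfl; simp at hu
    rw [hsec u hu, ← one_div, le_div_iff₀ (hp.Ip_pos hu0)] at hr
    rw [mem_ofPred_eq, hp.Ip.smul_of_nonneg hr0]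
    exact hr
  · intro hx
    rcases eq_or_ne x 0 with rfl | hx0
    · have : Nontrivial (EuclideanSpace ℝ (Fin n)) :=
        finrank_pos_iff.1 (show 0 < finrank ℝ (EuclideanSpace ℝ (Fin n)) by simp; omega)
      obtain ⟨u, hu⟩ := exists_norm_eq (EuclideanSpace ℝ (Fin n)) (zero_le_one' ℝ)
      exact ⟨u, hu, 0, le_rfl, ENNReal.toReal_nonneg, by simp⟩
    · have hn : 0 < ‖x‖ := norm_pos_iff.2 hx0
      have hu : ‖‖x‖⁻¹ • x‖ = 1 := by simp [norm_smul, hn.ne']
      have hu0 : ‖x‖⁻¹ • x ≠ 0 := by intro h; simp [h] at hu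
      refine ⟨‖x‖⁻¹ • x, hu, ‖x‖, hn.le, ?_, by simp [smul_smul, hn.ne']⟩
      rw [hsec _ hu, ← one_div, le_div_iff₀ (hp.Ip_pos hu0), ← hp.Ip.eq_norm_mul hx0]
      exact hx

lemma iterate_eq {n : ℕ} (hn : 3 ≤ n) {p : EuclideanSpace ℝ (Fin n) → ℝ} (hp : IsNorm p)
    (k : ℕ) : intersectionBody^[k] {x | p x ≤ 1} = {x | Ip^[k] p x ≤ 1} := by
  induction k with
  | zero => rfl
  | succ k ih =>
    rw [Function.iterate_succ_apply', Function.iterate_succ_apply', ih,
      intersectionBody_eq hn (hp.iterate k)]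

theorem main {n : ℕ} (hn : 3 ≤ n) {K : Set (EuclideanSpace ℝ (Fin n))} (hc : IsCompact K)
    (hconv : Convex ℝ K) (hint : (interior K).Nonempty) (hsym : K = -K) :
    Tendsto (fun m : ℕ => bmDist (intersectionBody^[m] K) (Metric.closedBall 0 1)) atTop
      (𝓝 1) := by
  obtain ⟨p, hp, rfl⟩ := exists_norm_of_body hc hconv hint hsym
  have key : ∀ L : ℝ, 1 < L → ∀ᶠ m in atTop,
      1 ≤ bmDist (intersectionBody^[m] {x | p x ≤ 1}) (Metric.closedBall 0 1) ∧
      bmDist (intersectionBody^[m] {x | p x ≤ 1}) (Metric.closedBall 0 1) ≤ L := by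
    intro L hL
    filter_upwards [hp.converges (by simpa using hn) hL] with m ⟨T, hT⟩
    have hmem : L ∈ {l : ℝ | 1 ≤ l ∧
        ∃ T : EuclideanSpace ℝ (Fin n) ≃ₗ[ℝ] EuclideanSpace ℝ (Fin n),
        Metric.closedBall 0 1 ⊆ T '' intersectionBody^[m] {x | p x ≤ 1} ∧
        T '' intersectionBody^[m] {x | p x ≤ 1} ⊆ l • Metric.closedBall 0 1} := by
      refine ⟨hL.le, T.toLinearEquiv, fun y hy => ?_, ?_⟩
      · obtain ⟨x, rfl⟩ := T.surjective y
        refine ⟨x, ?_, rfl⟩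
        rw [iterate_eq hn hp]
        exact (hT x).1.trans (mem_closedBall_zero_iff.1 hy)
      · rintro _ ⟨x, hx, rfl⟩
        rw [iterate_eq hn hp] at hx
        rw [smul_unitClosedBall_of_nonneg (by linarith), mem_closedBall_zero_iff]
        exact (hT x).2.trans (mul_le_of_le_one_right (by linarith) hx)
    exact ⟨le_csInf ⟨L, hmem⟩ fun l hl => hl.1, csInf_le ⟨1, fun l hl => hl.1⟩ hmem⟩
  rw [tendsto_order]
  constructor
  · intro a ha
    filter_upwards [key 2 one_lt_two] with m hm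
    exact ha.trans_le hm.1
  · intro a ha
    filter_upwards [key ((1 + a) / 2) (by linarith)] with m hm
    linarith [hm.2]

end Pool.Agent.Lib.MP_5ac201_gt
end
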